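import Mathlib

/-! Reduction of polynomials modulo `u ^ p - u` over an algebraically closed field of
characteristic `p` (module D3 of MP_db217e_lc). -/

set_option autoImplicit false

open Polynomial Finset

namespace Pool.Agent.H58.Tilt

section Red

variable {M : Type*} [Field M] (p : ℕ) [hp : Fact p.Prime] [CharP M p] [PerfectRing M p]

/-- the iterated inverse Frobenius -/
noncomputable def rt (e : ℕ) : M →+* M := ((iterateFrobeniusEquiv M p e).symm : M →+* M)

theorem rt_pow (e : ℕ) (x : M) : rt p e x ^ p ^ e = x := by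
  have h := (iterateFrobeniusEquiv M p e).apply_symm_apply x
  rwa [iterateFrobeniusEquiv_def] at h

/-- the reduced form of a polynomial -/
noncomputable def red (P : M[X]) : M[X] :=
  ∑ j ∈ Icc 1 P.natDegree,
    C (rt p (padicValNat p j) (P.coeff j)) * X ^ (j / p ^ padicValNat p j)

theorem red_coeff (P : M[X]) (m : ℕ) :
    (red p P).coeff m = ∑ j ∈ (Icc 1 P.natDegree).filter (fun j => m = j / p ^ padicValNat p j),
      rt p (padicValNat p j) (P.coeff j) := by
  unfold red
  rw [finsetSum_coeff, sum_filter]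
  refine sum_congr rfl fun j _ => ?_
  rw [coeff_C_mul_X_pow]

theorem not_dvd_div {j : ℕ} (hj : 1 ≤ j) : ¬ p ∣ j / p ^ padicValNat p j := by
  intro h
  have h1 : p ^ padicValNat p j ∣ j := pow_padicValNat_dvd
  have h2 : p ^ (padicValNat p j + 1) ∣ j := by
    rw [pow_succ]
    exact (Nat.mul_dvd_of_dvd_div h1 h)
  exact pow_succ_padicValNat_not_dvd (by lia) h2

theorem red_coeff_of_dvd (P : M[X]) {m : ℕ} (hm : p ∣ m) : (red p P).coeff m = 0 := by
  rw [red_coeff]
  refine sum_eq_zero fun j hj => ?_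
  rw [mem_filter, mem_Icc] at hj
  exact absurd (hj.2 ▸ hm) (not_dvd_div p hj.1.1)

theorem red_coeff_zero (P : M[X]) : (red p P).coeff 0 = 0 := red_coeff_of_dvd p P (dvd_zero p)

theorem natDegree_red_le (P : M[X]) : (red p P).natDegree ≤ P.natDegree := by
  unfold red
  refine natDegree_sum_le_of_forall_le _ _ fun j hj => ?_
  rw [mem_Icc] at hj
  exact (natDegree_C_mul_X_pow_le _ _).trans ((Nat.div_le_self _ _).trans hj.2)

theorem exists_pow (c : M) (m e : ℕ) :
    ∃ u : M[X], C c * X ^ (p ^ e * m) - C (rt p e c) * X ^ m = u ^ p - u := by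
  induction e generalizing c with
  | zero =>
    refine ⟨0, ?_⟩
    have h : rt p 0 c = c := by simpa using rt_pow p 0 c
    rw [h]; simp [hp.out.ne_zero]
  | succ e ih =>
    obtain ⟨u, hu⟩ := ih (rt p 1 c)
    refine ⟨u + C (rt p 1 c) * X ^ (p ^ e * m), ?_⟩
    have h1 : rt p 1 c ^ p = c := by simpa using rt_pow p 1 c
    have h2 : rt p (e + 1) c = rt p e (rt p 1 c) := by
      have hinj : Function.Injective (fun x : M => x ^ p ^ (e + 1)) :=
        (iterateFrobeniusEquiv M p (e + 1)).injective
      apply hinj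
      show _ ^ _ = _ ^ _
      rw [rt_pow, pow_succ, pow_mul, rt_pow, h1]
    rw [add_pow_char, h2, mul_pow, ← C_pow, h1, ← pow_mul]
    have e3 : p ^ e * m * p = p ^ (e + 1) * m := by ring
    rw [e3]
    linear_combination hu

theorem exists_red_sum (P : M[X]) (s : Finset ℕ) :
    ∃ u : M[X], ∑ j ∈ s, C (P.coeff j) * X ^ j
      - ∑ j ∈ s, C (rt p (padicValNat p j) (P.coeff j)) * X ^ (j / p ^ padicValNat p j)
        = u ^ p - u := by
  classical
  induction s using Finset.induction_on with
  | empty => exact ⟨0, by simp [hp.out.ne_zero]⟩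
  | insert j s hj ih =>
    obtain ⟨u, hu⟩ := ih
    obtain ⟨w, hw⟩ := exists_pow p (P.coeff j) (j / p ^ padicValNat p j) (padicValNat p j)
    have h1 : p ^ padicValNat p j * (j / p ^ padicValNat p j) = j :=
      Nat.mul_div_cancel' pow_padicValNat_dvd
    rw [h1] at hw
    refine ⟨u + w, ?_⟩
    rw [sum_insert hj, sum_insert hj, add_pow_char]
    linear_combination hu + hw

theorem exists_red [IsAlgClosed M] (P : M[X]) : ∃ u : M[X], P - red p P = u ^ p - u := by
  obtain ⟨u, hu⟩ := exists_red_sum p P (Icc 1 P.natDegree)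
  -- the constant term
  obtain ⟨s, hs⟩ : ∃ s : M, s ^ p - s = P.coeff 0 := by
    have hdeg : (X ^ p - X - C (P.coeff 0) : M[X]).degree ≠ 0 := by
      have h1 : (X ^ p - X - C (P.coeff 0) : M[X]) = X ^ p - (X + C (P.coeff 0)) := by ring
      have h2 : (X + C (P.coeff 0) : M[X]).degree < p := by
        rw [degree_X_add_C]; exact_mod_cast hp.out.one_lt
      rw [h1, degree_sub_eq_left_of_degree_lt (by rw [degree_X_pow]; exact h2), degree_X_pow]
      exact_mod_cast hp.out.ne_zero
    obtain ⟨s, hs⟩ := IsAlgClosed.exists_root _ hdeg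
    refine ⟨s, ?_⟩
    have h3 : s ^ p - s - P.coeff 0 = 0 := by simpa [IsRoot] using hs
    linear_combination h3
  refine ⟨u + C s, ?_⟩
  have hP : P = C (P.coeff 0) + ∑ j ∈ Icc 1 P.natDegree, C (P.coeff j) * X ^ j := by
    conv_lhs => rw [P.as_sum_range_C_mul_X_pow]
    rw [Finset.sum_range_succ', add_comm]
    congr 1
    · simp
    · rw [Finset.range_eq_Ico, Finset.sum_Ico_add' (fun j => C (P.coeff j) * X ^ j) 0 P.natDegree 1]
      rfl
  rw [add_pow_char, ← C_pow]
  have h4 : (C (s ^ p) : M[X]) - C s = C (P.coeff 0) := by rw [← C_sub, hs]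
  unfold red
  linear_combination hu + hP + (-1 : M[X]) * h4

theorem eq_zero_of_reduced {P u : M[X]} (hP : ∀ m, p ∣ m → P.coeff m = 0)
    (hu : P = u ^ p - u) : P = 0 := by
  by_cases h0 : u.natDegree = 0
  · rw [eq_C_of_natDegree_eq_zero h0] at hu
    have h1 : P = C (u.coeff 0 ^ p - u.coeff 0) := by rw [hu]; simp
    have h2 := hP 0 (dvd_zero p)
    rw [h1, coeff_C_zero] at h2
    rw [h1, h2, C_0]
  · exfalso
    have h1 := hP (p * u.natDegree) (dvd_mul_right _ _)
    rw [hu, coeff_sub] at h1
    have h2 : u.coeff (p * u.natDegree) = 0 := by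
      apply coeff_eq_zero_of_natDegree_lt
      have := hp.out.one_lt
      nlinarith [Nat.pos_of_ne_zero h0]
    rw [h2, sub_zero, coeff_pow_mul_natDegree] at h1
    have h3 : u.leadingCoeff = 0 := by
      by_contra hne
      exact (pow_ne_zero p hne) h1
    rw [leadingCoeff_eq_zero] at h3
    rw [h3] at h0
    exact h0 natDegree_zero

/-- two polynomials that differ by `u ^ p - u` have the same reduced form -/
theorem red_eq_of_sub [IsAlgClosed M] {P Q : M[X]} (h : ∃ u : M[X], P - Q = u ^ p - u) :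
    red p P = red p Q := by
  obtain ⟨u, hu⟩ := h
  obtain ⟨u1, h1⟩ := exists_red p P
  obtain ⟨u2, h2⟩ := exists_red p Q
  have h3 : red p P - red p Q = 0 := by
    apply eq_zero_of_reduced p (u := u + u2 - u1)
    · intro m hm
      rw [coeff_sub, red_coeff_of_dvd p P hm, red_coeff_of_dvd p Q hm, sub_zero]
    · rw [sub_pow_char, add_pow_char]
      linear_combination hu - h1 + h2
  exact sub_eq_zero.1 h3

end Red

end Pool.Agent.H58.Tilt
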