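import Pool.Agent.H58.Tilt.Step

/-! Henselian rationality in the rank one immediate case (module D3 of MP_db217e_lc). -/

set_option autoImplicit false

open Polynomial Finset

namespace Pool.Agent.H58.Tilt

variable {Ω : Type*} [Field Ω]
  {Γ : Type*} [LinearOrderedCommGroupWithZero Γ] {v : Valuation Ω Γ}

theorem isSeparable_mono {L E : Subfield Ω} (h : L ≤ E) {x : Ω} (hx : IsSeparable L x) :
    IsSeparable E x := by
  let _ : Algebra L E := (Subfield.inclusion h).toAlgebra
  have : IsScalarTower L E Ω := IsScalarTower.of_algebraMap_eq fun _ => rfl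
  exact hx.tower_top E

theorem adj_eq_adjoin (L : Subfield Ω) (S : Set Ω) :
    adj L S = (IntermediateField.adjoin L S).toSubfield := by
  have h1 : Set.range (algebraMap L Ω) = (L : Set Ω) := by
    ext x
    constructor
    · rintro ⟨y, rfl⟩; exact y.2
    · intro hx; exact ⟨⟨x, hx⟩, rfl⟩
  show Subfield.closure ((L : Set Ω) ∪ S) = Subfield.closure (Set.range (algebraMap L Ω) ∪ S)
  rw [h1]

theorem isSeparable_of_mem_adj {L : Subfield Ω} {S : Set Ω} (h : ∀ x ∈ S, IsSeparable L x) {x : Ω}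
    (hx : x ∈ adj L S) : IsSeparable L x := by
  have h1 : adj L S ≤ (separableClosure L Ω).toSubfield := by
    refine adj_le (fun y hy => ?_) fun y hy => ?_
    · exact (mem_separableClosure_iff).2 (isSeparable_algebraMap (⟨y, hy⟩ : L))
    · exact (mem_separableClosure_iff).2 (h y hy)
  exact (mem_separableClosure_iff).1 (h1 hx)

theorem relfinrank_adj_ne_zero {L : Subfield Ω} {S : Set Ω} (hS : S.Finite)
    (h : ∀ x ∈ S, IsIntegral L x) : Subfield.relfinrank L (adj L S) ≠ 0 := by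
  rw [Subfield.relfinrank_eq_finrank_of_le (le_adj L S)]
  have h1 : Subfield.extendScalars (le_adj L S) = IntermediateField.adjoin L S := by
    apply IntermediateField.toSubfield_injective
    rw [← adj_eq_adjoin]
    rfl
  rw [h1]
  have := hS.to_subtype
  have h2 : FiniteDimensional L (IntermediateField.adjoin L S) :=
    IntermediateField.finiteDimensional_adjoin h
  exact Module.finrank_pos.ne'

variable [IsAlgClosed Ω] (p : ℕ) [hp : Fact p.Prime] [CharP Ω p]
  {M : Subfield Ω} [IsAlgClosed M]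

theorem d3_aux (hr : R1 v) (himm : Imm v M)
    (hB2 : ∀ L : Subfield Ω, M ≤ L → SCl v L → Algebra.IsAlgebraic L Ω → VInv v L)
    (hB4 : ∀ L : Subfield Ω, M ≤ L → SCl v L → Algebra.IsAlgebraic L Ω → ∀ x : Ω,
      IsSeparable L x → x ∉ L → ∃ y ∈ adj L {x}, y ∉ L ∧ y ^ p - y ∈ L)
    (E : Subfield Ω) (n : ℕ) : ∀ z : Ω, z ∉ M → Algebra.IsAlgebraic (adj M {z}) Ω →
      HC v (adj M {z}) ≤ E → Subfield.relfinrank (HC v (adj M {z})) E = n → n ≠ 0 →
      (∀ x ∈ E, IsSeparable (HC v (adj M {z})) x) →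
      ∃ z₁ : Ω, z₁ ∉ M ∧ Algebra.IsAlgebraic (adj M {z₁}) Ω ∧ HC v (adj M {z₁}) = E := by
  induction n using Nat.strong_induction_on with
  | _ n ih =>
    intro z hz halg hle hn hn0 hsep
    set F := HC v (adj M {z}) with hF
    by_cases hEF : E ≤ F
    · exact ⟨z, hz, halg, le_antisymm hle hEF⟩
    · obtain ⟨x, hxE, hxF⟩ := Set.not_subset.1 hEF
      have hMF : M ≤ F := (le_adj M {z}).trans (le_HC v _)
      have hFalg : Algebra.IsAlgebraic F Ω := isAlgebraic_mono (le_HC v (adj M {z}))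
      obtain ⟨y, hyx, hyF, hyp⟩ := hB4 F hMF (HC_scl v _) hFalg x (hsep x hxE) hxF
      have hyE : y ∈ E := (adj_le hle (by rintro _ rfl; exact hxE) : adj F {x} ≤ E) hyx
      obtain ⟨z', hz', halg', heq⟩ := as_step p hr himm hB2 hz hyF hyp
      have hFF' : F ≤ HC v (adj M {z'}) := by rw [heq]; exact le_adj F {y}
      have hF'E : HC v (adj M {z'}) ≤ E := by
        rw [heq]; exact adj_le hle (by rintro _ rfl; exact hyE)
      have hmul := Subfield.relfinrank_mul_relfinrank hFF' hF'E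
      rw [hn] at hmul
      have h1 : Subfield.relfinrank F (HC v (adj M {z'})) ≠ 1 := by
        intro h
        rw [Subfield.relfinrank_eq_one_iff, heq] at h
        exact hyF (h (self_mem_adj F y))
      have h2 : Subfield.relfinrank F (HC v (adj M {z'})) ≠ 0 := by
        intro h; rw [h, zero_mul] at hmul; exact hn0 hmul.symm
      have h3 : Subfield.relfinrank (HC v (adj M {z'})) E ≠ 0 := by
        intro h; rw [h, mul_zero] at hmul; exact hn0 hmul.symm
      have h4 : Subfield.relfinrank (HC v (adj M {z'})) E < n := by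
        rw [← hmul]
        have h5 : 2 ≤ Subfield.relfinrank F (HC v (adj M {z'})) := by lia
        nlinarith [Nat.pos_of_ne_zero h3]
      exact ih _ h4 z' hz' halg' hF'E rfl h3 fun x hx => isSeparable_mono hFF' (hsep x hx)

/-- D3 -/
theorem d3 (hr : R1 v) (himm : Imm v M)
    (hB2 : ∀ L : Subfield Ω, M ≤ L → SCl v L → Algebra.IsAlgebraic L Ω → VInv v L)
    (hB4 : ∀ L : Subfield Ω, M ≤ L → SCl v L → Algebra.IsAlgebraic L Ω → ∀ x : Ω,
      IsSeparable L x → x ∉ L → ∃ y ∈ adj L {x}, y ∉ L ∧ y ^ p - y ∈ L)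
    {S : Set Ω} (hS : S.Finite) {z : Ω} (hz : z ∉ M) (hzS : z ∈ adj M S)
    (halg : Algebra.IsAlgebraic (adj M {z}) Ω)
    (hsep : ∀ s ∈ S, IsSeparable (adj M {z}) s) :
    ∃ z₁ : Ω, z₁ ∉ M ∧ Algebra.IsAlgebraic (adj M {z₁}) Ω ∧
      HC v (adj M {z₁}) = HC v (adj M S) := by
  set F := HC v (adj M {z}) with hF
  have hMF : M ≤ F := (le_adj M {z}).trans (le_HC v _)
  have hFalg : Algebra.IsAlgebraic F Ω := isAlgebraic_mono (le_HC v (adj M {z}))
  have hsepF : ∀ s ∈ S, IsSeparable F s := fun s hs => isSeparable_mono (le_HC v _) (hsep s hs)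
  have hne := relfinrank_adj_ne_zero hS (L := F) fun s hs => (hsepF s hs).isIntegral
  obtain ⟨z₁, h1, h2, h3⟩ := d3_aux p hr himm hB2 hB4 (adj F S) _ z hz halg (le_adj F S) rfl hne
    fun x hx => isSeparable_of_mem_adj hsepF hx
  refine ⟨z₁, h1, h2, ?_⟩
  rw [h3]
  have hEalg : Algebra.IsAlgebraic (adj F S) Ω := isAlgebraic_mono (le_adj F S)
  refine le_antisymm (adj_le (HC_mono (adj_le (le_adj M S) ?_)) ?_) (HC_le (adj_le ?_ ?_) ?_)
  · rintro _ rfl; exact hzS
  · exact fun s hs => le_HC v _ (subset_adj M S hs)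
  · exact hMF.trans (le_adj F S)
  · exact subset_adj F S
  · refine scl_of_residues ((hB2 F hMF (HC_scl v _) hFalg).mono (le_adj F _)) fun c hc => ?_
    obtain ⟨a, ha, h3⟩ := himm.res hc
    exact ⟨a, le_adj F _ (hMF ha), h3⟩

end Pool.Agent.H58.Tilt
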