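import Pool.Agent.H92.Tilt.Basic
import Pool.Agent.H58.Tilt.D3

/-! Translation between the notation of Pool/Agent/H58/Tilt and that of Pool/Agent/H92/Tilt. -/

set_option autoImplicit false

open Polynomial Finset

namespace Pool.Agent.H58.Tilt

variable {Ω : Type*} [Field Ω] (O : ValuationSubring Ω)

theorem adj_eq_92 (L : Subfield Ω) (S : Set Ω) : adj L S = H92.Tilt.adj L S := by
  apply le_antisymm
  · exact adj_le (H92.Tilt.le_adj L S) (H92.Tilt.subset_adj L S)
  · exact H92.Tilt.adj_le (le_adj L S) (subset_adj L S)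

theorem sr_iff_92 (L : Subfield Ω) (c : Ω) : SR O.valuation L c ↔ H92.Tilt.SRoot O L c := by
  constructor
  · rintro ⟨h1, f, hm, hL, hO, h0, hd⟩
    exact ⟨f, hm, hL, fun i => (O.valuation_le_one_iff _).1 (hO i), h0, hd⟩
  · intro hc
    have h1 := hc.memO
    obtain ⟨f, hm, hL, hO, h0, hd⟩ := hc
    exact ⟨(O.valuation_le_one_iff _).2 h1, f, hm, hL,
      fun i => (O.valuation_le_one_iff _).2 (hO i), h0, hd⟩

theorem scl_iff_92 (L : Subfield Ω) : SCl O.valuation L ↔ H92.Tilt.SCl O L :=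
  forall_congr' fun c => by rw [sr_iff_92]

theorem hc_eq_92 (L : Subfield Ω) : HC O.valuation L = H92.Tilt.HC O L := by
  unfold HC H92.Tilt.HC
  congr 1
  ext F
  show (L ≤ F ∧ SCl O.valuation F) ↔ (L ≤ F ∧ H92.Tilt.SCl O F)
  rw [scl_iff_92]

theorem r1_of_arch (h : H92.Tilt.Arch O) : R1 O.valuation := by
  intro x y hx hy
  obtain ⟨n, hn⟩ := h x y hx hy
  exact ⟨n, by rwa [map_pow] at hn⟩

theorem algClosed_of [IsAlgClosed Ω] {M : Subfield Ω} (hM : ∀ x, IsAlgebraic M x → x ∈ M) :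
    IsAlgClosed M := by
  refine IsAlgClosed.of_exists_root M fun f hm hirr => ?_
  obtain ⟨x, hx⟩ := IsAlgClosed.exists_aeval_eq_zero Ω f (by
    have := hirr.degree_pos
    exact this.ne')
  have hxM : x ∈ M := hM x ⟨f, hm.ne_zero, hx⟩
  refine ⟨⟨x, hxM⟩, ?_⟩
  have h1 : algebraMap M Ω (f.eval ⟨x, hxM⟩) = 0 := by
    have h2 : algebraMap M Ω (f.eval ⟨x, hxM⟩) = aeval (algebraMap M Ω ⟨x, hxM⟩) f := by
      rw [aeval_algebraMap_apply, coe_aeval_eq_eval]
    rw [h2]; exact hx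
  exact (algebraMap M Ω).injective (by rw [h1, map_zero])

theorem vinv_of [IsAlgClosed Ω] {L : Subfield Ω}
    (h : ∀ σ : Ω ≃+* Ω, (∀ z ∈ L, σ z = z) → ∀ x, O.valuation (σ x) = O.valuation x) :
    VInv O.valuation L := by
  intro σ x
  exact h (σ : Ω ≃+* Ω) (fun z hz => σ.commutes ⟨z, hz⟩) x

section Closure

variable {O}
variable {Γ : Type*} [LinearOrderedCommGroupWithZero Γ] {v : Valuation Ω Γ} {M : Subfield Ω}

theorem InC.inv_imm (hr : R1 v) (himm : Imm v M) {z x : Ω} (hx : InC v M z x) :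
    InC v M z x⁻¹ := by
  rcases eq_or_ne x 0 with rfl | hx0
  · simpa using InC.base (v := v) (z := z) (0 : M)
  obtain ⟨a, ha, hxa⟩ := himm x hx0
  have hva : v a = v x := by
    have e : a = x - (x - a) := by ring
    rw [e]; exact v.map_sub_eq_of_lt_left hxa
  have hvx : 0 < v x := zero_lt_iff.2 ((v.ne_zero_iff).2 hx0)
  have ha0 : a ≠ 0 := (v.ne_zero_iff).1 (by rw [hva]; exact hvx.ne')
  have haC : InC v M z a := InC.base (⟨a, ha⟩ : M)
  have haiC : InC v M z a⁻¹ := InC.base (⟨a⁻¹, M.inv_mem ha⟩ : M)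
  have hq : InC v M z ((x - a) * a⁻¹) := (hx.sub haC).mul haiC
  have hq1 : v ((x - a) * a⁻¹) < 1 := by
    rw [map_mul, map_inv₀, hva, ← div_eq_mul_inv, div_lt_one₀ hvx]; exact hxa
  have h1 := (InC.one_add_inv hr hq hq1).mul haiC
  have e2 : x⁻¹ = (1 + (x - a) * a⁻¹)⁻¹ * a⁻¹ := by
    rw [← mul_inv]
    congr 1
    rw [add_mul, one_mul, mul_assoc, inv_mul_cancel₀ ha0, mul_one]; ring
  rw [e2]; exact h1

/-- the closure of `M[z]` as a subfield -/
def closI (hr : R1 v) (himm : Imm v M) (z : Ω) : Subfield Ω where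
  carrier := {x | InC v M z x}
  mul_mem' := InC.mul
  one_mem' := by
    show InC v M z 1
    simpa using InC.base (v := v) (z := z) (1 : M)
  add_mem' := InC.add
  zero_mem' := by
    show InC v M z 0
    simpa using InC.base (v := v) (z := z) (0 : M)
  neg_mem' := InC.neg
  inv_mem' := fun _ hx => InC.inv_imm hr himm hx

theorem mem_closI (hr : R1 v) (himm : Imm v M) (z x : Ω) :
    x ∈ closI hr himm z ↔ InC v M z x := Iff.rfl

theorem closI_scl (hr : R1 v) (himm : Imm v M) (z : Ω) : SCl v (closI hr himm z) := by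
  intro c hc
  rw [mem_closI]
  obtain ⟨a, ha, hca⟩ := himm.res hc.1
  refine InC.of_close fun e he => ?_
  exact newton hr (closI hr himm z) hc ((mem_closI hr himm z a).2 (InC.base (⟨a, ha⟩ : M))) hca e he

theorem HC_le_closI (hr : R1 v) (himm : Imm v M) (z : Ω) :
    HC v (adj M {z}) ≤ closI hr himm z := by
  refine HC_le (adj_le (fun x hx => ?_) ?_) (closI_scl hr himm z)
  · exact (mem_closI hr himm z x).2 (InC.base (⟨x, hx⟩ : M))
  · rintro x rfl
    exact (mem_closI hr himm x x).2 InC.self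

end Closure

end Pool.Agent.H58.Tilt
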