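import Pool.Agent.H58.Tilt.StepA

/-! The closure of `M[z]` in a rank one valued field is a field closed under simple roots
(module D3 of MP_db217e_lc). -/

set_option autoImplicit false

open Polynomial Finset

namespace Pool.Agent.H58.Tilt

variable {Ω : Type*} [Field Ω]
  {Γ : Type*} [LinearOrderedCommGroupWithZero Γ] (v : Valuation Ω Γ)

section Taylor

variable {v}

theorem val_taylor_le {h : Polynomial Ω} (hh : ∀ n, v (h.coeff n) ≤ 1) {x : Ω} (hx : v x ≤ 1)
    (j : ℕ) : v ((taylor x h).coeff j) ≤ 1 := by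
  rw [taylor_coeff_sum]
  refine v.map_sum_le fun m _ => ?_
  rw [map_mul, map_mul, map_pow]
  exact mul_le_one' (mul_le_one' (hh m) (v_nat_le v _)) (pow_le_one₀ zero_le hx)

theorem val_eval_le {h : Polynomial Ω} (hh : ∀ n, v (h.coeff n) ≤ 1) {x : Ω} (hx : v x ≤ 1) :
    v (h.eval x) ≤ 1 := by
  rw [← taylor_coeff_zero]; exact val_taylor_le hh hx 0

theorem eval_add_sq {h : Polynomial Ω} (hh : ∀ n, v (h.coeff n) ≤ 1) {x d : Ω} (hx : v x ≤ 1)
    (hd : v d ≤ 1) :
    ∃ k : Ω, v k ≤ 1 ∧ h.eval (x + d) = h.eval x + h.derivative.eval x * d + k * d ^ 2 := by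
  refine ⟨∑ i ∈ range h.natDegree, (taylor x h).coeff (i + 2) * d ^ i, ?_, ?_⟩
  · refine v.map_sum_le fun i _ => ?_
    rw [map_mul, map_pow]
    exact mul_le_one' (val_taylor_le hh hx _) (pow_le_one₀ zero_le hd)
  · have h1 : h.eval (x + d) = (taylor x h).eval d := by rw [taylor_eval, add_comm]
    rw [h1, eval_eq_sum_range' (n := h.natDegree + 2) (by rw [natDegree_taylor]; lia),
      sum_range_succ', sum_range_succ']
    rw [taylor_coeff_zero, zero_add, taylor_coeff_one, sum_mul]
    rw [pow_zero, mul_one, pow_one]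
    have e : ∑ k ∈ range h.natDegree, (taylor x h).coeff (k + 1 + 1) * d ^ (k + 1 + 1) =
        ∑ i ∈ range h.natDegree, (taylor x h).coeff (i + 2) * d ^ i * d ^ 2 :=
      sum_congr rfl fun k _ => by ring
    rw [e]; ring

theorem eval_add_lin {h : Polynomial Ω} (hh : ∀ n, v (h.coeff n) ≤ 1) {x d : Ω} (hx : v x ≤ 1)
    (hd : v d ≤ 1) : v (h.eval (x + d) - h.eval x) ≤ v d := by
  obtain ⟨k, hk, e⟩ := eval_add_sq hh hx hd
  have e2 : h.eval (x + d) - h.eval x = (h.derivative.eval x + k * d) * d := by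
    rw [e]; ring
  rw [e2, map_mul]
  refine mul_le_of_le_one_left' (v.map_add_le ?_ ?_)
  · rw [← taylor_coeff_one]; exact val_taylor_le hh hx 1
  · rw [map_mul]; exact mul_le_one' hk hd

end Taylor

/-- simple root over a subfield -/
def SR (L : Subfield Ω) (c : Ω) : Prop :=
  v c ≤ 1 ∧ ∃ h : Polynomial Ω, h.Monic ∧ (∀ n, h.coeff n ∈ L) ∧ (∀ n, v (h.coeff n) ≤ 1) ∧
    h.eval c = 0 ∧ v (h.derivative.eval c) = 1

/-- closed under simple roots -/
def SCl (L : Subfield Ω) : Prop := ∀ c, SR v L c → c ∈ L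

/-- rank one -/
def R1 : Prop := ∀ x y : Ω, v x < 1 → y ≠ 0 → ∃ n : ℕ, v x ^ n < v y

section Clos

variable {M : Type*} [Field M] [Algebra M Ω]

/-- closure of `M[z]` -/
def InC (M : Type*) [Field M] [Algebra M Ω] (z x : Ω) : Prop :=
  ∀ e : Ω, e ≠ 0 → ∃ P : M[X], v (x - aeval z P) < v e

variable {v} {z : Ω}

theorem InC.poly (P : M[X]) : InC v M z (aeval z P) := fun e he =>
  ⟨P, by rw [sub_self, map_zero]; exact zero_lt_iff.2 ((v.ne_zero_iff).2 he)⟩

theorem InC.base (a : M) : InC v M z (algebraMap M Ω a) := by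
  simpa using InC.poly (v := v) (z := z) (C a)

theorem InC.self : InC v M z z := by
  simpa using InC.poly (v := v) (z := z) (X : M[X])

theorem InC.of_close {x : Ω} (h : ∀ e : Ω, e ≠ 0 → ∃ y, InC v M z y ∧ v (x - y) < v e) :
    InC v M z x := by
  intro e he
  obtain ⟨y, hy, hxy⟩ := h e he
  obtain ⟨P, hP⟩ := hy e he
  refine ⟨P, ?_⟩
  have e1 : x - Polynomial.aeval z P = (x - y) + (y - Polynomial.aeval z P) := by ring
  rw [e1]; exact v.map_add_lt hxy hP

theorem InC.add {x y : Ω} (hx : InC v M z x) (hy : InC v M z y) : InC v M z (x + y) := by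
  intro e he
  obtain ⟨P, hP⟩ := hx e he
  obtain ⟨Q, hQ⟩ := hy e he
  refine ⟨P + Q, ?_⟩
  have e1 : x + y - Polynomial.aeval z (P + Q) =
      (x - Polynomial.aeval z P) + (y - Polynomial.aeval z Q) := by
    rw [map_add]; ring
  rw [e1]; exact v.map_add_lt hP hQ

theorem InC.neg {x : Ω} (hx : InC v M z x) : InC v M z (-x) := by
  intro e he
  obtain ⟨P, hP⟩ := hx e he
  refine ⟨-P, ?_⟩
  have e1 : -x - Polynomial.aeval z (-P) = -(x - Polynomial.aeval z P) := by
    rw [map_neg]; ring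
  rw [e1, v.map_neg]; exact hP

theorem InC.sub {x y : Ω} (hx : InC v M z x) (hy : InC v M z y) : InC v M z (x - y) := by
  rw [sub_eq_add_neg]; exact hx.add hy.neg

theorem exists_small (a b : Ω) (ha : a ≠ 0) (hb : b ≠ 0) :
    ∃ e : Ω, e ≠ 0 ∧ v e ≤ v a ∧ v e ≤ v b := by
  rcases le_total (v a) (v b) with h | h
  · exact ⟨a, ha, le_rfl, h⟩
  · exact ⟨b, hb, h, le_rfl⟩

theorem InC.mul {x y : Ω} (hx : InC v M z x) (hy : InC v M z y) : InC v M z (x * y) := by
  intro e he
  obtain ⟨t, ht1, htx, hty⟩ : ∃ t : Ω, 1 ≤ v t ∧ v x ≤ v t ∧ v y ≤ v t := by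
    rcases le_total (v x) (v y) with h1 | h1
    · rcases le_total (v y) 1 with h2 | h2
      · exact ⟨1, by simp, by simpa using h1.trans h2, by simpa using h2⟩
      · exact ⟨y, h2, h1, le_rfl⟩
    · rcases le_total (v x) 1 with h2 | h2
      · exact ⟨1, by simp, by simpa using h2, by simpa using h1.trans h2⟩
      · exact ⟨x, h2, le_rfl, h1⟩
  have ht0 : 0 < v t := lt_of_lt_of_le one_pos ht1
  have htne : t ≠ 0 := (v.ne_zero_iff).1 ht0.ne'
  obtain ⟨e', he', h1, h2⟩ := exists_small (v := v) (e / t) 1 (div_ne_zero he htne) one_ne_zero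
  rw [map_one] at h2
  rw [map_div₀, le_div_iff₀ ht0] at h1
  obtain ⟨P, hP⟩ := hx e' he'
  obtain ⟨Q, hQ⟩ := hy e' he'
  refine ⟨P * Q, ?_⟩
  have e1 : x * y - Polynomial.aeval z (P * Q) =
      x * (y - Polynomial.aeval z Q) + Polynomial.aeval z Q * (x - Polynomial.aeval z P) := by
    rw [map_mul]; ring
  have hQt : v (Polynomial.aeval z Q) ≤ v t := by
    have e2 : Polynomial.aeval z Q = y - (y - Polynomial.aeval z Q) := by ring
    rw [e2]
    exact v.map_sub_le hty ((hQ.le.trans h2).trans ht1)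
  rw [e1]
  refine v.map_add_lt ?_ ?_
  · rw [map_mul, mul_comm]
    exact (mul_lt_mul_of_lt_of_le_of_nonneg_of_pos hQ htx zero_le ht0).trans_le h1
  · rw [map_mul, mul_comm]
    exact (mul_lt_mul_of_lt_of_le_of_nonneg_of_pos hP hQt zero_le ht0).trans_le h1

theorem InC.pow {x : Ω} (hx : InC v M z x) (n : ℕ) : InC v M z (x ^ n) := by
  induction n with
  | zero => simpa using InC.base (v := v) (z := z) (1 : M)
  | succ n ih => rw [pow_succ]; exact ih.mul hx

theorem InC.sum {ι : Type*} (s : Finset ι) (f : ι → Ω) (h : ∀ i ∈ s, InC v M z (f i)) :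
    InC v M z (∑ i ∈ s, f i) := by
  classical
  induction s using Finset.induction_on with
  | empty => simpa using InC.base (v := v) (z := z) (0 : M)
  | insert i s hi ih =>
    rw [sum_insert hi]
    exact (h i (mem_insert_self _ _)).add (ih fun j hj => h j (mem_insert_of_mem hj))

/-- geometric series -/
theorem InC.one_add_inv (hr : R1 v) {q : Ω} (hq : InC v M z q) (hq1 : v q < 1) :
    InC v M z (1 + q)⁻¹ := by
  have hv : v (1 + q) = 1 := by
    rw [v.map_add_eq_of_lt_left (by rw [map_one]; exact hq1), map_one]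
  have hne : (1 + q) ≠ 0 := (v.ne_zero_iff).1 (by rw [hv]; exact one_ne_zero)
  refine InC.of_close fun e he => ?_
  obtain ⟨n, hn⟩ := hr q e hq1 he
  refine ⟨∑ i ∈ range n, (-q) ^ i, InC.sum _ _ fun i _ => (hq.neg).pow i, ?_⟩
  have e1 : (1 + q)⁻¹ - ∑ i ∈ range n, (-q) ^ i = (-q) ^ n * (1 + q)⁻¹ := by
    have h2 := mul_neg_geom_sum (-q) n
    rw [sub_neg_eq_add] at h2
    field_simp
    rw [h2]; ring
  rw [e1, map_mul, map_pow, v.map_neg, map_inv₀, hv, inv_one, mul_one]
  exact hn

theorem InC.sub_inv (hr : R1 v) (hz : Lim v M z) (a : M) :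
    InC v M z (z - algebraMap M Ω a)⁻¹ := by
  obtain ⟨b, hb⟩ := hz a
  have hpos := hz.pos a
  set t := algebraMap M Ω (b - a) with ht
  have e1 : t = (z - algebraMap M Ω a) - (z - algebraMap M Ω b) := by
    rw [ht, map_sub]; ring
  have hvt : v t = v (z - algebraMap M Ω a) := by rw [e1]; exact v.map_sub_eq_of_lt_left hb
  have ht0 : t ≠ 0 := (v.ne_zero_iff).1 (by rw [hvt]; exact hpos.ne')
  have hq1 : v ((z - algebraMap M Ω b) * t⁻¹) < 1 := by
    rw [map_mul, map_inv₀, hvt, ← div_eq_mul_inv, div_lt_one₀ hpos]; exact hb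
  have hti : InC v M z t⁻¹ := by rw [ht, ← map_inv₀]; exact InC.base _
  have hq : InC v M z ((z - algebraMap M Ω b) * t⁻¹) := (InC.self.sub (InC.base b)).mul hti
  have h1 := (InC.one_add_inv hr hq hq1).mul hti
  have e2 : (z - algebraMap M Ω a)⁻¹ = (1 + (z - algebraMap M Ω b) * t⁻¹)⁻¹ * t⁻¹ := by
    rw [← mul_inv]
    congr 1
    rw [add_mul, one_mul, mul_assoc, inv_mul_cancel₀ ht0, mul_one, e1]; ring
  rw [e2]; exact h1

theorem InC.multiset_prod (s : Multiset M) (f : M → Ω) (h : ∀ a ∈ s, InC v M z (f a)) :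
    InC v M z (s.map f).prod := by
  induction s using Multiset.induction_on with
  | empty => simpa using InC.base (v := v) (z := z) (1 : M)
  | cons a s ih =>
    rw [Multiset.map_cons, Multiset.prod_cons]
    exact (h a (Multiset.mem_cons_self _ _)).mul (ih fun b hb => h b (Multiset.mem_cons_of_mem hb))

theorem InC.poly_inv [IsAlgClosed M] (hr : R1 v) (hz : Lim v M z) (P : M[X]) :
    InC v M z (aeval z P)⁻¹ := by
  rw [aeval_split P z, mul_inv, ← map_inv₀, ← Multiset.prod_map_inv']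
  refine (InC.base _).mul ?_
  rw [Multiset.map_map]
  exact InC.multiset_prod _ _ fun a _ => InC.sub_inv hr hz a

theorem InC.inv [IsAlgClosed M] (hr : R1 v) (hz : Lim v M z) {x : Ω} (hx : InC v M z x) :
    InC v M z x⁻¹ := by
  rcases eq_or_ne x 0 with rfl | hx0
  · simpa using InC.base (v := v) (z := z) (0 : M)
  refine InC.of_close fun e he => ?_
  obtain ⟨e', he', h1, h2⟩ := exists_small (v := v) x (e * x ^ 2) hx0
    (mul_ne_zero he (pow_ne_zero _ hx0))
  obtain ⟨P, hP⟩ := hx e' he'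
  have hvx : 0 < v x := zero_lt_iff.2 ((v.ne_zero_iff).2 hx0)
  have hvP : v (aeval z P) = v x := by
    have e1 : aeval z P = x - (x - aeval z P) := by ring
    rw [e1]; exact v.map_sub_eq_of_lt_left (hP.trans_le h1)
  have hP0 : aeval z P ≠ 0 := (v.ne_zero_iff).1 (by rw [hvP]; exact hvx.ne')
  refine ⟨(aeval z P)⁻¹, InC.poly_inv hr hz P, ?_⟩
  have e2 : x⁻¹ - (aeval z P)⁻¹ = -(x - aeval z P) / (x * aeval z P) := by
    field_simp; ring
  rw [e2, map_div₀, v.map_neg, map_mul, hvP, div_lt_iff₀ (mul_pos hvx hvx)]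
  refine hP.trans_le (h2.trans ?_)
  rw [map_mul, map_pow, sq]

/-- the closure of `M[z]` as a subfield -/
def closF [IsAlgClosed M] (hr : R1 v) (hz : Lim v M z) : Subfield Ω where
  carrier := {x | InC v M z x}
  mul_mem' := InC.mul
  one_mem' := by
    show InC v M z 1
    simpa using InC.base (v := v) (z := z) (1 : M)
  add_mem' := InC.add
  zero_mem' := by
    show InC v M z 0
    simpa using InC.base (v := v) (z := z) (0 : M)
  neg_mem' := InC.neg
  inv_mem' := fun _ hx => InC.inv hr hz hx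

theorem mem_closF [IsAlgClosed M] (hr : R1 v) (hz : Lim v M z) (x : Ω) :
    x ∈ closF hr hz ↔ InC v M z x := Iff.rfl

theorem eval_mem (L : Subfield Ω) {h : Polynomial Ω} (hh : ∀ n, h.coeff n ∈ L) {x : Ω}
    (hx : x ∈ L) : h.eval x ∈ L := by
  rw [eval_eq_sum_range]
  exact L.sum_mem fun i _ => L.mul_mem (hh i) (L.pow_mem hx i)

theorem derivative_mem (L : Subfield Ω) {h : Polynomial Ω} (hh : ∀ n, h.coeff n ∈ L) (n : ℕ) :
    h.derivative.coeff n ∈ L := by
  rw [coeff_derivative]
  exact L.mul_mem (hh _) (L.add_mem (natCast_mem L n) L.one_mem)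

theorem derivative_le {h : Polynomial Ω} (hh : ∀ n, v (h.coeff n) ≤ 1) (n : ℕ) :
    v (h.derivative.coeff n) ≤ 1 := by
  rw [coeff_derivative, map_mul]
  refine mul_le_one' (hh _) ?_
  have := v_nat_le v (n + 1)
  rwa [Nat.cast_succ] at this

/-- Newton approximation: a simple root over `L` close to an element of `L` is a limit of
elements of `L`. -/
theorem newton (hr : R1 v) (L : Subfield Ω) {c a : Ω} (hc : SR v L c) (ha : a ∈ L)
    (hca : v (c - a) < 1) (e : Ω) (he : e ≠ 0) : ∃ y ∈ L, v (c - y) < v e := by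
  obtain ⟨hc1, h, _, hL, hO, hroot, hder⟩ := hc
  have key : ∀ n : ℕ, ∃ y ∈ L, v (c - y) ≤ v (c - a) ^ (n + 1) := by
    intro n
    induction n with
    | zero => exact ⟨a, ha, by simp⟩
    | succ n ih =>
      obtain ⟨y, hyL, hy⟩ := ih
      have hq : v (c - y) < 1 := hy.trans_lt (pow_lt_one₀ zero_le hca (by lia))
      have hy1 : v y ≤ 1 := by
        have e1 : y = c - (c - y) := by ring
        rw [e1]; exact v.map_sub_le hc1 hq.le
      obtain ⟨k, hk, hk2⟩ := eval_add_sq hO hy1 hq.le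
      rw [add_sub_cancel, hroot] at hk2
      have hdy : v (h.derivative.eval y) = 1 := by
        have h3 := eval_add_lin (derivative_le hO) hy1 hq.le
        rw [add_sub_cancel] at h3
        have e1 : h.derivative.eval y = h.derivative.eval c -
          (h.derivative.eval c - h.derivative.eval y) := by ring
        rw [e1, v.map_sub_eq_of_lt_left (by rw [hder]; exact h3.trans_lt hq), hder]
      have hdne : h.derivative.eval y ≠ 0 := (v.ne_zero_iff).1 (by rw [hdy]; exact one_ne_zero)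
      refine ⟨y - h.eval y / h.derivative.eval y, ?_, ?_⟩
      · exact L.sub_mem hyL (L.div_mem (eval_mem L hL hyL)
          (eval_mem L (derivative_mem L hL) hyL))
      · have e2 : c - (y - h.eval y / h.derivative.eval y) =
            -(k * (c - y) ^ 2) / h.derivative.eval y := by
          field_simp
          linear_combination -hk2
        rw [e2, map_div₀, hdy, div_one, v.map_neg, map_mul, map_pow]
        calc v k * v (c - y) ^ 2 ≤ 1 * v (c - y) ^ 2 := mul_le_mul_left hk _
          _ = v (c - y) * v (c - y) := by rw [one_mul, sq]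
          _ ≤ v (c - a) ^ (n + 1) * v (c - a) := by
            refine mul_le_mul' hy (hy.trans ?_)
            exact pow_le_of_le_one zero_le hca.le (by lia)
          _ = v (c - a) ^ (n + 1 + 1) := (pow_succ _ _).symm
  obtain ⟨n, hn⟩ := hr (c - a) e hca he
  obtain ⟨y, hyL, hy⟩ := key n
  refine ⟨y, hyL, hy.trans_lt (lt_of_le_of_lt ?_ hn)⟩
  rw [pow_succ]
  exact mul_le_of_le_one_right' hca.le

/-- the closure of `M[z]` is closed under simple roots if all residues come from `M` -/
theorem closF_scl [IsAlgClosed M] (hr : R1 v) (hz : Lim v M z)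
    (hres : ∀ c : Ω, v c ≤ 1 → ∃ a : M, v (c - algebraMap M Ω a) < 1) :
    SCl v (closF hr hz) := by
  intro c hc
  rw [mem_closF]
  obtain ⟨a, ha⟩ := hres c hc.1
  refine InC.of_close fun e he => ?_
  exact newton hr (closF hr hz) hc (InC.base a) ha e he

end Clos

end Pool.Agent.H58.Tilt
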