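import Pool.Agent.H58.Tilt.Clos

/-! Galois facts for subfields closed under simple roots (module D3 of MP_db217e_lc). -/

set_option autoImplicit false

open Polynomial Finset

namespace Pool.Agent.H58.Tilt

variable {Ω : Type*} [Field Ω]
  {Γ : Type*} [LinearOrderedCommGroupWithZero Γ] (v : Valuation Ω Γ)

/-- a simple root is determined by its residue -/
theorem simple_root_unique {h : Polynomial Ω} (hO : ∀ n, v (h.coeff n) ≤ 1) {c c' : Ω}
    (hc : v c ≤ 1) (h0 : h.eval c = 0) (h1 : v (h.derivative.eval c) = 1) (h0' : h.eval c' = 0)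
    (hcc : v (c' - c) < 1) : c' = c := by
  by_contra hne
  obtain ⟨k, hk, e⟩ := eval_add_sq hO hc hcc.le
  rw [add_sub_cancel, h0', h0] at e
  have hd : c' - c ≠ 0 := sub_ne_zero.2 hne
  have e2 : h.derivative.eval c = -(k * (c' - c)) := by
    have e3 : (h.derivative.eval c + k * (c' - c)) * (c' - c) = 0 := by linear_combination -e
    rcases mul_eq_zero.1 e3 with h4 | h4
    · linear_combination h4
    · exact absurd h4 hd
  rw [e2, v.map_neg, map_mul] at h1
  have h5 : v k * v (c' - c) < 1 := (mul_le_of_le_one_left' hk).trans_lt hcc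
  exact absurd h1 h5.ne

/-- fixed and separable elements lie in the base field -/
theorem mem_of_fixed_of_sep [IsAlgClosed Ω] (E : Subfield Ω) [Algebra.IsAlgebraic E Ω] {c : Ω}
    (hsep : IsSeparable E c) (hfix : ∀ σ : Ω ≃ₐ[E] Ω, σ c = c) : c ∈ E := by
  have : Normal E Ω := by
    have : IsAlgClosure E Ω := ⟨inferInstance, inferInstance⟩
    infer_instance
  have hint : IsIntegral E c := (Algebra.IsAlgebraic.isAlgebraic c).isIntegral
  have hroots : ∀ b ∈ (minpoly E c).aroots Ω, b = c := by
    intro b hb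
    rw [mem_aroots] at hb
    obtain ⟨σ, hσ⟩ := minpoly.exists_algEquiv_of_root (K := E) (L := Ω) (x := b) (y := c)
      (Algebra.IsAlgebraic.isAlgebraic c) hb.2
    have h1 := hfix σ.symm
    rw [← hσ, AlgEquiv.symm_apply_apply] at h1
    rw [h1, hσ]
  have hnodup : ((minpoly E c).aroots Ω).Nodup := nodup_aroots_iff_of_splits
    (minpoly.ne_zero hint) (IsAlgClosed.splits _) |>.2 hsep
  have hcard : Multiset.card ((minpoly E c).aroots Ω) = (minpoly E c).natDegree := by
    rw [← (IsAlgClosed.splits ((minpoly E c).map (algebraMap E Ω))).natDegree_eq_card_roots,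
      natDegree_map]
  have hle : Multiset.card ((minpoly E c).aroots Ω) ≤ 1 := by
    classical
    rw [← Multiset.toFinset_card_of_nodup hnodup, ← Finset.card_singleton c]
    refine Finset.card_le_card fun b hb => ?_
    rw [Multiset.mem_toFinset] at hb
    rw [hroots b hb]; exact Finset.mem_singleton_self _
  have hdeg : (minpoly E c).natDegree = 1 :=
    le_antisymm (hcard ▸ hle) (minpoly.natDegree_pos hint)
  rw [minpoly.natDegree_eq_one_iff] at hdeg
  obtain ⟨x, hx⟩ := hdeg
  rw [← hx]
  exact x.2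

theorem isSeparable_of_root (E : Subfield Ω) {h : Polynomial Ω} (hE : ∀ n, h.coeff n ∈ E) {c : Ω}
    (h0 : h.eval c = 0) (h1 : h.derivative.eval c ≠ 0) : IsSeparable E c := by
  obtain ⟨g, hg⟩ : ∃ g : Polynomial E, g.map (algebraMap E Ω) = h := by
    have : h ∈ lifts (algebraMap E Ω) := by
      rw [lifts_iff_coeff_lifts]
      intro n
      exact ⟨⟨h.coeff n, hE n⟩, rfl⟩
    exact (mem_lifts _).1 this
  have hg0 : aeval c g = 0 := by rw [← eval_map_algebraMap, hg, h0]
  have hg1 : aeval c g.derivative ≠ 0 := by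
    rw [← eval_map_algebraMap, ← derivative_map, hg]; exact h1
  have hgne : g ≠ 0 := by rintro rfl; simp at hg1
  have hint : IsIntegral E c := (isAlgebraic_iff_isIntegral).1 ⟨g, hgne, hg0⟩
  obtain ⟨q, hq⟩ := minpoly.dvd E c hg0
  have hd : (minpoly E c).derivative ≠ 0 := by
    intro hd
    apply hg1
    rw [hq, derivative_mul, hd, zero_mul, zero_add, map_mul, minpoly.aeval, zero_mul]
  exact (separable_iff_derivative_ne_zero (minpoly.irreducible hint)).2 hd

/-- all automorphisms fixing an algebraic base preserve the valuation -/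
def VInv (L : Subfield Ω) : Prop := ∀ σ : Ω ≃ₐ[L] Ω, ∀ x, v (σ x) = v x

variable {v}

theorem VInv.mono {L E : Subfield Ω} (h : VInv v L) (hLE : L ≤ E) : VInv v E := by
  intro σ x
  let τ : Ω ≃ₐ[L] Ω := AlgEquiv.ofRingEquiv (f := (σ : Ω ≃+* Ω)) (fun y => by
    show σ (y : Ω) = y
    exact σ.commutes (⟨y, hLE y.2⟩ : E))
  exact h τ x

theorem isAlgebraic_mono {L E : Subfield Ω} [Algebra.IsAlgebraic L Ω] (hLE : L ≤ E) :
    Algebra.IsAlgebraic E Ω := by
  let _ : Algebra L E := (Subfield.inclusion hLE).toAlgebra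
  have : IsScalarTower L E Ω := IsScalarTower.of_algebraMap_eq fun _ => rfl
  exact Algebra.IsAlgebraic.tower_top (K := L) E

variable [IsAlgClosed Ω]

/-- an algebraic extension of a field with invariant valuation is closed under simple roots as
soon as all residues come from it -/
theorem scl_of_residues {E : Subfield Ω} [Algebra.IsAlgebraic E Ω] (hv : VInv v E)
    (hres : ∀ c : Ω, v c ≤ 1 → ∃ a ∈ E, v (c - a) < 1) : SCl v E := by
  intro c hc
  obtain ⟨hc1, h, _, hE, hO, h0, h1⟩ := hc
  have hne : h.derivative.eval c ≠ 0 := (v.ne_zero_iff).1 (by rw [h1]; exact one_ne_zero)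
  refine mem_of_fixed_of_sep E (isSeparable_of_root E hE h0 hne) fun σ => ?_
  obtain ⟨a, ha, hca⟩ := hres c hc1
  refine simple_root_unique v hO hc1 h0 h1 ?_ ?_
  · have e1 : h.eval (σ c) = σ (h.eval c) := by
      rw [eval_eq_sum_range, eval_eq_sum_range, map_sum]
      refine sum_congr rfl fun i _ => ?_
      rw [map_mul, map_pow]
      congr 1
      exact (σ.commutes ⟨h.coeff i, hE i⟩).symm
    rw [e1, h0, map_zero]
  · have e2 : σ c - c = σ (c - a) - (c - a) := by
      have e3 : σ a = a := σ.commutes ⟨a, ha⟩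
      rw [map_sub, e3]; ring
    rw [e2]
    exact v.map_sub_lt (by rw [hv]; exact hca) hca

end Pool.Agent.H58.Tilt
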