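import Pool.Agent.H92.Tilt.Basic
import Pool.Agent.H58.Tilt.Gal

/-! Transcendence degree one: exchange, and separating elements (module D4 of MP_db217e_lc). -/

set_option autoImplicit false

open Polynomial

namespace Pool.Agent.H58.Tilt

variable {Ω : Type*} [Field Ω]

theorem isAlg_adjoin_iff {M : Subfield Ω} {S : Set Ω} {x : Ω} :
    IsAlgebraic (H92.Tilt.adj M S) x ↔ IsAlgebraic (IntermediateField.adjoin M S) x := by
  rw [← H92.Tilt.adjoin_eq_adj]
  exact Iff.rfl

theorem isSep_adjoin_iff {M : Subfield Ω} {S : Set Ω} {x : Ω} :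
    IsSeparable (H92.Tilt.adj M S) x ↔ IsSeparable (IntermediateField.adjoin M S) x := by
  rw [← H92.Tilt.adjoin_eq_adj]
  exact Iff.rfl

theorem trdeg_le_one {M : Subfield Ω} {z : Ω} (h : ∀ x : Ω, IsAlgebraic (H92.Tilt.adj M {z}) x) :
    Algebra.trdeg M Ω ≤ 1 := by
  have h1 : Algebra.IsAlgebraic (IntermediateField.adjoin M ({z} : Set Ω)) Ω :=
    ⟨fun x => isAlg_adjoin_iff.1 (h x)⟩
  have h2 : Algebra.IsAlgebraic (Algebra.adjoin M ({z} : Set Ω)) Ω :=
    IntermediateField.isAlgebraic_adjoin_iff_top.1 h1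
  have h3 := Algebra.IsAlgebraic.trdeg_le_cardinalMk M ({z} : Set Ω) (alg := h2)
  simpa using h3

/-- exchange -/
theorem exch {M : Subfield Ω} {z z' : Ω} (h : ∀ x : Ω, IsAlgebraic (H92.Tilt.adj M {z'}) x)
    (hz : ¬ IsAlgebraic M z) (x : Ω) : IsAlgebraic (H92.Tilt.adj M {z}) x := by
  have h1 : AlgebraicIndependent M (fun _ : Unit => z) := by
    rw [algebraicIndependent_unique_type_iff]
    exact hz
  have h2 : IsTranscendenceBasis M (fun _ : Unit => z) := by
    refine h1.isTranscendenceBasis_of_lift_trdeg_le_of_finite ?_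
    have h3 := trdeg_le_one h
    simpa using h3
  have h3 := h2.isAlgebraic_field
  have h4 : Set.range (fun _ : Unit => z) = {z} := by
    ext y; simp [eq_comm]
  rw [h4] at h3
  exact isAlg_adjoin_iff.2 (h3.isAlgebraic x)

/-- a separating element -/
theorem exists_sep (p : ℕ) [Fact p.Prime] [CharP Ω p] {M : Subfield Ω} [PerfectField M] {z' : Ω}
    (h : ∀ x : Ω, IsAlgebraic (H92.Tilt.adj M {z'}) x) (S : Finset Ω)
    (hS : ∃ s ∈ S, ¬ IsAlgebraic M s) :
    ∃ z ∈ H92.Tilt.adj M (S : Set Ω), ¬ IsAlgebraic M z ∧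
      ∀ s ∈ S, IsSeparable (H92.Tilt.adj M {z}) s := by
  set K := IntermediateField.adjoin M (S : Set Ω) with hK
  have hfg : K.FG := ⟨S, rfl⟩
  have hess : Algebra.EssFiniteType M K := IntermediateField.essFiniteType_iff.2 hfg
  obtain ⟨s, hs, hsep⟩ := exists_isTranscendenceBasis_and_isSeparable_of_perfectField M K
  have hind : AlgebraicIndependent M (fun i : s => ((i : K) : Ω)) :=
    hs.1.map' (f := K.val) K.val.injective
  have hcard : s.card ≤ 1 := by
    have h1 := hind.cardinalMk_le_trdeg.trans (trdeg_le_one h)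
    rw [Cardinal.mk_coe_finset] at h1
    exact_mod_cast h1
  rcases Finset.card_le_one_iff_subset_singleton.1 hcard with ⟨z₀, hz₀⟩
  have hne : s.Nonempty := by
    rw [Finset.nonempty_iff_ne_empty]
    rintro rfl
    obtain ⟨t, htS, ht⟩ := hS
    apply ht
    have h1 : Algebra.IsAlgebraic M K := by
      refine (hs.isEmpty_iff_isAlgebraic).1 ?_
      exact ⟨fun x => absurd x.2 (Finset.notMem_empty _)⟩
    have htK : t ∈ K := IntermediateField.subset_adjoin M _ htS
    have h2 : IsAlgebraic M (⟨t, htK⟩ : K) := h1.isAlgebraic _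
    exact h2.algebraMap (A := Ω)
  have hs1 : s = {z₀} := by
    refine Finset.Subset.antisymm hz₀ ?_
    obtain ⟨w, hw⟩ := hne
    have hw2 := Finset.mem_singleton.1 (hz₀ hw)
    rw [Finset.singleton_subset_iff, ← hw2]; exact hw
  refine ⟨(z₀ : Ω), ?_, ?_, ?_⟩
  · rw [← H92.Tilt.mem_adjoin_iff]; exact z₀.2
  · exact hind.transcendental ⟨z₀, by rw [hs1]; exact Finset.mem_singleton_self _⟩
  · intro t ht
    have htK : t ∈ K := IntermediateField.subset_adjoin M _ ht
    rw [hs1] at hsep
    set A := IntermediateField.adjoin M (({z₀} : Finset K) : Set K) with hA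
    have h1 : IsSeparable A (⟨t, htK⟩ : K) := Algebra.IsSeparable.isSeparable A _
    set g := minpoly A (⟨t, htK⟩ : K) with hg
    have hgs : g.Separable := h1
    have h2 : aeval (⟨t, htK⟩ : K) g = 0 := minpoly.aeval A _
    have h3 : aeval (⟨t, htK⟩ : K) (derivative g) ≠ 0 := hgs.aeval_derivative_ne_zero h2
    have hAle : ∀ a : A, ((a : K) : Ω) ∈ H92.Tilt.adj M {(z₀ : Ω)} := by
      intro a
      have h4 : A ≤ (IntermediateField.adjoin M ({(z₀ : Ω)} : Set Ω)).comap K.val := by
        rw [hA, IntermediateField.adjoin_le_iff]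
        intro w hw
        rw [Finset.coe_singleton, Set.mem_singleton_iff] at hw
        subst hw
        exact IntermediateField.subset_adjoin M _ rfl
      rw [← H92.Tilt.mem_adjoin_iff]
      exact h4 a.2
    let f : A →+* Ω := (K.val : K →+* Ω).comp (algebraMap A K)
    refine isSeparable_of_root (H92.Tilt.adj M {(z₀ : Ω)}) (h := g.map f) (fun n => ?_) ?_ ?_
    · rw [coeff_map]; exact hAle _
    · have h5 : (g.map f).eval t = K.val (aeval (⟨t, htK⟩ : K) g) := by
        rw [eval_map, aeval_def]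
        exact (hom_eval₂ g (algebraMap A K) (K.val : K →+* Ω) (⟨t, htK⟩ : K)).symm
      rw [h5, h2, map_zero]
    · have h5 : (derivative (g.map f)).eval t = K.val (aeval (⟨t, htK⟩ : K) (derivative g)) := by
        rw [derivative_map, eval_map, aeval_def]
        exact (hom_eval₂ (derivative g) (algebraMap A K) (K.val : K →+* Ω) (⟨t, htK⟩ : K)).symm
      rw [h5]
      exact fun h6 => h3 ((map_eq_zero_iff K.val K.val.injective).1 h6)

end Pool.Agent.H58.Tilt
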