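import Pool.Agent.H92.Tilt.D4a
import Pool.Agent.H92.Tilt.B6
import Pool.Agent.H58.Tilt.Exch

/-! Auxiliary results for the rank one descent (module D4 of MP_db217e_lc). -/

set_option autoImplicit false

open Polynomial Finset

namespace Pool.Agent.H58.Tilt

open H92.Tilt (SRoot HCl PCl ResEq ValEq W Tr1 RAC Arch acl WAut)

variable {Ω : Type*} [Field Ω] (O : ValuationSubring Ω)

/-- values of polynomials with small coefficients -/
theorem eval_small {f : Polynomial Ω} (hf : ∀ i, O.valuation (f.coeff i) < 1) {x : Ω}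
    (hx : O.valuation x ≤ 1) : O.valuation (f.eval x) < 1 := by
  rw [eval_eq_sum_range]
  refine O.valuation.map_sum_lt one_ne_zero fun i _ => ?_
  rw [map_mul, map_pow]
  exact mul_lt_one_of_nonneg_of_lt_one_left zero_le (hf i) (pow_le_one₀ zero_le hx)

/-- approximate a monic polynomial over `B' ∩ O` by one over `B ∩ O` -/
theorem exists_approx_poly {B B' : Subfield Ω} (hres : ResEq O B B') {g : Polynomial Ω}
    (hm : g.Monic) (hL : ∀ i, g.coeff i ∈ B') (hO : ∀ i, g.coeff i ∈ O) :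
    ∃ q : Polynomial Ω, q.Monic ∧ (∀ i, q.coeff i ∈ B) ∧ (∀ i, q.coeff i ∈ O) ∧
      ∀ i, O.valuation ((g - q).coeff i) < 1 := by
  choose b hb1 hb2 using fun i => hres (g.coeff i) (hL i) (hO i)
  have hbO : ∀ i, b i ∈ O := by
    intro i
    rw [← O.valuation_le_one_iff]
    have e : b i = g.coeff i - (g.coeff i - b i) := by ring
    rw [e]
    exact O.valuation.map_sub_le ((O.valuation_le_one_iff _).2 (hO i)) (hb2 i).le
  set n := g.natDegree with hn
  set r : Polynomial Ω := ∑ i ∈ range n, C (b i) * X ^ i with hr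
  have hrc : ∀ i, r.coeff i = if i < n then b i else 0 := by
    intro i
    rw [hr, finsetSum_coeff]
    simp only [coeff_C_mul_X_pow]
    rw [Finset.sum_ite_eq]
    simp
  have hdeg : r.degree < (n : WithBot ℕ) := by
    rw [degree_lt_iff_coeff_zero]
    intro m hm
    rw [hrc, if_neg (by lia)]
  refine ⟨X ^ n + r, monic_X_pow_add hdeg, fun i => ?_, fun i => ?_, fun i => ?_⟩
  · rw [coeff_add, coeff_X_pow, hrc]
    exact B.add_mem (by split_ifs; exacts [B.one_mem, B.zero_mem])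
      (by split_ifs; exacts [hb1 i, B.zero_mem])
  · rw [coeff_add, coeff_X_pow, hrc]
    exact O.add_mem _ _ (by split_ifs; exacts [O.one_mem, O.zero_mem])
      (by split_ifs; exacts [hbO i, O.zero_mem])
  · rw [coeff_sub, coeff_add, coeff_X_pow, hrc]
    rcases lt_trichotomy i n with h | h | h
    · rw [if_neg (by lia), if_pos h, zero_add]; exact hb2 i
    · rw [if_pos h, if_neg (by lia), add_zero, h]
      have h1 : g.coeff n = 1 := hm
      rw [h1, sub_self, map_zero]; exact one_pos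
    · rw [if_neg (by lia), if_neg (by lia), coeff_eq_zero_of_natDegree_lt h]
      simp

variable [IsAlgClosed Ω] (p : ℕ) [Fact p.Prime] [CharP Ω p]

include p in
/-- minimal polynomials of integral elements over an h-closed field are integral -/
theorem minpoly_coeff_memO {L : Subfield Ω} (hL : HCl O L) {x : Ω} (hx : IsAlgebraic L x)
    (hxO : x ∈ O) (i : ℕ) : (((minpoly L x).coeff i : L) : Ω) ∈ O := by
  set g := (minpoly L x).map (algebraMap L Ω) with hg
  have hm : g.Monic := (minpoly.monic hx.isIntegral).map _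
  have h1 : g ∈ lifts O.subtype := by
    refine (IsAlgClosed.splits g).mem_lift_of_roots_mem_range hm O.subtype fun r hr => ?_
    have h2 : aeval r (minpoly L x) = 0 := by
      rw [← eval_map_algebraMap]
      exact (mem_roots hm.ne_zero).1 hr
    have h3 : minpoly L x = minpoly L r :=
      minpoly.eq_of_irreducible_of_monic (minpoly.irreducible hx.isIntegral) h2
        (minpoly.monic hx.isIntegral)
    have h4 := H92.Tilt.val_eq_of_conj p O hL hx h3
    have h5 : r ∈ O := by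
      rw [← O.valuation_le_one_iff, ← h4, O.valuation_le_one_iff]; exact hxO
    exact ⟨⟨r, h5⟩, rfl⟩
  rw [lifts_iff_coeff_lifts] at h1
  obtain ⟨y, hy⟩ := h1 i
  rw [hg, coeff_map] at hy
  have : (((minpoly L x).coeff i : L) : Ω) = y := hy.symm
  rw [this]; exact y.2

/-- `Ω` is immediate over `acl B` -/
theorem imm_acl {B B' : Subfield Ω} (hW' : W p O B') (hres : ResEq O B B') (hval : ValEq O B B')
    (hΩ : Algebra.IsAlgebraic B' Ω) : Imm O.valuation (acl B) := by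
  intro x hx
  have hxalg : IsAlgebraic B' x := hΩ.isAlgebraic x
  obtain ⟨b', hb', hxb'⟩ := H92.Tilt.valEq_cl p O hW'.pcl hW'.hcl x (hW'.alg x hxalg) hx
  have hvx : 0 < O.valuation x := zero_lt_iff.2 ((O.valuation.ne_zero_iff).2 hx)
  have hb'0 : b' ≠ 0 := (O.valuation.ne_zero_iff).1 (by rw [← hxb']; exact hvx.ne')
  obtain ⟨b, hb, hbb'⟩ := hval b' hb' hb'0
  rw [hbb'] at hxb'
  have hb0 : b ≠ 0 := (O.valuation.ne_zero_iff).1 (by rw [← hxb']; exact hvx.ne')
  set y := x / b with hy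
  have hvy : O.valuation y = 1 := by rw [hy, map_div₀, ← hxb', div_self hvx.ne']
  have hyO : y ∈ O := (O.valuation_le_one_iff _).1 hvy.le
  have hyalg : IsAlgebraic B' y := hΩ.isAlgebraic y
  set g := (minpoly B' y).map (algebraMap B' Ω) with hg
  have hgm : g.Monic := (minpoly.monic hyalg.isIntegral).map _
  have hgc : ∀ i, g.coeff i = ((minpoly B' y).coeff i : Ω) := fun i => by rw [hg, coeff_map]; rfl
  obtain ⟨q, hqm, hqB, hqO, hq⟩ := exists_approx_poly O hres hgm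
    (fun i => by rw [hgc]; exact ((minpoly B' y).coeff i).2)
    (fun i => by rw [hgc]; exact minpoly_coeff_memO O p hW'.hcl hyalg hyO i)
  have hgy : g.eval y = 0 := by rw [hg, eval_map_algebraMap, minpoly.aeval]
  have hqy : O.valuation (q.eval y) < 1 := by
    have h1 := eval_small O hq hvy.le
    rw [eval_sub, hgy, zero_sub, O.valuation.map_neg] at h1
    exact h1
  obtain ⟨a, ha1, ha2, ha3⟩ := H92.Tilt.exists_root_near O hqm hqO hyO hqy
  have haM : a ∈ acl B := (H92.Tilt.mem_acl B a).2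
    ((H92.Tilt.isAlgebraic_iff B a).2 ⟨q, hqm.ne_zero, hqB, ha1⟩)
  refine ⟨a * b, (acl B).mul_mem haM (H92.Tilt.le_acl B hb), ?_⟩
  have e : x - a * b = (y - a) * b := by rw [hy]; field_simp
  rw [e, map_mul, ← hxb', O.valuation.map_sub_swap]
  exact mul_lt_of_lt_one_left hvx ha3

section Auto

omit [IsAlgClosed Ω] in
theorem map_eval_coeff {L L' : Subfield Ω} (τ : Ω ≃+* Ω) (hτ : ∀ x ∈ L, τ x ∈ L')
    {f : Polynomial Ω} (hf : ∀ i, f.coeff i ∈ L) (i : ℕ) :
    (f.map (τ : Ω →+* Ω)).coeff i ∈ L' := by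
  rw [coeff_map]; exact hτ _ (hf i)

omit [IsAlgClosed Ω] in
theorem scl_comap {F : Subfield Ω} (hF : H92.Tilt.SCl O F) {τ : Ω ≃+* Ω}
    (hτ : ∀ x, O.valuation (τ x) = O.valuation x) :
    H92.Tilt.SCl O (F.comap (τ : Ω →+* Ω)) := by
  intro c hc
  obtain ⟨f, hm, hL, hO, h0, hd⟩ := hc
  show τ c ∈ F
  have hev : ∀ g : Polynomial Ω, (g.map (τ : Ω →+* Ω)).eval (τ c) = τ (g.eval c) := by
    intro g
    rw [eval_map]
    exact (hom_eval₂ g (RingHom.id Ω) (τ : Ω →+* Ω) c).symm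
  refine hF _ ⟨f.map (τ : Ω →+* Ω), hm.map _, fun i => ?_, fun i => ?_, ?_, ?_⟩
  · rw [coeff_map]; exact hL i
  · rw [coeff_map, ← O.valuation_le_one_iff]
    show O.valuation (τ (f.coeff i)) ≤ 1
    rw [hτ, O.valuation_le_one_iff]; exact hO i
  · rw [hev, h0, map_zero]
  · rw [derivative_map, hev, hτ, hd]

omit [IsAlgClosed Ω] in
theorem map_mem_HC {L L' : Subfield Ω} {τ : Ω ≃+* Ω}
    (hτ : ∀ x, O.valuation (τ x) = O.valuation x) (h : ∀ x ∈ L, τ x ∈ L') {x : Ω}
    (hx : x ∈ H92.Tilt.HC O L) : τ x ∈ H92.Tilt.HC O L' := by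
  have h1 : H92.Tilt.HC O L ≤ (H92.Tilt.HC O L').comap (τ : Ω →+* Ω) :=
    H92.Tilt.HC_min (fun y hy => H92.Tilt.le_HC L' (h y hy)) (scl_comap O (H92.Tilt.HC_scl L') hτ)
  exact h1 hx

omit [IsAlgClosed Ω] in
theorem map_mem_adj {L L' : Subfield Ω} {S S' : Set Ω} {τ : Ω ≃+* Ω} (h : ∀ x ∈ L, τ x ∈ L')
    (hS : ∀ x ∈ S, τ x ∈ H92.Tilt.adj L' S') {x : Ω} (hx : x ∈ H92.Tilt.adj L S) :
    τ x ∈ H92.Tilt.adj L' S' := by
  have h1 : H92.Tilt.adj L S ≤ (H92.Tilt.adj L' S').comap (τ : Ω →+* Ω) :=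
    H92.Tilt.adj_le (fun y hy => H92.Tilt.le_adj L' S' (h y hy)) (fun y hy => hS y hy)
  exact h1 hx

omit [IsAlgClosed Ω] in
theorem map_mem_acl {B : Subfield Ω} {τ : Ω ≃+* Ω} (h : ∀ x ∈ B, τ x = x) {x : Ω}
    (hx : x ∈ acl B) : τ x ∈ acl B := by
  rw [H92.Tilt.mem_acl, H92.Tilt.isAlgebraic_iff] at hx ⊢
  obtain ⟨f, hf0, hfB, hfx⟩ := hx
  refine ⟨f, hf0, hfB, ?_⟩
  have h1 : f.eval (τ x) = τ (f.eval x) := by
    rw [eval_eq_sum_range, eval_eq_sum_range, map_sum]
    refine sum_congr rfl fun i _ => ?_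
    rw [map_mul, map_pow, h _ (hfB i)]
  rw [h1, hfx, map_zero]

omit [IsAlgClosed Ω] in
/-- the orbit of an algebraic element is finite -/
theorem exists_iterate {L : Subfield Ω} {τ : Ω ≃+* Ω} (h : ∀ x ∈ L, τ x = x) {z : Ω}
    (hz : IsAlgebraic L z) : ∃ n : ℕ, 0 < n ∧ τ^[n] z = z := by
  classical
  rw [H92.Tilt.isAlgebraic_iff] at hz
  obtain ⟨f, hf0, hfL, hfz⟩ := hz
  have h1 : ∀ y, f.eval (τ y) = τ (f.eval y) := by
    intro y
    rw [eval_eq_sum_range, eval_eq_sum_range, map_sum]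
    refine sum_congr rfl fun i _ => ?_
    rw [map_mul, map_pow, h _ (hfL i)]
  have h2 : ∀ n : ℕ, τ^[n] z ∈ f.roots.toFinset := by
    intro n
    rw [Multiset.mem_toFinset, mem_roots hf0, IsRoot.def]
    induction n with
    | zero => exact hfz
    | succ n ih => rw [Function.iterate_succ_apply', h1, ih, map_zero]
  obtain ⟨i, j, hij, he⟩ := Finite.exists_ne_map_eq_of_infinite
    (fun n : ℕ => (⟨τ^[n] z, h2 n⟩ : f.roots.toFinset))
  have he' : τ^[i] z = τ^[j] z := congrArg Subtype.val he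
  have key : ∀ i j : ℕ, i < j → τ^[i] z = τ^[j] z → ∃ n : ℕ, 0 < n ∧ τ^[n] z = z := by
    intro i j hij he
    refine ⟨j - i, by lia, ?_⟩
    have h3 : τ^[i] (τ^[j - i] z) = τ^[i] z := by
      rw [← Function.iterate_add_apply, he]; congr 1; lia
    exact (τ.injective.iterate i) h3
  rcases lt_or_gt_of_ne hij with h3 | h3
  · exact key i j h3 he'
  · exact key j i h3 he'.symm

omit [IsAlgClosed Ω] in
theorem val_beta_one {M : Subfield Ω} {z₁ β : Ω} {τ : Ω ≃+* Ω}
    (hτv : ∀ x, O.valuation (τ x) = O.valuation x) (hτM : ∀ x ∈ M, τ x ∈ M)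
    (hβ : ∀ σ : Ω ≃+* Ω, WAut O M σ → σ z₁ ≠ z₁ →
      O.valuation (σ (τ z₁) - τ z₁ - β * (σ z₁ - z₁)) < O.valuation (β * (σ z₁ - z₁)))
    {σ₀ : Ω ≃+* Ω} (hσ₀ : WAut O M σ₀) (h0 : σ₀ z₁ ≠ z₁) {n : ℕ} (hn : 0 < n)
    (hτn : τ^[n] z₁ = z₁) : O.valuation β = 1 := by
  have hτv' : ∀ x, O.valuation (τ.symm x) = O.valuation x := fun x => by
    rw [← hτv (τ.symm x), RingEquiv.apply_symm_apply]
  let c : (Ω ≃+* Ω) → (Ω ≃+* Ω) := fun σ => (τ.trans σ).trans τ.symm
  have hc : ∀ σ x, c σ x = τ.symm (σ (τ x)) := fun _ _ => rfl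
  have hcW : ∀ σ, WAut O M σ → WAut O M (c σ) := by
    intro σ hσ
    refine ⟨fun x hx => ?_, fun x => ?_⟩
    · rw [hc, hσ.fix _ (hτM x hx), RingEquiv.symm_apply_apply]
    · rw [hc, hτv', hσ.val, hτv]
  have hcl : ∀ σ, WAut O M σ → σ z₁ ≠ z₁ →
      O.valuation (c σ z₁ - z₁) = O.valuation β * O.valuation (σ z₁ - z₁) := by
    intro σ hσ hne
    have h1 : c σ z₁ - z₁ = τ.symm (σ (τ z₁) - τ z₁) := by
      rw [map_sub, RingEquiv.symm_apply_apply, hc]
    have h2 : σ (τ z₁) - τ z₁ = β * (σ z₁ - z₁) + (σ (τ z₁) - τ z₁ - β * (σ z₁ - z₁)) := by ring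
    rw [h1, hτv', h2, O.valuation.map_add_eq_of_lt_left (hβ σ hσ hne), map_mul]
  have hβ0 : β ≠ 0 := by
    intro h
    have h1 := hβ σ₀ hσ₀ h0
    rw [h, zero_mul, map_zero] at h1
    exact absurd h1 (not_lt.2 zero_le)
  have hvβ : 0 < O.valuation β := zero_lt_iff.2 ((O.valuation.ne_zero_iff).2 hβ0)
  have hl0 : 0 < O.valuation (σ₀ z₁ - z₁) :=
    zero_lt_iff.2 ((O.valuation.ne_zero_iff).2 (sub_ne_zero.2 h0))
  have hit : ∀ k : ℕ, WAut O M (c^[k] σ₀) ∧
      O.valuation ((c^[k] σ₀) z₁ - z₁) = O.valuation β ^ k * O.valuation (σ₀ z₁ - z₁) := by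
    intro k
    induction k with
    | zero => exact ⟨hσ₀, by simp⟩
    | succ k ih =>
      rw [Function.iterate_succ_apply']
      refine ⟨hcW _ ih.1, ?_⟩
      have hne : (c^[k] σ₀) z₁ ≠ z₁ := by
        intro h
        have h1 := ih.2
        rw [h, sub_self, map_zero] at h1
        exact (mul_pos (pow_pos hvβ k) hl0).ne h1
      rw [hcl _ ih.1 hne, ih.2, pow_succ, ← mul_assoc, mul_comm (O.valuation β)]
  have hform : ∀ k x, (c^[k] σ₀) x = τ.symm^[k] (σ₀ (τ^[k] x)) := by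
    intro k
    induction k with
    | zero => intro x; rfl
    | succ k ih =>
      intro x
      rw [Function.iterate_succ_apply', hc, ih, Function.iterate_succ_apply' (τ.symm),
        ← Function.iterate_succ_apply]
  have hsub : ∀ k x y, τ.symm^[k] x - τ.symm^[k] y = τ.symm^[k] (x - y) := by
    intro k
    induction k with
    | zero => intro x y; rfl
    | succ k ih =>
      intro x y
      rw [Function.iterate_succ_apply, Function.iterate_succ_apply, Function.iterate_succ_apply,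
        ih, map_sub]
  have hvit : ∀ k x, O.valuation (τ.symm^[k] x) = O.valuation x := by
    intro k
    induction k with
    | zero => intro x; rfl
    | succ k ih => intro x; rw [Function.iterate_succ_apply, ih, hτv']
  have hz' : τ.symm^[n] z₁ = z₁ := by
    conv_lhs => rw [← hτn]
    exact (Function.LeftInverse.iterate (fun x => τ.symm_apply_apply x) n) z₁
  have h1 := (hit n).2
  rw [hform, hτn] at h1
  have h2 : O.valuation (τ.symm^[n] (σ₀ z₁) - z₁) = O.valuation (σ₀ z₁ - z₁) := by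
    have h3 : τ.symm^[n] (σ₀ z₁) - z₁ = τ.symm^[n] (σ₀ z₁ - z₁) := by rw [← hsub, hz']
    rw [h3, hvit]
  rw [h2] at h1
  have h4 : O.valuation β ^ n = 1 := by
    have h5 : O.valuation β ^ n * O.valuation (σ₀ z₁ - z₁) = 1 * O.valuation (σ₀ z₁ - z₁) := by
      rw [one_mul, ← h1]
    exact mul_right_cancel₀ hl0.ne' h5
  exact (pow_eq_one_iff_of_nonneg zero_le hn.ne').1 h4

end Auto

section Lagrange

omit [IsAlgClosed Ω] in
theorem exists_pow_sum_ne_zero {K ι : Type*} [Field K] [DecidableEq ι] (I : Finset ι)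
    (w x : ι → K) (hx : ∀ i ∈ I, ∀ j ∈ I, x i = x j → i = j) {i₀ : ι} (hi₀ : i₀ ∈ I)
    (hw : w i₀ ≠ 0) : ∃ k : ℕ, ∑ i ∈ I, w i * x i ^ k ≠ 0 := by
  by_contra hcon
  push Not at hcon
  set l : Polynomial K := ∏ j ∈ I.erase i₀, (X - C (x j)) with hl
  have h1 : ∑ i ∈ I, w i * l.eval (x i) = 0 := by
    have h2 : ∀ i ∈ I, w i * l.eval (x i) =
        ∑ k ∈ range (l.natDegree + 1), l.coeff k * (w i * x i ^ k) := by
      intro i _
      rw [eval_eq_sum_range, mul_sum]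
      exact sum_congr rfl fun k _ => by ring
    rw [sum_congr rfl h2, sum_comm]
    refine sum_eq_zero fun k _ => ?_
    rw [← mul_sum, hcon k, mul_zero]
  have h2 : ∑ i ∈ I, w i * l.eval (x i) = w i₀ * l.eval (x i₀) := by
    refine sum_eq_single_of_mem i₀ hi₀ fun j hj hne => ?_
    have h3 : l.eval (x j) = 0 := by
      rw [hl, eval_prod]
      refine prod_eq_zero (mem_erase.2 ⟨hne, hj⟩) (by simp)
    rw [h3, mul_zero]
  rw [h2] at h1
  rcases mul_eq_zero.1 h1 with h3 | h3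
  · exact hw h3
  · rw [hl, eval_prod, prod_eq_zero_iff] at h3
    obtain ⟨j, hj, h4⟩ := h3
    rw [mem_erase] at hj
    rw [eval_sub, eval_X, eval_C, sub_eq_zero] at h4
    exact hj.1 (hx i₀ hi₀ j hj.2 h4).symm

end Lagrange

section Trace

omit [IsAlgClosed Ω] in
theorem agree_on_adj {L : Subfield Ω} {c : Ω} {σ τ : Ω ≃+* Ω} (h : ∀ x ∈ L, σ x = τ x)
    (hc : σ c = τ c) {x : Ω} (hx : x ∈ H92.Tilt.adj L {c}) : σ x = τ x := by
  have h1 : H92.Tilt.adj L {c} ≤ (σ : Ω →+* Ω).eqLocusField (τ : Ω →+* Ω) := by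
    refine H92.Tilt.adj_le (fun y hy => h y hy) ?_
    rintro y rfl
    exact hc
  exact h1 hx

include p in
theorem exists_trace (harch : Arch O) {B B' : Subfield Ω} (hW' : W p O B')
    (hres : ResEq O B B') (hBB' : B ≤ B')
    (hΩ : Algebra.IsAlgebraic B' Ω) (himm : Imm O.valuation (acl B)) {z₁ : Ω}
    (hτ1 : ∀ τ : Ω ≃+* Ω, (∀ x ∈ B', τ x = x) → τ z₁ ∈ H92.Tilt.HC O (H92.Tilt.adj (acl B) {z₁}))
    (hτ2 : ∀ τ : Ω ≃+* Ω, (∀ x ∈ B', τ x = x) → z₁ ∈ H92.Tilt.HC O (H92.Tilt.adj (acl B) {τ z₁}))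
    {σ₀ : Ω ≃+* Ω} (hσ₀ : WAut O (acl B) σ₀) (h0 : σ₀ z₁ ≠ z₁) :
    ∃ z ∈ B', ∀ σ : Ω ≃+* Ω, WAut O (acl B) σ → σ z₁ ≠ z₁ → σ z ≠ z := by
  classical
  have hτv : ∀ τ : Ω ≃+* Ω, (∀ x ∈ B', τ x = x) → ∀ x, O.valuation (τ x) = O.valuation x :=
    fun τ hτ x => H92.Tilt.val_auto p O hW'.hcl hΩ τ hτ x
  have hM : ∀ x, IsAlgebraic (acl B) x → x ∈ acl B := fun x hx =>
    H92.Tilt.acl_rac B x (Subfield.mem_top x) hx
  have hMc : IsAlgClosed (acl B) := algClosed_of hM
  have hr := r1_of_arch O harch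
  have hτM : ∀ τ : Ω ≃+* Ω, (∀ x ∈ B', τ x = x) → ∀ x ∈ acl B, τ x ∈ acl B :=
    fun τ hτ x hx => map_mem_acl (fun y hy => hτ y (hBB' hy)) hx
  -- the simple root
  obtain ⟨c, hc, hz₁c⟩ := (H92.Tilt.mem_cl_iff p O hW'.pcl hW'.hcl z₁).1
    (hW'.alg z₁ (hΩ.isAlgebraic z₁))
  have hcO : c ∈ O := hc.memO
  obtain ⟨f, hfm, hfB', hfO, hfc, hfd⟩ := hc
  obtain ⟨q, hqm, hqB, hqO, hfq⟩ := exists_approx_poly O hres hfm hfB' hfO
  have hvc : O.valuation c ≤ 1 := (O.valuation_le_one_iff _).2 hcO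
  have hqc : O.valuation (q.eval c) < 1 := by
    have h1 := eval_small O hfq hvc
    rw [eval_sub, hfc, zero_sub, O.valuation.map_neg] at h1
    exact h1
  obtain ⟨b, hqb, hbO, hbc⟩ := H92.Tilt.exists_root_near O hqm hqO hcO hqc
  have hvb : O.valuation b ≤ 1 := (O.valuation_le_one_iff _).2 hbO
  have hbM : b ∈ acl B := (H92.Tilt.mem_acl B b).2
    ((H92.Tilt.isAlgebraic_iff B b).2 ⟨q, hqm.ne_zero, hqB, hqb⟩)
  have hqd : O.valuation (q.derivative.eval b) = 1 := by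
    have h1 : O.valuation (f.derivative.eval b - f.derivative.eval c) < 1 :=
      (H92.Tilt.eval_sub_val_le O (H92.Tilt.derivative_coeff_memO O hfO) hbO hcO).trans_lt hbc
    have h2 : O.valuation ((f - q).derivative.eval b) < 1 := by
      refine eval_small O (fun i => ?_) hvb
      rw [coeff_derivative, map_mul]
      have h3 := v_nat_le O.valuation (i + 1)
      rw [Nat.cast_succ] at h3
      exact (mul_le_of_le_one_right' h3).trans_lt (hfq (i + 1))
    have e : q.derivative.eval b = f.derivative.eval c +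
        ((f.derivative.eval b - f.derivative.eval c) - (f - q).derivative.eval b) := by
      rw [derivative_sub, eval_sub]; ring
    rw [e, O.valuation.map_add_eq_of_lt_left, hfd]
    rw [hfd]
    exact O.valuation.map_sub_lt h1 h2
  have hqd0 : q.derivative.eval b ≠ 0 :=
    (O.valuation.ne_zero_iff).1 (by rw [hqd]; exact one_ne_zero)
  -- `b` lies in `B'(c)`
  have hbc' : b ∈ H92.Tilt.adj B' {c} := by
    have halg : Algebra.IsAlgebraic (H92.Tilt.adj B' {c}) Ω :=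
      ⟨fun x => H92.Tilt.isAlgebraic_mono (H92.Tilt.le_adj _ _) (hΩ.isAlgebraic x)⟩
    refine H92.Tilt.mem_of_fixed_sep halg (isSeparable_of_root _ (h := q) (fun n =>
      H92.Tilt.le_adj _ _ (hBB' (hqB n))) hqb hqd0) fun σ hσ => ?_
    have hσB' : ∀ x ∈ B', σ x = x := fun x hx => hσ x (H92.Tilt.le_adj _ _ hx)
    refine H92.Tilt.unique_root O hqO hbO hqb hqd ?_ ?_
    · have e1 : q.eval (σ b) = σ (q.eval b) := by
        rw [eval_eq_sum_range, eval_eq_sum_range, map_sum]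
        refine sum_congr rfl fun i _ => ?_
        rw [map_mul, map_pow, hσB' _ (hBB' (hqB i))]
      rw [e1, hqb, map_zero]
    · have e2 : σ b - b = σ (b - c) - (b - c) := by
        rw [map_sub, hσ c (H92.Tilt.subset_adj B' {c} rfl)]; ring
      rw [e2]
      exact O.valuation.map_sub_lt (by rw [hτv σ hσB']; exact hbc) hbc
  -- the conjugates of `c`
  set I : Finset Ω := f.roots.toFinset.filter
    (fun c' => ∃ τ : Ω ≃+* Ω, (∀ x ∈ B', τ x = x) ∧ τ c = c') with hI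
  have hroot : ∀ τ : Ω ≃+* Ω, (∀ x ∈ B', τ x = x) → ∀ y, f.eval (τ y) = τ (f.eval y) := by
    intro τ hτ y
    rw [eval_eq_sum_range, eval_eq_sum_range, map_sum]
    refine sum_congr rfl fun i _ => ?_
    rw [map_mul, map_pow, hτ _ (hfB' i)]
  have hmemI : ∀ c', c' ∈ I ↔ ∃ τ : Ω ≃+* Ω, (∀ x ∈ B', τ x = x) ∧ τ c = c' := by
    intro c'
    rw [hI, mem_filter]
    refine ⟨fun h => h.2, fun h => ⟨?_, h⟩⟩
    obtain ⟨τ, hτ, rfl⟩ := h
    rw [Multiset.mem_toFinset, mem_roots hfm.ne_zero, IsRoot.def, hroot τ hτ, hfc, map_zero]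
  have hTex : ∀ c' : Ω, ∃ τ : Ω ≃+* Ω, c' ∈ I → (∀ x ∈ B', τ x = x) ∧ τ c = c' := by
    intro c'
    by_cases h : c' ∈ I
    · obtain ⟨τ, hτ⟩ := (hmemI c').1 h
      exact ⟨τ, fun _ => hτ⟩
    · exact ⟨RingEquiv.refl Ω, fun h' => absurd h' h⟩
  choose T hT using hTex
  -- incongruence of conjugates
  have hinc : ∀ c' ∈ I, ∀ c'' ∈ I, O.valuation (c' - c'') < 1 → c' = c'' := by
    intro c' hc' c'' hc'' h
    obtain ⟨τ, hτ, rfl⟩ := (hmemI c'').1 hc''
    obtain ⟨τ', hτ', rfl⟩ := (hmemI c').1 hc'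
    refine H92.Tilt.unique_root O hfO ?_ ?_ ?_ ?_ h
    · rw [← O.valuation_le_one_iff, hτv τ hτ]; exact hvc
    · rw [hroot τ hτ, hfc, map_zero]
    · have e1 : f.derivative.eval (τ c) = τ (f.derivative.eval c) := by
        rw [eval_eq_sum_range, eval_eq_sum_range, map_sum]
        refine sum_congr rfl fun i _ => ?_
        rw [map_mul, map_pow, hτ _ (H92.Tilt.derivative_coeff_mem hfB' i)]
      rw [e1, hτv τ hτ, hfd]
    · rw [hroot τ' hτ', hfc, map_zero]
  -- the coefficients `β`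
  have hβex : ∀ c' : Ω, ∃ β : Ω, c' ∈ I → O.valuation β = 1 ∧
      ∀ σ : Ω ≃+* Ω, WAut O (acl B) σ → σ z₁ ≠ z₁ →
        O.valuation (σ (T c' z₁) - T c' z₁ - β * (σ z₁ - z₁)) < O.valuation (σ z₁ - z₁) := by
    intro c'
    by_cases h : c' ∈ I
    · obtain ⟨hτ, -⟩ := hT c' h
      have h1 : InC O.valuation (acl B) z₁ (T c' z₁) := by
        have h2 := hτ1 _ hτ
        rw [← hc_eq_92, ← adj_eq_92] at h2
        exact HC_le_closI hr himm z₁ h2
      have h1' : InC O.valuation (acl B) (T c' z₁) z₁ := by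
        have h2 := hτ2 _ hτ
        rw [← hc_eq_92, ← adj_eq_92] at h2
        exact HC_le_closI hr himm _ h2
      obtain ⟨β, -, -, h3⟩ := lin_core O himm h1 h1' σ₀ hσ₀.fix hσ₀.val h0
      obtain ⟨n, hn, hτn⟩ := exists_iterate hτ (hΩ.isAlgebraic z₁)
      have hβ1 : O.valuation β = 1 := val_beta_one O (hτv _ hτ) (hτM _ hτ)
        (fun σ hσ hne => h3 σ hσ.fix hσ.val hne) hσ₀ h0 hn hτn
      refine ⟨β, fun _ => ⟨hβ1, fun σ hσ hne => ?_⟩⟩
      have h4 := h3 σ hσ.fix hσ.val hne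
      rwa [map_mul, hβ1, one_mul] at h4
    · exact ⟨0, fun h' => absurd h' h⟩
  choose β hβ using hβex
  have hTb : ∀ c', c' ∈ I → T c' b ∈ O := by
    intro c' hc'
    rw [← O.valuation_le_one_iff, hτv _ (hT c' hc').1]; exact hvb
  have hβO : ∀ c', c' ∈ I → β c' ∈ O := by
    intro c' hc'
    rw [← O.valuation_le_one_iff, (hβ c' hc').1]
  -- residues
  set w : Ω → IsLocalRing.ResidueField O := fun c' =>
    if h : c' ∈ I then IsLocalRing.residue O ⟨β c', hβO c' h⟩ else 0 with hw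
  set x : Ω → IsLocalRing.ResidueField O := fun c' =>
    if h : c' ∈ I then IsLocalRing.residue O ⟨T c' b, hTb c' h⟩ else 0 with hx
  have hwI : ∀ c' (h : c' ∈ I), w c' = IsLocalRing.residue O ⟨β c', hβO c' h⟩ :=
    fun c' h => dif_pos h
  have hxI : ∀ c' (h : c' ∈ I), x c' = IsLocalRing.residue O ⟨T c' b, hTb c' h⟩ :=
    fun c' h => dif_pos h
  have hcI : c ∈ I := (hmemI c).2 ⟨RingEquiv.refl Ω, fun _ _ => rfl, rfl⟩
  obtain ⟨k, hk⟩ := exists_pow_sum_ne_zero I w x (by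
    intro c' hc' c'' hc'' he
    rw [hxI c' hc', hxI c'' hc'', ← sub_eq_zero, ← map_sub, residue_eq_zero_iff] at he
    have he' : O.valuation (T c' b - T c'' b) < 1 := he
    apply hinc c' hc' c'' hc''
    have h1 : O.valuation (T c' b - c') < 1 := by
      have e : T c' b - c' = T c' (b - c) := by rw [map_sub, (hT c' hc').2]
      rw [e, hτv _ (hT c' hc').1]; exact hbc
    have h2 : O.valuation (T c'' b - c'') < 1 := by
      have e : T c'' b - c'' = T c'' (b - c) := by rw [map_sub, (hT c'' hc'').2]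
      rw [e, hτv _ (hT c'' hc'').1]; exact hbc
    have e : c' - c'' = (T c' b - T c'' b) - ((T c' b - c') - (T c'' b - c'')) := by ring
    rw [e]
    exact O.valuation.map_sub_lt he' (O.valuation.map_sub_lt h1 h2)) hcI (by
    rw [hwI c hcI, Ne, residue_eq_zero_iff, not_lt]
    exact (hβ c hcI).1.ge)
  have hunit : O.valuation (∑ c' ∈ I, β c' * T c' b ^ k) = 1 := by
    have hsumO : ∀ c' ∈ I, β c' * T c' b ^ k ∈ O := fun c' hc' =>
      O.mul_mem _ _ (hβO c' hc') (pow_mem (hTb c' hc') k)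
    have hle : O.valuation (∑ c' ∈ I, β c' * T c' b ^ k) ≤ 1 :=
      O.valuation.map_sum_le fun c' hc' => (O.valuation_le_one_iff _).2 (hsumO c' hc')
    have hmem : (∑ c' ∈ I, β c' * T c' b ^ k) ∈ O := (O.valuation_le_one_iff _).1 hle
    refine le_antisymm hle (not_lt.1 fun hlt => hk ?_)
    have h1 : IsLocalRing.residue O ⟨∑ c' ∈ I, β c' * T c' b ^ k, hmem⟩ = 0 :=
      (residue_eq_zero_iff O _).2 hlt
    have h2 : (⟨∑ c' ∈ I, β c' * T c' b ^ k, hmem⟩ : O) =
        ∑ c' ∈ I.attach, (⟨β c', hβO c' c'.2⟩ : O) * (⟨T c' b, hTb c' c'.2⟩ : O) ^ k := by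
      apply Subtype.ext
      show (∑ c' ∈ I, β c' * T c' b ^ k) = _
      rw [← Finset.sum_attach]
      push_cast
      rfl
    rw [h2, map_sum] at h1
    rw [← Finset.sum_attach, ← h1]
    refine sum_congr rfl fun c' _ => ?_
    rw [map_mul, map_pow, hwI c' c'.2, hxI c' c'.2]
  -- the trace
  set y : Ω := b ^ k * z₁ with hy
  have hyc : y ∈ H92.Tilt.adj B' {c} := Subfield.mul_mem _ (Subfield.pow_mem _ hbc' k) hz₁c
  refine ⟨∑ c' ∈ I, T c' y, ?_, fun σ hσ hne heq => ?_⟩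
  · refine H92.Tilt.mem_of_fixed p hW'.pcl hΩ fun σ hσ => ?_
    rw [map_sum]
    have hσI : ∀ c' ∈ I, σ c' ∈ I := by
      intro c' hc'
      obtain ⟨τ, hτ, rfl⟩ := (hmemI c').1 hc'
      exact (hmemI _).2 ⟨τ.trans σ, fun z hz => by
        show σ (τ z) = z
        rw [hτ z hz, hσ z hz], rfl⟩
    have hσI' : ∀ c' ∈ I, σ.symm c' ∈ I := by
      intro c' hc'
      obtain ⟨τ, hτ, rfl⟩ := (hmemI c').1 hc'
      exact (hmemI _).2 ⟨τ.trans σ.symm, fun z hz => by
        show σ.symm (τ z) = z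
        rw [hτ z hz, RingEquiv.symm_apply_eq, hσ z hz], rfl⟩
    refine Finset.sum_bij' (fun c' _ => σ c') (fun c' _ => σ.symm c') hσI hσI'
      (fun c' _ => σ.symm_apply_apply c') (fun c' _ => σ.apply_symm_apply c') fun c' hc' => ?_
    have h1 := hT c' hc'
    have h2 := hT (σ c') (hσI c' hc')
    refine agree_on_adj (L := B') (c := c) (σ := (T c').trans σ) (τ := T (σ c')) (fun z hz => ?_) ?_
      hyc
    · show σ (T c' z) = T (σ c') z
      rw [h1.1 z hz, h2.1 z hz, hσ z hz]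
    · show σ (T c' c) = T (σ c') c
      rw [h1.2, h2.2]
  · -- the difference is nonzero
    set d := σ z₁ - z₁ with hd
    have hd0 : d ≠ 0 := sub_ne_zero.2 hne
    have hvd : 0 < O.valuation d := zero_lt_iff.2 ((O.valuation.ne_zero_iff).2 hd0)
    have h1 : σ (∑ c' ∈ I, T c' y) - ∑ c' ∈ I, T c' y =
        (∑ c' ∈ I, β c' * T c' b ^ k) * d +
          ∑ c' ∈ I, T c' b ^ k * (σ (T c' z₁) - T c' z₁ - β c' * d) := by
      rw [map_sum, ← sum_sub_distrib, sum_mul, ← sum_add_distrib]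
      refine sum_congr rfl fun c' hc' => ?_
      have h2 : σ (T c' b) = T c' b := hσ.fix _ (hτM _ (hT c' hc').1 b hbM)
      rw [hy, map_mul, map_pow, map_mul, map_pow, h2]
      ring
    have h2 : O.valuation (∑ c' ∈ I, T c' b ^ k * (σ (T c' z₁) - T c' z₁ - β c' * d)) <
        O.valuation d := by
      refine O.valuation.map_sum_lt hvd.ne' fun c' hc' => ?_
      rw [map_mul, map_pow]
      refine lt_of_le_of_lt ?_ ((hβ c' hc').2 σ hσ hne)
      exact mul_le_of_le_one_left'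
        (pow_le_one₀ zero_le ((O.valuation_le_one_iff _).2 (hTb c' hc')))
    rw [heq, sub_self] at h1
    have h3 : O.valuation ((∑ c' ∈ I, β c' * T c' b ^ k) * d) = O.valuation d := by
      rw [map_mul, hunit, one_mul]
    have h4 := congrArg O.valuation h1
    rw [O.valuation.map_add_eq_of_lt_left (by rw [h3]; exact h2), h3, map_zero] at h4
    exact hvd.ne h4

end Trace

end Pool.Agent.H58.Tilt
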