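import Mathlib

/-! Conjugates over a field satisfying Hensel's lemma for simple roots near `1` have the same value
(module B1 of MP_db217e_lc). -/

set_option autoImplicit false

open Polynomial Finset

namespace Pool.Agent.H58.Tilt

variable {K A : Type*} [Field K] [Field A] [Algebra K A] [IsGalois K A]
  {Γ : Type*} [LinearOrderedCommGroupWithZero Γ] (v : Valuation A Γ)

theorem mem_range_of_fixed {x : A} (h : ∀ σ : A ≃ₐ[K] A, σ x = x) :
    ∃ y : K, algebraMap K A y = x := by
  have h1 := (InfiniteGalois.mem_bot_iff_fixed (k := K) (K := A) x).2 h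
  exact IntermediateField.mem_bot.1 h1

theorem coeff_prod_le {ι : Type*} (s : Finset ι) (f : ι → Polynomial A)
    (hf : ∀ i ∈ s, ∀ n, v ((f i).coeff n) ≤ 1) (n : ℕ) : v ((∏ i ∈ s, f i).coeff n) ≤ 1 := by
  classical
  induction s using Finset.induction_on generalizing n with
  | empty =>
    rw [prod_empty, coeff_one]; split_ifs <;> simp
  | insert i s hi ih =>
    rw [prod_insert hi, coeff_mul]
    refine v.map_sum_le fun q _ => ?_
    rw [map_mul]
    exact mul_le_one' (hf i (mem_insert_self _ _) _)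
      (ih (fun j hj => hf j (mem_insert_of_mem hj)) _)

/-- conjugates of separable elements have the same value -/
theorem galois_val (H : ∀ ξ : A, v (ξ - 1) < 1 → (∃ P : Polynomial K, P.Monic ∧
      (∀ i, v (algebraMap K A (P.coeff i)) ≤ 1) ∧ aeval ξ P = 0 ∧
        v (aeval ξ (derivative P)) = 1) → ∃ y : K, algebraMap K A y = ξ)
    (x : A) (σ₁ : A ≃ₐ[K] A) : v (σ₁ x) = v x := by
  classical
  -- the conjugates of `x`
  set f := minpoly K x with hf
  have hint : IsIntegral K x := Algebra.IsIntegral.isIntegral x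
  set R : Finset A := (f.aroots A).toFinset with hR
  have hmemR : ∀ y, y ∈ R ↔ aeval y f = 0 := by
    intro y
    rw [hR, Multiset.mem_toFinset, mem_aroots]
    exact ⟨fun h => h.2, fun h => ⟨minpoly.ne_zero hint, h⟩⟩
  have hσR : ∀ σ : A ≃ₐ[K] A, ∀ y ∈ R, σ y ∈ R := by
    intro σ y hy
    rw [hmemR] at hy ⊢
    have h1 : aeval (σ y) f = σ (aeval y f) := by
      rw [← AlgEquiv.coe_toAlgHom, aeval_algHom_apply]
    rw [h1, hy, map_zero]
  have hxR : x ∈ R := (hmemR x).2 (minpoly.aeval K x)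
  obtain ⟨y₀, hy₀R, hmax⟩ := R.exists_max_image (fun y => v y) ⟨x, hxR⟩
  set J : Finset A := R.filter (fun y => v y = v y₀) with hJ
  have hy₀J : y₀ ∈ J := mem_filter.2 ⟨hy₀R, rfl⟩
  suffices hJR : J = R by
    have h1 : ∀ y ∈ R, v y = v y₀ := fun y hy => by
      rw [← hJR] at hy; exact (mem_filter.1 hy).2
    rw [h1 _ (hσR σ₁ x hxR), h1 x hxR]
  by_contra hne
  have hsub : J ⊆ R := filter_subset _ _
  obtain ⟨y₁, hy₁R, hy₁J⟩ : ∃ y₁ ∈ R, y₁ ∉ J := by
    by_contra hcon
    push Not at hcon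
    exact hne (Subset.antisymm hsub hcon)
  have hlt : ∀ y ∈ R, y ∉ J → v y < v y₀ := fun y hy hyJ =>
    lt_of_le_of_ne (hmax y hy) fun h => hyJ (mem_filter.2 ⟨hy, h⟩)
  have hpos : 0 < v y₀ := lt_of_le_of_lt zero_le (hlt y₁ hy₁R hy₁J)
  set b := J.card with hb
  set Q : Finset (Finset A) := R.powersetCard b with hQ
  have hJQ : J ∈ Q := mem_powersetCard.2 ⟨hsub, rfl⟩
  set π : Finset A → A := fun s => ∏ y ∈ s, y with hπ
  have hvπ : ∀ s, v (π s) = ∏ y ∈ s, v y := fun s => map_prod v _ _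
  have hvJ : v (π J) = v y₀ ^ b := by
    rw [hvπ, prod_congr rfl fun y hy => (mem_filter.1 hy).2, prod_const]
  have hvlt : ∀ s ∈ Q, s ≠ J → v (π s) < v (π J) := by
    intro s hs hsJ
    rw [mem_powersetCard] at hs
    obtain ⟨y, hys, hyJ⟩ : ∃ y ∈ s, y ∉ J := by
      by_contra hcon
      push Not at hcon
      exact hsJ (eq_of_subset_of_card_le hcon (by rw [hs.2]))
    rw [hvJ, hvπ, ← mul_prod_erase s _ hys]
    have h1 : ∏ z ∈ s.erase y, v z ≤ v y₀ ^ (b - 1) := by
      refine (prod_le_pow_card _ _ (v y₀) fun z hz => ?_).trans_eq ?_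
      · exact hmax z (hs.1 (mem_of_mem_erase hz))
      · rw [card_erase_of_mem hys, hs.2]
    have hb1 : 1 ≤ b := card_pos.2 ⟨y₀, hy₀J⟩
    have h2 : v y₀ ^ b = v y₀ * v y₀ ^ (b - 1) := by rw [← pow_succ']; congr 1; lia
    rw [h2]
    exact mul_lt_mul_of_lt_of_le_of_nonneg_of_pos (hlt y (hs.1 hys) hyJ) h1 zero_le
      (pow_pos hpos _)
  have hvJpos : 0 < v (π J) := by rw [hvJ]; exact pow_pos hpos _
  -- automorphisms act on `Q`
  have hcard : ∀ (σ : A ≃ₐ[K] A) (s : Finset A), (s.image σ).card = s.card := fun σ s =>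
    card_image_of_injective s σ.injective
  have hσQ : ∀ σ : A ≃ₐ[K] A, ∀ s ∈ Q, s.image σ ∈ Q := by
    intro σ s hs
    rw [mem_powersetCard] at hs ⊢
    refine ⟨fun y hy => ?_, by rw [hcard, hs.2]⟩
    obtain ⟨z, hz, rfl⟩ := mem_image.1 hy
    exact hσR σ z (hs.1 hz)
  have hσπ : ∀ (σ : A ≃ₐ[K] A) (s : Finset A), σ (π s) = π (s.image σ) := by
    intro σ s
    show σ (∏ y ∈ s, y) = ∏ y ∈ s.image σ, y
    rw [map_prod, prod_image fun a _ b _ h => σ.injective h]
  have hbij : ∀ σ : A ≃ₐ[K] A, ∀ s ∈ Q, (s.image σ).image σ.symm = s := by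
    intro σ s _
    rw [image_image]
    have : (σ.symm : A → A) ∘ σ = id := by ext y; simp
    rw [this, image_id]
  have hbij' : ∀ σ : A ≃ₐ[K] A, ∀ s ∈ Q, (s.image σ.symm).image σ = s := by
    intro σ s _
    rw [image_image]
    have : (σ : A → A) ∘ σ.symm = id := by ext y; simp
    rw [this, image_id]
  -- the element `e`
  set e : A := ∑ s ∈ Q, π s with he
  obtain ⟨e', he'⟩ : ∃ y : K, algebraMap K A y = e := by
    refine mem_range_of_fixed fun σ => ?_
    rw [he, map_sum]
    exact Finset.sum_bij' (fun s _ => s.image σ) (fun s _ => s.image σ.symm) (hσQ σ)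
      (hσQ σ.symm) (hbij σ) (hbij' σ) fun s _ => hσπ σ s
  have hesum : e = π J + ∑ s ∈ Q.erase J, π s := by rw [he, add_sum_erase _ _ hJQ]
  have hrest : v (∑ s ∈ Q.erase J, π s) < v (π J) :=
    v.map_sum_lt hvJpos.ne' fun s hs => hvlt s (mem_of_mem_erase hs) (ne_of_mem_erase hs)
  have hve : v e = v (π J) := by rw [hesum]; exact v.map_add_eq_of_lt_left hrest
  have he0 : e ≠ 0 := (v.ne_zero_iff).1 (by rw [hve]; exact hvJpos.ne')
  have hvsle : ∀ s ∈ Q, v (π s / e) ≤ 1 := by
    intro s hs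
    rw [map_div₀, hve]
    rcases eq_or_ne s J with rfl | h
    · rw [div_self hvJpos.ne']
    · exact (div_le_one₀ hvJpos).2 (hvlt s hs h).le
  -- the polynomial
  set P : Polynomial A := ∏ s ∈ Q, (X - C (π s / e)) with hP
  have hfix : ∀ σ : A ≃ₐ[K] A, P.map (σ : A →+* A) = P := by
    intro σ
    rw [hP, Polynomial.map_prod]
    refine Finset.prod_bij' (fun s _ => s.image σ) (fun s _ => s.image σ.symm) (hσQ σ)
      (hσQ σ.symm) (hbij σ) (hbij' σ) fun s _ => ?_
    have hσe : σ e = e := by rw [← he']; exact σ.commutes e'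
    rw [Polynomial.map_sub, map_X, map_C]
    congr 2
    show σ (π s / e) = _
    rw [map_div₀, hσe, hσπ]
  have hcoef : ∀ n, ∃ y : K, algebraMap K A y = P.coeff n := by
    intro n
    refine mem_range_of_fixed fun σ => ?_
    conv_rhs => rw [← hfix σ]
    rw [coeff_map]; rfl
  have hlift : P ∈ lifts (algebraMap K A) := by
    rw [lifts_iff_coeff_lifts]
    exact fun n => hcoef n
  have hPm : P.Monic := monic_prod_of_monic _ _ fun s _ => monic_X_sub_C _
  obtain ⟨g, hg, -, hgm⟩ := lifts_and_natDegree_eq_and_monic hlift hPm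
  have hPle : ∀ n, v (P.coeff n) ≤ 1 := by
    refine coeff_prod_le v Q _ fun s hs n => ?_
    rw [coeff_sub, coeff_X, coeff_C]
    refine v.map_sub_le (by split_ifs <;> simp) ?_
    split_ifs
    · exact hvsle s hs
    · simp
  set ξ := π J / e with hξ
  have hξ1 : v (ξ - 1) < 1 := by
    have h1 : ξ - 1 = -(∑ s ∈ Q.erase J, π s) / e := by
      rw [hξ, div_sub_one he0]
      congr 1
      rw [hesum]; ring
    rw [h1, map_div₀, v.map_neg, hve, div_lt_one₀ hvJpos]
    exact hrest
  have hvξ : v ξ = 1 := by rw [hξ, map_div₀, hve, div_self hvJpos.ne']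
  obtain ⟨y, hy⟩ := H ξ hξ1 ⟨g, hgm, fun i => by
      have h1 : algebraMap K A (g.coeff i) = P.coeff i := by rw [← hg, coeff_map]
      rw [h1]; exact hPle i, by
      rw [← eval_map_algebraMap, hg, hP, eval_prod]
      exact prod_eq_zero hJQ (by rw [eval_sub, eval_X, eval_C, hξ, sub_self]), by
      rw [← eval_map_algebraMap, ← derivative_map, hg, hP, derivative_prod_finset, eval_finsetSum,
        ← add_sum_erase _ _ hJQ]
      have h1 : ∀ s ∈ Q.erase J, eval ξ ((∏ t ∈ Q.erase s, (X - C (π t / e))) *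
          derivative (X - C (π s / e))) = 0 := by
        intro s hs
        rw [eval_mul, eval_prod]
        rw [prod_eq_zero (i := J) (mem_erase.2 ⟨(ne_of_mem_erase hs).symm, hJQ⟩) (by simp [hξ]),
          zero_mul]
      rw [sum_eq_zero h1, add_zero, eval_mul, eval_prod, derivative_X_sub_C, eval_one, mul_one,
        map_prod]
      refine prod_eq_one fun s hs => ?_
      rw [eval_sub, eval_X, eval_C]
      have h2 : v (π s / e) < v ξ := by
        rw [hvξ, map_div₀, hve, div_lt_one₀ hvJpos]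
        exact hvlt s (mem_of_mem_erase hs) (ne_of_mem_erase hs)
      rw [v.map_sub_eq_of_lt_left h2, hvξ]⟩
  -- so `π J` is fixed
  have hJfix : ∀ σ : A ≃ₐ[K] A, J.image σ = J := by
    intro σ
    by_contra hcon
    have h1 : σ (π J) = π J := by
      have h2 : π J = ξ * e := by rw [hξ, div_mul_cancel₀ _ he0]
      rw [h2, map_mul, ← hy, ← he', σ.commutes, σ.commutes]
    have h3 := hvlt _ (hσQ σ J hJQ) hcon
    rw [← hσπ, h1] at h3
    exact lt_irrefl _ h3
  -- transitivity
  have hy₀int : IsIntegral K y₀ := Algebra.IsIntegral.isIntegral y₀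
  have hmin : minpoly K y₀ = f :=
    (minpoly.eq_of_irreducible_of_monic (minpoly.irreducible hint) ((hmemR y₀).1 hy₀R)
      (minpoly.monic hint)).symm
  obtain ⟨σ, hσ⟩ := minpoly.exists_algEquiv_of_root (K := K) (L := A) (x := y₁) (y := y₀)
    (Algebra.IsAlgebraic.isAlgebraic y₀) (by rw [hmin]; exact (hmemR y₁).1 hy₁R)
  have h1 : y₁ ∈ J := by
    have h2 := hJfix σ.symm
    rw [← h2]
    refine mem_image.2 ⟨y₀, hy₀J, ?_⟩
    rw [← hσ, AlgEquiv.symm_apply_apply]
  exact hy₁J h1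

end Pool.Agent.H58.Tilt
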