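import Pool.Agent.H58.Tilt.D3

/-! Approximate linearity beyond the cut (module D4a of MP_db217e_lc). -/

set_option autoImplicit false

open Polynomial Finset

namespace Pool.Agent.H58.Tilt

section Comp

variable {Ω : Type*} [Field Ω] (O : ValuationSubring Ω)

/-- lift of a polynomial with coefficients in `O` -/
theorem exists_liftO {f : Polynomial Ω} (hf : ∀ n, O.valuation (f.coeff n) ≤ 1) :
    ∃ g : Polynomial O, g.map (algebraMap O Ω) = f := by
  have : f ∈ lifts (algebraMap O Ω) := by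
    rw [lifts_iff_coeff_lifts]
    intro n
    exact ⟨⟨f.coeff n, (O.valuation_le_one_iff _).1 (hf n)⟩, rfl⟩
  exact (mem_lifts _).1 this

theorem residue_eq_zero_iff (x : O) :
    IsLocalRing.residue O x = 0 ↔ O.valuation (x : Ω) < 1 := by
  rw [IsLocalRing.residue_eq_zero_iff, ← ValuationSubring.valuation_lt_one_iff]

/-- If a composition of two polynomials over `O` without constant terms, both nonzero modulo the
maximal ideal, is `ρ X + small` up to a factor then the inner one is linear modulo the maximal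
ideal. -/
theorem comp_linear {α β : Polynomial O} (hα0 : α.coeff 0 = 0) (hβ0 : β.coeff 0 = 0)
    (hα : ∃ n, O.valuation (α.coeff n : Ω) = 1) (hβ : ∃ n, O.valuation (β.coeff n : Ω) = 1)
    {S ρ : Ω} (hρ : ρ ≠ 0) (c : ℕ → Ω) (hc : ∀ n, O.valuation (c n) < 1)
    (h : ∀ n, S * ((β.comp α).coeff n : Ω) = ρ * ((if n = 1 then 1 else 0) + c n)) :
    ∀ j, 2 ≤ j → O.valuation (α.coeff j : Ω) < 1 := by
  set res := IsLocalRing.residue O with hres
  have hpos : ∀ f : Polynomial O, f.coeff 0 = 0 → (∃ n, O.valuation (f.coeff n : Ω) = 1) →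
      (f.map res).natDegree ≠ 0 := by
    intro f hf0 hf hdeg
    obtain ⟨n, hn⟩ := hf
    rw [natDegree_eq_zero] at hdeg
    obtain ⟨x, hx⟩ := hdeg
    have h1 : (f.map res).coeff n ≠ 0 := by
      rw [coeff_map]
      intro h2
      rw [residue_eq_zero_iff, hn] at h2
      exact lt_irrefl _ h2
    have h2 : (f.map res).coeff 0 = 0 := by rw [coeff_map, hf0, map_zero]
    rw [← hx] at h1 h2
    rw [coeff_C_zero] at h2
    rw [h2, C_0, coeff_zero] at h1
    exact h1 rfl
  have hα' := hpos α hα0 hα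
  have hβ' := hpos β hβ0 hβ
  have hcomp : ((β.comp α).map res).natDegree = (β.map res).natDegree * (α.map res).natDegree := by
    rw [map_comp, natDegree_comp]
  set n := ((β.comp α).map res).natDegree with hn
  have hn0 : n ≠ 0 := by rw [hcomp]; exact mul_ne_zero hβ' hα'
  have hne : (β.comp α).map res ≠ 0 := by
    intro h0; apply hn0; rw [hn, h0, natDegree_zero]
  have hun : O.valuation ((β.comp α).coeff n : Ω) = 1 := by
    have h1 : ((β.comp α).map res).coeff n ≠ 0 := by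
      rw [hn, coeff_natDegree]; exact leadingCoeff_ne_zero.2 hne
    rw [coeff_map] at h1
    have h2 : ¬ O.valuation ((β.comp α).coeff n : Ω) < 1 := fun h3 =>
      h1 ((residue_eq_zero_iff O _).2 h3)
    exact le_antisymm (O.valuation_le_one _) (not_lt.1 h2)
  have hvρ : 0 < O.valuation ρ := zero_lt_iff.2 ((O.valuation.ne_zero_iff).2 hρ)
  have hn1 : n = 1 := by
    by_contra hn1
    have h1 := congrArg O.valuation (h n)
    rw [map_mul, hun, mul_one, if_neg hn1, zero_add, map_mul] at h1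
    have h2 : O.valuation S < O.valuation ρ := by
      rw [h1]; exact mul_lt_of_lt_one_right hvρ (hc n)
    have h3 := congrArg O.valuation (h 1)
    have h4 : O.valuation (1 + c 1) = 1 := by
      rw [O.valuation.map_add_eq_of_lt_left (by rw [map_one]; exact hc 1), map_one]
    rw [map_mul, if_pos rfl, map_mul, h4, mul_one] at h3
    have h5 : O.valuation S * O.valuation ((β.comp α).coeff 1 : Ω) ≤ O.valuation S :=
      mul_le_of_le_one_right' (O.valuation_le_one _)
    rw [h3] at h5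
    exact absurd h2 (not_lt.2 h5)
  have hα1 : (α.map res).natDegree = 1 := by
    have h1 : (β.map res).natDegree * (α.map res).natDegree = 1 := by rw [← hcomp]; exact hn1
    exact Nat.dvd_one.1 ⟨_, by rw [mul_comm]; exact h1.symm⟩
  intro j hj
  have h1 : (α.map res).coeff j = 0 := coeff_eq_zero_of_natDegree_lt (by lia)
  rw [coeff_map] at h1
  exact (residue_eq_zero_iff O _).1 h1

end Comp

section LinQ

variable {Ω : Type*} [Field Ω]

theorem exists_bound {Γ : Type*} [LinearOrderedCommGroupWithZero Γ] (v : Valuation Ω Γ)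
    (f : ℕ → Ω) (n : ℕ) : ∃ T : Ω, 1 ≤ v T ∧ ∀ m, m < n → v (f m) ≤ v T := by
  induction n with
  | zero => exact ⟨1, by simp, by simp⟩
  | succ n ih =>
    obtain ⟨T, h1, h2⟩ := ih
    rcases le_total (v (f n)) (v T) with h | h
    · refine ⟨T, h1, fun m hm => ?_⟩
      rcases Nat.lt_succ_iff_lt_or_eq.1 hm with h3 | rfl
      · exact h2 m h3
      · exact h
    · refine ⟨f n, h1.trans h, fun m hm => ?_⟩
      rcases Nat.lt_succ_iff_lt_or_eq.1 hm with h3 | rfl
      · exact (h2 m h3).trans h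
      · exact le_rfl

theorem Near_aeval_add {M : Type*} [Field M] [Algebra M Ω] (P : Polynomial M) (z d : Ω) :
    aeval (z + d) P - aeval z P = ∑ j ∈ range P.natDegree, tc P z (j + 1) * d ^ (j + 1) := by
  rw [aeval_add, sum_range_succ', pow_zero, mul_one, tc_zero]
  ring

theorem tc_of_lt {M : Type*} [Field M] [Algebra M Ω] (P : Polynomial M) (z : Ω) {j : ℕ}
    (hj : P.natDegree < j) : tc P z j = 0 := by
  unfold tc
  apply coeff_eq_zero_of_natDegree_lt
  rwa [natDegree_taylor, natDegree_map]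

variable (O : ValuationSubring Ω) {M : Subfield Ω} [IsAlgClosed M]

theorem linQ {z₁ u : Ω} (hu : InC O.valuation M z₁ u) (hz : InC O.valuation M u z₁) {ρ : Ω}
    (hρ : ρ ≠ 0) (hb : Beyond O.valuation M z₁ (O.valuation ρ)) (ε₀ : Ω) (hε₀ : ε₀ ≠ 0) :
    ∃ Q : Polynomial M, O.valuation (u - aeval z₁ Q) < O.valuation (tc Q z₁ 1 * ρ) ∧
      (∀ j, 2 ≤ j → O.valuation (tc Q z₁ j * ρ ^ j) < O.valuation (tc Q z₁ 1 * ρ)) ∧
      O.valuation (u - aeval z₁ Q) < O.valuation ε₀ := by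
  set v := O.valuation with hv
  have hvρ : 0 < v ρ := zero_lt_iff.2 ((v.ne_zero_iff).2 hρ)
  obtain ⟨P, hP⟩ := hz ρ hρ
  obtain ⟨T, hT1, hT⟩ := exists_bound v (fun m => tc P u m) (P.natDegree + 1)
  have hT' : ∀ m, v (tc P u m) ≤ v T := by
    intro m
    rcases Nat.lt_or_ge m (P.natDegree + 1) with h | h
    · exact hT m h
    · rw [tc_of_lt P u (by lia), map_zero]; exact zero_le
  have hvT : 0 < v T := lt_of_lt_of_le one_pos hT1
  have hT0 : T ≠ 0 := (v.ne_zero_iff).1 hvT.ne'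
  obtain ⟨κ₁, hκ₁0, hκ₁1, hκ₁2⟩ := exists_small (v := v) 1 (ρ / T) one_ne_zero (div_ne_zero hρ hT0)
  obtain ⟨κ, hκ0, hκκ₁, hκε⟩ := exists_small (v := v) κ₁ ε₀ hκ₁0 hε₀
  have hκ1 : v κ ≤ 1 := by
    refine hκκ₁.trans ?_
    rwa [map_one] at hκ₁1
  have hκ2 : v T * v κ ≤ v ρ := by
    have h1 := hκκ₁.trans hκ₁2
    rw [map_div₀, le_div_iff₀ hvT] at h1
    rwa [mul_comm]
  obtain ⟨Q, hQ⟩ := hu κ hκ0
  set y := aeval z₁ Q with hy
  set e := u - y with he
  have he1 : v e ≤ 1 := hQ.le.trans hκ1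
  have hye : y = u + -e := by rw [he]; ring
  -- Taylor coefficients at `y`
  have hTy : ∀ i, v (tc P y i) ≤ v T := by
    intro i
    have h1 : tc P y i = (taylor (-e) (taylor u (P.map (algebraMap M Ω)))).coeff i := by
      rw [taylor_taylor, tc, hye, add_comm]
    rw [h1, taylor_coeff_sum]
    refine v.map_sum_le fun m _ => ?_
    rw [map_mul, map_mul, map_pow, v.map_neg]
    calc v ((taylor u (P.map (algebraMap M Ω))).coeff m) * v ((m.choose i : ℕ) : Ω) * v e ^ (m - i)
        ≤ v T * 1 * 1 := mul_le_mul' (mul_le_mul' (hT' m) (v_nat_le v _))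
          (pow_le_one₀ zero_le he1)
      _ = v T := by rw [mul_one, mul_one]
  -- increments of `P` at `y`
  have hinc : ∀ (x d : Ω), (∀ i, v (tc P x i) ≤ v T) → v d < v κ →
      v (aeval (x + d) P - aeval x P) < v ρ := by
    intro x d hx hd
    rw [Near_aeval_add P x d]
    refine v.map_sum_lt hvρ.ne' fun i _ => ?_
    rw [map_mul, map_pow, pow_succ]
    have h2 : v (tc P x (i + 1)) * (v d ^ i * v d) ≤ v T * v d := by
      refine mul_le_mul' (hx _) (mul_le_of_le_one_left' (pow_le_one₀ zero_le (hd.le.trans hκ1)))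
    exact h2.trans_lt ((mul_lt_mul_of_pos_left hd hvT).trans_le hκ2)
  -- the error polynomial
  set R : Polynomial M := P.comp Q - X with hR
  have hRz : v (aeval z₁ R) < v ρ := by
    have h1 : aeval z₁ R = (aeval (u + -e) P - aeval u P) - (z₁ - aeval u P) := by
      rw [hR, map_sub, aeval_comp, aeval_X, ← hy, hye]; ring
    rw [h1]
    exact v.map_sub_lt (hinc u (-e) hT' (by rw [v.map_neg]; exact hQ)) hP
  have hRtc : ∀ n, v (tc R z₁ n) * v ρ ^ n < v ρ := fun n => (hb.tc_le v R n).trans_lt hRz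
  -- the polynomial `A`
  set A : Polynomial Ω := taylor z₁ (Q.map (algebraMap M Ω)) - C y with hA
  have hA0 : A.coeff 0 = 0 := by
    have h1 : (taylor z₁ (Q.map (algebraMap M Ω))).coeff 0 = y := tc_zero Q z₁
    rw [hA, coeff_sub, h1, coeff_C_zero, sub_self]
  have hAn : ∀ n, n ≠ 0 → A.coeff n = tc Q z₁ n := by
    intro n hn
    rw [hA, coeff_sub, coeff_C, if_neg hn, sub_zero]; rfl
  set B : Polynomial Ω := taylor y (P.map (algebraMap M Ω)) - C (aeval y P) with hB
  have hB0 : B.coeff 0 = 0 := by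
    have h1 : (taylor y (P.map (algebraMap M Ω))).coeff 0 = aeval y P := tc_zero P y
    rw [hB, coeff_sub, h1, coeff_C_zero, sub_self]
  have hBn : ∀ n, n ≠ 0 → B.coeff n = tc P y n := by
    intro n hn
    rw [hB, coeff_sub, coeff_C, if_neg hn, sub_zero]; rfl
  have hBA : ∀ n, n ≠ 0 → (B.comp A).coeff n = (if n = 1 then 1 else 0) + tc R z₁ n := by
    intro n hn
    have h1 : taylor z₁ ((P.comp Q).map (algebraMap M Ω)) = B.comp A + C (aeval y P) := by
      have h2 : A + C y = taylor z₁ (Q.map (algebraMap M Ω)) := by rw [hA]; ring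
      rw [Polynomial.map_comp, taylor_apply, comp_assoc, ← taylor_apply, ← h2, hB, sub_comp, C_comp,
        taylor_apply, comp_assoc, add_comp, X_comp, C_comp]
      ring
    have h3 : tc R z₁ n = (taylor z₁ ((P.comp Q).map (algebraMap M Ω))).coeff n -
        (taylor z₁ (X : Polynomial Ω)).coeff n := by
      rw [hR, tc, Polynomial.map_sub, map_sub, coeff_sub, map_X]
    rw [h3, h1, coeff_add, coeff_C, if_neg hn, add_zero, taylor_X, coeff_add, coeff_X, coeff_C,
      if_neg hn, add_zero]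
    rcases eq_or_ne n 1 with rfl | hn1
    · simp
    · rw [if_neg hn1, if_neg (Ne.symm hn1)]; ring
  -- normalisation of `A`
  obtain ⟨j₀, _, hj₀⟩ := (range (Q.natDegree + 1)).exists_max_image
    (fun j => v (tc Q z₁ (j + 1) * ρ ^ (j + 1))) ⟨0, by simp⟩
  set S : Ω := tc Q z₁ (j₀ + 1) * ρ ^ (j₀ + 1) with hS
  have hSmax : ∀ j, j ≠ 0 → v (tc Q z₁ j * ρ ^ j) ≤ v S := by
    intro j hj
    obtain ⟨i, rfl⟩ : ∃ i, j = i + 1 := ⟨j - 1, by lia⟩
    rcases Nat.lt_or_ge i (Q.natDegree + 1) with h | h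
    · exact hj₀ i (mem_range.2 h)
    · rw [tc_of_lt Q z₁ (by lia), zero_mul, map_zero]; exact zero_le
  have hκS : v κ ≤ v S := by
    by_contra hcon
    rw [not_le] at hcon
    set a := aeval (z₁ + ρ) Q - y with ha
    have hva : v a < v κ := by
      rw [ha, hy, Near_aeval_add Q z₁ ρ]
      exact v.map_sum_lt ((v.ne_zero_iff).2 hκ0) fun i _ => (hSmax (i + 1) (by lia)).trans_lt hcon
    have h1 := hinc y a hTy hva
    have h2 : aeval (y + a) P - aeval y P = ρ + (aeval (z₁ + ρ) R - aeval z₁ R) := by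
      have e1 : y + a = aeval (z₁ + ρ) Q := by rw [ha]; ring
      rw [e1, hR, map_sub, map_sub, aeval_comp, aeval_comp, aeval_X, aeval_X, ← hy]; ring
    rw [h2] at h1
    have h3 : v (aeval (z₁ + ρ) R - aeval z₁ R) < v ρ := by
      refine v.map_sub_lt ?_ hRz
      rw [hb.val_aeval v R]; exact hRz
    rw [v.map_add_eq_of_lt_left h3] at h1
    exact lt_irrefl _ h1
  have hvS : 0 < v S := lt_of_lt_of_le (zero_lt_iff.2 ((v.ne_zero_iff).2 hκ0)) hκS
  have hS0 : S ≠ 0 := (v.ne_zero_iff).1 hvS.ne'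
  set A' : Polynomial Ω := C S⁻¹ * A.comp (C ρ * X) with hA'
  have hA'n : ∀ n, A'.coeff n = S⁻¹ * (A.coeff n * ρ ^ n) := by
    intro n; rw [hA', coeff_C_mul, comp_C_mul_X_coeff]
  have hA'0 : A'.coeff 0 = 0 := by rw [hA'n, hA0]; ring
  have hA'1 : ∀ n, v (A'.coeff n) ≤ 1 := by
    intro n
    rcases eq_or_ne n 0 with rfl | hn
    · rw [hA'0, map_zero]; exact zero_le
    · rw [hA'n, hAn n hn, map_mul, map_inv₀, mul_comm, ← div_eq_mul_inv, div_le_one₀ hvS]
      exact hSmax n hn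
  have hA'j : v (A'.coeff (j₀ + 1)) = 1 := by
    rw [hA'n, hAn _ (by lia), ← hS, inv_mul_cancel₀ hS0, map_one]
  -- normalisation of `B`
  obtain ⟨i₀, _, hi₀⟩ := (range (P.natDegree + 1)).exists_max_image
    (fun j => v (tc P y (j + 1) * S ^ (j + 1))) ⟨0, by simp⟩
  set S' : Ω := tc P y (i₀ + 1) * S ^ (i₀ + 1) with hS'
  have hS'max : ∀ j, j ≠ 0 → v (tc P y j * S ^ j) ≤ v S' := by
    intro j hj
    obtain ⟨i, rfl⟩ : ∃ i, j = i + 1 := ⟨j - 1, by lia⟩
    rcases Nat.lt_or_ge i (P.natDegree + 1) with h | h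
    · exact hi₀ i (mem_range.2 h)
    · rw [tc_of_lt P y (by lia), zero_mul, map_zero]; exact zero_le
  have hS'0 : S' ≠ 0 := by
    intro h0
    have h1 : B = 0 := by
      ext n
      rcases eq_or_ne n 0 with rfl | hn
      · rw [hB0, coeff_zero]
      · have h2 := hS'max n hn
        rw [h0, map_zero] at h2
        have h3 : tc P y n * S ^ n = 0 := (v.zero_iff).1 (le_antisymm h2 zero_le)
        rw [hBn n hn, coeff_zero]
        exact (mul_eq_zero.1 h3).resolve_right (pow_ne_zero _ hS0)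
    have h2 := hBA 1 one_ne_zero
    rw [h1, zero_comp, coeff_zero, if_pos rfl] at h2
    have h3 := hRtc 1
    rw [pow_one] at h3
    have h4 : v (tc R z₁ 1) = 1 := by
      have h5 : tc R z₁ 1 = -1 := by linear_combination -h2
      rw [h5, v.map_neg, map_one]
    rw [h4, one_mul] at h3
    exact lt_irrefl _ h3
  have hvS' : 0 < v S' := zero_lt_iff.2 ((v.ne_zero_iff).2 hS'0)
  set B' : Polynomial Ω := C S'⁻¹ * B.comp (C S * X) with hB'
  have hB'n : ∀ n, B'.coeff n = S'⁻¹ * (B.coeff n * S ^ n) := by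
    intro n; rw [hB', coeff_C_mul, comp_C_mul_X_coeff]
  have hB'0 : B'.coeff 0 = 0 := by rw [hB'n, hB0]; ring
  have hB'1 : ∀ n, v (B'.coeff n) ≤ 1 := by
    intro n
    rcases eq_or_ne n 0 with rfl | hn
    · rw [hB'0, map_zero]; exact zero_le
    · rw [hB'n, hBn n hn, map_mul, map_inv₀, mul_comm, ← div_eq_mul_inv, div_le_one₀ hvS']
      exact hS'max n hn
  have hB'j : v (B'.coeff (i₀ + 1)) = 1 := by
    rw [hB'n, hBn _ (by lia), ← hS', inv_mul_cancel₀ hS'0, map_one]
  have hcomp : B'.comp A' = C S'⁻¹ * (B.comp A).comp (C ρ * X) := by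
    rw [hB', mul_comp, C_comp, comp_assoc, comp_assoc, mul_comp, C_comp, X_comp, hA']
    congr 2
    rw [← mul_assoc, ← C_mul, mul_inv_cancel₀ hS0, C_1, one_mul]
  -- lift to `O`
  obtain ⟨α, hα⟩ := exists_liftO O hA'1
  obtain ⟨β, hβ⟩ := exists_liftO O hB'1
  have hαn : ∀ n, (α.coeff n : Ω) = A'.coeff n := fun n => by rw [← hα, coeff_map]; rfl
  have hβn : ∀ n, (β.coeff n : Ω) = B'.coeff n := fun n => by rw [← hβ, coeff_map]; rfl
  have hαβn : ∀ n, ((β.comp α).coeff n : Ω) = (B'.comp A').coeff n := fun n => by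
    rw [← hα, ← hβ, ← Polynomial.map_comp, coeff_map]; rfl
  set c : ℕ → Ω := fun n => if n = 0 then 0 else tc R z₁ n * ρ ^ n / ρ with hcdef
  have hcn : ∀ n, v (c n) < 1 := by
    intro n
    show v (if n = 0 then 0 else tc R z₁ n * ρ ^ n / ρ) < 1
    split_ifs
    · simp
    · rw [map_div₀, map_mul, map_pow, div_lt_one₀ hvρ]; exact hRtc n
  have hlin := comp_linear O (α := α) (β := β) (S := S') (ρ := ρ)
    (Subtype.ext (by rw [hαn, hA'0]; rfl)) (Subtype.ext (by rw [hβn, hB'0]; rfl))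
    ⟨j₀ + 1, by rw [hαn]; exact hA'j⟩ ⟨i₀ + 1, by rw [hβn]; exact hB'j⟩ hρ c hcn (by
      intro n
      rw [hαβn, hcomp, coeff_C_mul, comp_C_mul_X_coeff, ← mul_assoc, mul_inv_cancel₀ hS'0, one_mul]
      rcases eq_or_ne n 0 with rfl | hn
      · have h1 : (B.comp A).coeff 0 = 0 := by
          rw [coeff_zero_eq_eval_zero, eval_comp, ← coeff_zero_eq_eval_zero, hA0,
            ← coeff_zero_eq_eval_zero, hB0]
        rw [h1]
        have h2 : c 0 = 0 := if_pos rfl
        rw [h2]; simp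
      · rw [hBA n hn]
        have h2 : c n = tc R z₁ n * ρ ^ n / ρ := if_neg hn
        rw [h2]
        rcases eq_or_ne n 1 with rfl | hn1
        · simp only [if_true, pow_one]; field_simp
        · rw [if_neg hn1, zero_add, zero_add]; field_simp)
  have hj1 : j₀ + 1 = 1 := by
    by_contra hne
    have h1 := hlin (j₀ + 1) (by lia)
    rw [hαn] at h1
    exact absurd hA'j h1.ne
  have hS1 : S = tc Q z₁ 1 * ρ := by rw [hS, hj1, pow_one]
  refine ⟨Q, ?_, fun j hj => ?_, ?_⟩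
  · rw [← hS1]; exact hQ.trans_le hκS
  · have h1 := hlin j hj
    rw [hαn, hA'n, hAn j (by lia)] at h1
    rw [← hS1]
    have h2 : v (S⁻¹ * (tc Q z₁ j * ρ ^ j)) = v (tc Q z₁ j * ρ ^ j) / v S := by
      rw [map_mul, map_inv₀, mul_comm, ← div_eq_mul_inv]
    rwa [show O.valuation = v from rfl, h2, div_lt_one₀ hvS] at h1
  · exact hQ.trans_le hκε

omit [IsAlgClosed M] in
theorem waut_lt {Γ : Type*} [LinearOrderedCommGroupWithZero Γ] {v : Valuation Ω Γ}
    (himm : Imm v M) {σ : Ω ≃+* Ω} (hfix : ∀ x ∈ M, σ x = x)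
    (hval : ∀ x, v (σ x) = v x) {x : Ω} (hx : x ≠ 0) : v (σ x - x) < v x := by
  obtain ⟨a, ha, hxa⟩ := himm x hx
  have e : σ x - x = σ (x - a) - (x - a) := by rw [map_sub, hfix a ha]; ring
  rw [e]
  exact v.map_sub_lt (by rw [hval]; exact hxa) hxa

omit [IsAlgClosed M] in
theorem waut_beyond {Γ : Type*} [LinearOrderedCommGroupWithZero Γ] {v : Valuation Ω Γ}
    (himm : Imm v M) {σ : Ω ≃+* Ω} (hfix : ∀ x ∈ M, σ x = x)
    (hval : ∀ x, v (σ x) = v x) {z : Ω} (hz : σ z ≠ z) : Beyond v M z (v (σ z - z)) := by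
  intro a
  have hne : z - algebraMap M Ω a ≠ 0 := by
    intro h
    apply hz
    have h1 : z = (a : Ω) := sub_eq_zero.1 h
    rw [h1]
    exact hfix _ a.2
  have h1 := waut_lt himm hfix hval hne
  have h2 : σ (z - algebraMap M Ω a) - (z - algebraMap M Ω a) = σ z - z := by
    have h3 : σ (algebraMap M Ω a) = algebraMap M Ω a := hfix _ a.2
    rw [map_sub, h3]; ring
  rwa [h2] at h1

omit [IsAlgClosed M] in
theorem map_aeval_of_fix {σ : Ω ≃+* Ω} (hfix : ∀ x ∈ M, σ x = x) (z : Ω) (P : Polynomial M) :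
    σ (aeval z P) = aeval (σ z) P := by
  rw [aeval_eq_sum_range, aeval_eq_sum_range, map_sum]
  refine sum_congr rfl fun i _ => ?_
  rw [Algebra.smul_def, Algebra.smul_def, map_mul, map_pow]
  congr 1
  exact hfix _ (P.coeff i).2

theorem lin_core (himm : Imm O.valuation M) {z₁ u : Ω} (hu : InC O.valuation M z₁ u)
    (hz : InC O.valuation M u z₁) (σ₀ : Ω ≃+* Ω) (hfix₀ : ∀ x ∈ M, σ₀ x = x)
    (hval₀ : ∀ x, O.valuation (σ₀ x) = O.valuation x) (h0 : σ₀ z₁ ≠ z₁) :
    ∃ β ∈ M, β ≠ 0 ∧ ∀ σ : Ω ≃+* Ω, (∀ x ∈ M, σ x = x) →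
      (∀ x, O.valuation (σ x) = O.valuation x) → σ z₁ ≠ z₁ →
      O.valuation (σ u - u - β * (σ z₁ - z₁)) < O.valuation (β * (σ z₁ - z₁)) := by
  set v := O.valuation with hv
  set d₀ := σ₀ z₁ - z₁ with hd₀
  have hd₀0 : d₀ ≠ 0 := sub_ne_zero.2 h0
  have hb₀ : Beyond v M z₁ (v d₀) := waut_beyond himm hfix₀ hval₀ h0
  obtain ⟨Q₀, h1, h2, -⟩ := linQ O hu hz hd₀0 hb₀ 1 one_ne_zero
  set e₀ := u - aeval z₁ Q₀ with he₀
  set t₀ := tc Q₀ z₁ 1 with ht₀
  have hvd₀ : 0 < v d₀ := zero_lt_iff.2 ((v.ne_zero_iff).2 hd₀0)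
  have ht₀0 : t₀ ≠ 0 := by
    intro h
    rw [h, zero_mul, map_zero] at h1
    exact absurd h1 (not_lt.2 zero_le)
  obtain ⟨β, hβM, hβ⟩ := himm t₀ ht₀0
  have hvβ : v β = v t₀ := by
    have e : β = t₀ - (t₀ - β) := by ring
    rw [e]; exact v.map_sub_eq_of_lt_left hβ
  have hvt₀ : 0 < v t₀ := zero_lt_iff.2 ((v.ne_zero_iff).2 ht₀0)
  have hβ0 : β ≠ 0 := (v.ne_zero_iff).1 (by rw [hvβ]; exact hvt₀.ne')
  refine ⟨β, hβM, hβ0, fun σ hfix hval hσ => ?_⟩
  set d := σ z₁ - z₁ with hd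
  have hd0 : d ≠ 0 := sub_ne_zero.2 hσ
  have hb : Beyond v M z₁ (v d) := waut_beyond himm hfix hval hσ
  have hvd : 0 < v d := zero_lt_iff.2 ((v.ne_zero_iff).2 hd0)
  obtain ⟨Q, h3, h4, -⟩ := linQ O hu hz hd0 hb 1 one_ne_zero
  set e := u - aeval z₁ Q with he
  set t := tc Q z₁ 1 with ht
  -- the linear approximation of `σ u - u`
  have hDe : v (σ e - e) ≤ v e := by
    rcases eq_or_ne e 0 with h | h
    · rw [h, map_zero, sub_zero]
    · exact (waut_lt himm hfix hval h).le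
  have hDu : v (σ u - u - t * d) < v (t * d) := by
    have hpos : 0 < v (t * d) := lt_of_le_of_lt zero_le h3
    have e1 : σ u - u - t * d = (σ e - e) +
        ∑ j ∈ range (Q.natDegree), tc Q z₁ (j + 1 + 1) * d ^ (j + 1 + 1) := by
      have e2 : u = aeval z₁ Q + e := by rw [he]; ring
      have e3 : σ z₁ = z₁ + d := by rw [hd]; ring
      have e4 : aeval (z₁ + d) Q - aeval z₁ Q =
          t * d + ∑ j ∈ range (Q.natDegree), tc Q z₁ (j + 1 + 1) * d ^ (j + 1 + 1) := by
        rw [Near_aeval_add Q z₁ d]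
        have e5 : ∑ j ∈ range Q.natDegree, tc Q z₁ (j + 1) * d ^ (j + 1) =
            ∑ j ∈ range (Q.natDegree + 1), tc Q z₁ (j + 1) * d ^ (j + 1) := by
          rw [sum_range_succ, tc_of_lt Q z₁ (Nat.lt_succ_self _), zero_mul, add_zero]
        rw [e5, sum_range_succ', pow_succ, pow_zero, one_mul, add_comm]
      have e6 : σ u = aeval (z₁ + d) Q + σ e := by
        conv_lhs => rw [e2]
        rw [map_add, map_aeval_of_fix hfix, e3]
      rw [e6]
      conv_lhs => rw [e2]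
      linear_combination e4
    rw [e1]
    refine v.map_add_lt (hDe.trans_lt h3) (v.map_sum_lt hpos.ne' fun j _ => h4 _ (by lia))
  -- comparison of the two linear coefficients
  have hcmp : v (t - t₀) < v t₀ := by
    have e1 : t - t₀ = tc (Q - Q₀) z₁ 1 := (tc_sub Q Q₀ z₁ 1).symm
    have e2 : aeval z₁ (Q - Q₀) = e₀ - e := by rw [map_sub, he, he₀]; ring
    have h5 := hb.tc_le v (Q - Q₀) 1
    have h6 := hb₀.tc_le v (Q - Q₀) 1
    rw [← e1, e2, pow_one] at h5 h6
    rw [map_mul] at h1 h3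
    rcases le_total (v e₀) (v e) with h7 | h7
    · have h8 : v (t - t₀) * v d < v t * v d := by
        refine (h5.trans ((v.map_sub _ _).trans ?_)).trans_lt h3
        exact max_le h7 le_rfl
      have h9 : v (t - t₀) < v t := lt_of_mul_lt_mul_right h8 zero_le
      have h10 : v t₀ = v t := by
        have e3 : t₀ = t - (t - t₀) := by ring
        rw [e3]; exact v.map_sub_eq_of_lt_left h9
      rw [h10]; exact h9
    · have h8 : v (t - t₀) * v d₀ < v t₀ * v d₀ := by
        refine (h6.trans ((v.map_sub _ _).trans ?_)).trans_lt h1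
        exact max_le le_rfl h7
      exact lt_of_mul_lt_mul_right h8 zero_le
  have htβ : v (t - β) < v β := by
    have e3 : t - β = (t - t₀) + (t₀ - β) := by ring
    rw [e3, hvβ]
    exact v.map_add_lt hcmp hβ
  have hvt : v t = v β := by
    have e3 : t = β + (t - β) := by ring
    rw [e3]; exact v.map_add_eq_of_lt_left htβ
  have e4 : σ u - u - β * d = (σ u - u - t * d) + (t - β) * d := by ring
  rw [e4]
  refine v.map_add_lt ?_ ?_
  · rw [map_mul, ← hvt, ← map_mul]; exact hDu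
  · rw [map_mul, map_mul]; exact mul_lt_mul_of_pos_right htβ hvd

end LinQ

end Pool.Agent.H58.Tilt
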