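import Mathlib

/-! Polynomials over an algebraically closed subfield `M` evaluated near an element `z` of a
valued field. -/

set_option autoImplicit false

open Polynomial Finset

namespace Pool.Agent.H58.Tilt

variable {M Ω : Type*} [Field M] [IsAlgClosed M] [Field Ω] [Algebra M Ω]
  {Γ : Type*} [LinearOrderedCommGroupWithZero Γ] (v : Valuation Ω Γ) (z : Ω)

/-- `z` is a limit of elements of `M` and is not closest to any of them -/
def Lim (v : Valuation Ω Γ) (M : Type*) [Field M] [Algebra M Ω] (z : Ω) : Prop :=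
  ∀ a : M, ∃ b : M, v (z - algebraMap M Ω b) < v (z - algebraMap M Ω a)

theorem aeval_split (P : M[X]) (x : Ω) :
    aeval x P = algebraMap M Ω P.leadingCoeff *
      (P.roots.map (fun r => x - algebraMap M Ω r)).prod := by
  conv_lhs => rw [(IsAlgClosed.splits P).eq_prod_roots]
  rw [map_mul, aeval_C, map_multiset_prod, Multiset.map_map]
  simp

variable {z} in
theorem Lim.closer (hz : Lim v M z) (s : Finset M) :
    ∃ a : M, ∀ r ∈ s, v (z - algebraMap M Ω a) < v (z - algebraMap M Ω r) := by
  classical
  rcases s.eq_empty_or_nonempty with rfl | hs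
  · exact ⟨0, by simp⟩
  · obtain ⟨r0, _, h0⟩ := s.exists_min_image (fun r => v (z - algebraMap M Ω r)) hs
    obtain ⟨a, ha⟩ := hz r0
    exact ⟨a, fun r hr => ha.trans_le (h0 r hr)⟩

theorem val_prod_congr (s : Multiset M) (f g : M → Ω) (h : ∀ r ∈ s, v (f r) = v (g r)) :
    v (s.map f).prod = v (s.map g).prod := by
  induction s using Multiset.induction_on with
  | empty => simp
  | cons r s ih =>
    rw [Multiset.map_cons, Multiset.map_cons, Multiset.prod_cons, Multiset.prod_cons, map_mul,
      map_mul, h r (Multiset.mem_cons_self _ _), ih fun r hr => h r (Multiset.mem_cons_of_mem hr)]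

/-- if `x` is closer to `z` than all roots of `P` then `|P(x)| = |P(z)|` -/
theorem val_aeval_eq (P : M[X]) {x : Ω}
    (h : ∀ r ∈ P.roots, v (z - x) < v (z - algebraMap M Ω r)) :
    v (aeval x P) = v (aeval z P) := by
  rw [aeval_split P x, aeval_split P z, map_mul, map_mul]
  congr 1
  refine val_prod_congr v _ _ _ fun r hr => ?_
  have e : x - algebraMap M Ω r = (z - algebraMap M Ω r) - (z - x) := by ring
  rw [e]
  exact v.map_sub_eq_of_lt_left (h r hr)

variable {z} in
/-- `|P(a)|` is eventually constant -/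
theorem Lim.eventually (hz : Lim v M z) (P : M[X]) :
    ∃ a₀ : M, ∀ a : M, v (z - algebraMap M Ω a) ≤ v (z - algebraMap M Ω a₀) →
      v (algebraMap M Ω (P.eval a)) = v (aeval z P) := by
  classical
  obtain ⟨a₀, h⟩ := hz.closer v P.roots.toFinset
  refine ⟨a₀, fun a ha => ?_⟩
  have h1 : algebraMap M Ω (P.eval a) = aeval (algebraMap M Ω a) P := by
    rw [aeval_algebraMap_apply, coe_aeval_eq_eval]
  rw [h1]
  exact val_aeval_eq v z P fun r hr => ha.trans_lt (h r (by simpa using hr))

/-- `r` lies beyond the cut of `z` over `M` -/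
def Beyond (v : Valuation Ω Γ) (M : Type*) [Field M] [Algebra M Ω] (z : Ω) (r : Γ) : Prop :=
  ∀ a : M, r < v (z - algebraMap M Ω a)

variable {z} in
theorem Beyond.val_aeval {d : Ω} (hd : Beyond v M z (v d)) (P : M[X]) :
    v (aeval (z + d) P) = v (aeval z P) := by
  refine val_aeval_eq v z P fun r _ => ?_
  have e : z - (z + d) = -d := by ring
  rw [e, v.map_neg]
  exact hd r

/-- Taylor coefficients of `P` at `z` -/
noncomputable def tc (P : M[X]) (z : Ω) (j : ℕ) : Ω := (taylor z (P.map (algebraMap M Ω))).coeff j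

omit [IsAlgClosed M] in
theorem tc_zero (P : M[X]) (z : Ω) : tc P z 0 = aeval z P := by
  rw [tc, taylor_coeff_zero, eval_map_algebraMap]

omit [IsAlgClosed M] in
theorem aeval_add (P : M[X]) (z d : Ω) :
    aeval (z + d) P = ∑ j ∈ range (P.natDegree + 1), tc P z j * d ^ j := by
  have h1 : aeval (z + d) P = (taylor z (P.map (algebraMap M Ω))).eval d := by
    rw [taylor_eval, eval_map_algebraMap, add_comm]
  rw [h1, eval_eq_sum_range' (n := P.natDegree + 1)]
  · rfl
  · rw [natDegree_taylor, natDegree_map]; exact Nat.lt_succ_self _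

omit [IsAlgClosed M] in
theorem tc_sub (P Q : M[X]) (z : Ω) (j : ℕ) : tc (P - Q) z j = tc P z j - tc Q z j := by
  unfold tc
  rw [Polynomial.map_sub, map_sub, coeff_sub]

/-- strict Gauss bound for products of linear factors -/
theorem val_coeff_prod {r : Γ} (s : Multiset M) (h : ∀ a ∈ s, r < v (z - algebraMap M Ω a)) :
    0 < v (s.map (fun a => z - algebraMap M Ω a)).prod ∧ ∀ n : ℕ,
      v ((s.map (fun a => (X + C (z - algebraMap M Ω a) : Polynomial Ω))).prod.coeff n) * r ^ n ≤
          v (s.map (fun a => z - algebraMap M Ω a)).prod ∧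
      (1 ≤ n → v ((s.map (fun a => (X + C (z - algebraMap M Ω a) : Polynomial Ω))).prod.coeff n) * r ^ n <
          v (s.map (fun a => z - algebraMap M Ω a)).prod) := by
  induction s using Multiset.induction_on with
  | empty =>
    refine ⟨by simp, fun n => ?_⟩
    rcases Nat.eq_zero_or_pos n with rfl | hn
    · simp
    · have h1 : (1 : Polynomial Ω).coeff n = 0 := by rw [coeff_one]; simp [hn.ne']
      simp [h1]
  | cons a s ih =>
    obtain ⟨ih0, ih⟩ := ih fun b hb => h b (Multiset.mem_cons_of_mem hb)
    have ha := h a (Multiset.mem_cons_self _ _)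
    have ha0 : 0 < v (z - algebraMap M Ω a) := lt_of_le_of_lt zero_le' ha
    simp only [Multiset.map_cons, Multiset.prod_cons]
    set f : Polynomial Ω := (s.map (fun a => (X + C (z - algebraMap M Ω a) : Polynomial Ω))).prod with hf
    set A := v (s.map (fun a => z - algebraMap M Ω a)).prod with hA
    set b := z - algebraMap M Ω a with hb
    rw [map_mul]
    refine ⟨mul_pos ha0 ih0, fun n => ?_⟩
    rcases Nat.eq_zero_or_pos n with rfl | hn
    · refine ⟨?_, fun h => absurd h (by norm_num)⟩
      have h1 : ((X + C b) * f).coeff 0 = b * f.coeff 0 := by simp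
      rw [h1, map_mul, pow_zero, mul_one]
      have h2 := (ih 0).1
      rw [pow_zero, mul_one] at h2
      exact mul_le_mul_right h2 _
    · have key : v (((X + C b) * f).coeff n) * r ^ n < v b * A := by
        obtain ⟨m, rfl⟩ : ∃ m, n = m + 1 := ⟨n - 1, by lia⟩
        have h1 : ((X + C b) * f).coeff (m + 1) = f.coeff m + b * f.coeff (m + 1) := by
          rw [add_mul, coeff_add, coeff_X_mul, coeff_C_mul]
        rw [h1]
        have h2 : v (f.coeff m) * r ^ (m + 1) < v b * A := by
          rw [pow_succ, ← mul_assoc, mul_comm (v b)]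
          exact mul_lt_mul_of_le_of_lt_of_nonneg_of_pos (ih m).1 ha zero_le' ih0
        have h3 : v (b * f.coeff (m + 1)) * r ^ (m + 1) < v b * A := by
          rw [map_mul, mul_assoc]
          exact mul_lt_mul_of_pos_left ((ih (m + 1)).2 (by lia)) ha0
        rcases eq_or_ne r 0 with rfl | hr
        · simpa using mul_pos ha0 ih0
        · have hr' : 0 < r ^ (m + 1) := zero_lt_iff.2 (pow_ne_zero _ hr)
          rw [← lt_div_iff₀ hr'] at h2 h3 ⊢
          exact v.map_add_lt h2 h3
      exact ⟨key.le, fun _ => key⟩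

omit [IsAlgClosed M] in
theorem taylor_factor (s : Multiset M) :
    taylor z ((s.map (fun a => (X - C (algebraMap M Ω a) : Polynomial Ω))).prod) =
      (s.map (fun a => (X + C (z - algebraMap M Ω a) : Polynomial Ω))).prod := by
  induction s using Multiset.induction_on with
  | empty => simp
  | cons a s ih =>
    simp only [Multiset.map_cons, Multiset.prod_cons]
    rw [taylor_mul, ih, map_sub, taylor_X, taylor_C, C_sub]
    congr 1
    ring

theorem tc_eq (P : M[X]) (n : ℕ) :
    tc P z n = algebraMap M Ω P.leadingCoeff *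
      ((P.roots.map (fun a => (X + C (z - algebraMap M Ω a) : Polynomial Ω))).prod).coeff n := by
  have h1 : P.map (algebraMap M Ω) = C (algebraMap M Ω P.leadingCoeff) *
      (P.roots.map (fun a => (X - C (algebraMap M Ω a) : Polynomial Ω))).prod := by
    conv_lhs => rw [(IsAlgClosed.splits P).eq_prod_roots]
    rw [Polynomial.map_mul, map_C, Polynomial.map_multiset_prod, Multiset.map_map]
    simp
  rw [tc, h1, taylor_mul, taylor_C, coeff_C_mul, taylor_factor]

variable {z} in
theorem Beyond.tc_le {r : Γ} (hr : Beyond v M z r) (P : M[X]) (n : ℕ) :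
    v (tc P z n) * r ^ n ≤ v (aeval z P) := by
  rw [tc_eq, aeval_split, map_mul, map_mul, mul_assoc]
  exact mul_le_mul_right ((val_coeff_prod v z (r := r) P.roots fun a _ => hr a).2 n).1 _

variable {z} in
theorem Beyond.tc_lt {r : Γ} (hr : Beyond v M z r) {P : M[X]} (hP : P ≠ 0) {n : ℕ} (hn : 1 ≤ n) :
    v (tc P z n) * r ^ n < v (aeval z P) := by
  rw [tc_eq, aeval_split, map_mul, map_mul, mul_assoc]
  refine mul_lt_mul_of_pos_left ((val_coeff_prod v z (r := r) P.roots fun a _ => hr a).2 n |>.2 hn)
    ?_
  rw [zero_lt_iff, v.ne_zero_iff]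
  simpa using hP

end Pool.Agent.H58.Tilt
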