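import Pool.Agent.H58.Tilt.Gal

/-! One Artin-Schreier step over `HC(M(z))` (module D3 of MP_db217e_lc). -/

set_option autoImplicit false

open Polynomial Finset

namespace Pool.Agent.H58.Tilt

variable {Ω : Type*} [Field Ω]
  {Γ : Type*} [LinearOrderedCommGroupWithZero Γ] (v : Valuation Ω Γ)

/-- the field generated by `L` and `S` -/
def adj (L : Subfield Ω) (S : Set Ω) : Subfield Ω := Subfield.closure ((L : Set Ω) ∪ S)

theorem le_adj (L : Subfield Ω) (S : Set Ω) : L ≤ adj L S := fun _ hx =>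
  Subfield.subset_closure (Or.inl hx)

theorem subset_adj (L : Subfield Ω) (S : Set Ω) : S ⊆ adj L S := fun _ hx =>
  Subfield.subset_closure (Or.inr hx)

theorem adj_le {L E : Subfield Ω} {S : Set Ω} (h : L ≤ E) (hS : S ⊆ E) : adj L S ≤ E :=
  Subfield.closure_le.2 (Set.union_subset h hS)

theorem self_mem_adj (L : Subfield Ω) (z : Ω) : z ∈ adj L {z} :=
  subset_adj L {z} rfl

/-- smallest overfield closed under simple roots -/
def HC (L : Subfield Ω) : Subfield Ω := sInf {F | L ≤ F ∧ SCl v F}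

theorem le_HC (L : Subfield Ω) : L ≤ HC v L := le_sInf fun _ hF => hF.1

variable {v}

theorem HC_le {L F : Subfield Ω} (h : L ≤ F) (hF : SCl v F) : HC v L ≤ F := sInf_le ⟨h, hF⟩

theorem SR.mono {L E : Subfield Ω} (h : L ≤ E) {c : Ω} (hc : SR v L c) : SR v E c := by
  obtain ⟨h1, f, hm, hL, hO, h0, hd⟩ := hc
  exact ⟨h1, f, hm, fun n => h (hL n), hO, h0, hd⟩

variable (v) in
theorem HC_scl (L : Subfield Ω) : SCl v (HC v L) := by
  intro c hc
  rw [HC, Subfield.mem_sInf]
  intro F hF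
  exact hF.2 c (hc.mono (sInf_le hF))

theorem HC_mono {L E : Subfield Ω} (h : L ≤ E) : HC v L ≤ HC v E :=
  HC_le (h.trans (le_HC v E)) (HC_scl v E)

/-- an algebraically closed subfield contains everything algebraic over it -/
theorem mem_of_alg (M : Subfield Ω) [IsAlgClosed M] {x : Ω} (hx : IsAlgebraic M x) : x ∈ M := by
  have h1 : (minpoly M x).degree = 1 :=
    IsAlgClosed.degree_eq_one_of_irreducible M (minpoly.irreducible hx.isIntegral)
  have h2 : (minpoly M x).natDegree = 1 := natDegree_eq_of_degree_eq_some h1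
  rw [minpoly.natDegree_eq_one_iff] at h2
  obtain ⟨y, hy⟩ := h2
  rw [← hy]
  exact y.2

theorem scl_of_algClosed (M : Subfield Ω) [IsAlgClosed M] : SCl v M := by
  intro c hc
  obtain ⟨h1, f, hm, hL, hO, h0, hd⟩ := hc
  have hne : f.derivative.eval c ≠ 0 := (v.ne_zero_iff).1 (by rw [hd]; exact one_ne_zero)
  exact mem_of_alg M (isSeparable_of_root M hL h0 hne).isIntegral.isAlgebraic

/-- a linearly dominant non-monic equation -/
theorem linear_dominance {L : Subfield Ω} {U w : Ω} (hw : w ∈ L) (hw1 : v w = 1) (hU : v U = 1)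
    (N : ℕ) (ε : ℕ → Ω) (hεL : ∀ m, ε m ∈ L) (hε : ∀ m, v (ε m) < 1)
    (he : w = U + ∑ m ∈ Icc 2 N, ε m * U ^ m) : SR v L U⁻¹ := by
  have hw0 : w ≠ 0 := (v.ne_zero_iff).1 (by rw [hw1]; exact one_ne_zero)
  have hU0 : U ≠ 0 := (v.ne_zero_iff).1 (by rw [hU]; exact one_ne_zero)
  set T := U⁻¹ with hT
  have hT1 : v T = 1 := by rw [hT, map_inv₀, hU, inv_one]
  have hT0 : T ≠ 0 := inv_ne_zero hU0
  set R : Polynomial Ω := C w⁻¹ * X ^ (N + 1) + ∑ m ∈ Icc 2 N, C (w⁻¹ * ε m) * X ^ (N + 2 - m)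
    with hR
  have hRdeg : R.degree < ((N + 2 : ℕ) : WithBot ℕ) := by
    refine (degree_add_le _ _).trans_lt (max_lt ?_ ?_)
    · refine (degree_C_mul_X_pow_le _ _).trans_lt ?_
      exact_mod_cast Nat.lt_succ_self _
    · refine (degree_sum_le _ _).trans_lt ?_
      rw [Finset.sup_lt_iff (WithBot.bot_lt_coe _)]
      intro m hm
      rw [mem_Icc] at hm
      refine (degree_C_mul_X_pow_le _ _).trans_lt ?_
      exact_mod_cast (by lia : N + 2 - m < N + 2)
  have hcoef : ∀ n, R.coeff n = (if n = N + 1 then w⁻¹ else 0) +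
      ∑ m ∈ Icc 2 N, (if n = N + 2 - m then w⁻¹ * ε m else 0) := by
    intro n
    rw [hR, coeff_add, coeff_C_mul_X_pow, finsetSum_coeff]
    congr 1
    exact sum_congr rfl fun m _ => coeff_C_mul_X_pow _ _ _
  have hwi : w⁻¹ ∈ L := L.inv_mem hw
  have hwi1 : v w⁻¹ = 1 := by rw [map_inv₀, hw1, inv_one]
  refine ⟨hT1.le, X ^ (N + 2) - R, monic_X_pow_sub hRdeg, ?_, ?_, ?_, ?_⟩
  · intro n
    rw [coeff_sub, coeff_X_pow, hcoef]
    refine L.sub_mem (by split_ifs; exacts [L.one_mem, L.zero_mem])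
      (L.add_mem (by split_ifs; exacts [hwi, L.zero_mem]) (L.sum_mem fun m _ => ?_))
    split_ifs
    · exact L.mul_mem hwi (hεL m)
    · exact L.zero_mem
  · intro n
    rw [coeff_sub, coeff_X_pow, hcoef]
    refine v.map_sub_le (by split_ifs <;> simp)
      (v.map_add_le (by split_ifs <;> simp [hw1]) (v.map_sum_le fun m _ => ?_))
    split_ifs
    · rw [map_mul, hwi1, one_mul]; exact (hε m).le
    · simp
  · rw [eval_sub, hR, eval_add, eval_finsetSum]
    simp only [eval_mul, eval_C, eval_pow, eval_X]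
    have e1 : ∀ m ∈ Icc 2 N, w⁻¹ * ε m * T ^ (N + 2 - m) = w⁻¹ * T ^ (N + 2) * (ε m * U ^ m) := by
      intro m hm
      rw [mem_Icc] at hm
      have e2 : T ^ (N + 2) = T ^ (N + 2 - m) * T ^ m := by rw [← pow_add]; congr 1; lia
      have e3 : T ^ m * U ^ m = 1 := by rw [← mul_pow, hT, inv_mul_cancel₀ hU0, one_pow]
      rw [e2]
      linear_combination (-(w⁻¹ * ε m * T ^ (N + 2 - m))) * e3
    rw [sum_congr rfl e1, ← mul_sum]
    have e4 : ∑ m ∈ Icc 2 N, ε m * U ^ m = w - U := by rw [he]; ring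
    rw [e4]
    have e5 : T ^ (N + 2) = T ^ (N + 1) * T := pow_succ _ _
    have e6 : T * U = 1 := inv_mul_cancel₀ hU0
    have e7 : w⁻¹ * w = 1 := inv_mul_cancel₀ hw0
    rw [e5]
    linear_combination (w⁻¹ * T ^ (N + 1)) * e6 - (T ^ (N + 1) * T) * e7
  · have e1 : (X ^ (N + 2) - R : Polynomial Ω).derivative.eval T =
        T ^ N * (w⁻¹ + ((N + 2 : ℕ) : Ω) * (T - w⁻¹)) -
          ∑ m ∈ Icc 2 N, w⁻¹ * ε m * ((N + 2 - m : ℕ) * T ^ (N + 2 - m - 1)) := by
      rw [hR]
      simp only [derivative_sub, derivative_add, derivative_X_pow, derivative_C_mul,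
        derivative_sum, eval_sub, eval_add, eval_mul, eval_C, eval_pow, eval_X, eval_finsetSum]
      have e2 : N + 2 - 1 = N + 1 := by lia
      have e3 : N + 1 - 1 = N := by lia
      rw [e2, e3]
      push_cast
      ring
    have hTw : v (T - w⁻¹) < 1 := by
      have e2 : T - w⁻¹ = (w - U) / (w * U) := by
        rw [hT]; field_simp
      have e3 : v (w - U) < 1 := by
        have e4 : w - U = ∑ m ∈ Icc 2 N, ε m * U ^ m := by rw [he]; ring
        rw [e4]
        refine v.map_sum_lt one_ne_zero fun m _ => ?_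
        rw [map_mul, map_pow, hU, one_pow, mul_one]; exact hε m
      rw [e2, map_div₀, map_mul, hw1, hU, mul_one, div_one]; exact e3
    rw [e1]
    have h1 : v (T ^ N * (w⁻¹ + ((N + 2 : ℕ) : Ω) * (T - w⁻¹))) = 1 := by
      rw [map_mul, map_pow, hT1, one_pow, one_mul]
      rw [v.map_add_eq_of_lt_left, hwi1]
      rw [hwi1, map_mul]
      exact (mul_le_of_le_one_left' (v_nat_le v _)).trans_lt hTw
    have h2 : v (∑ m ∈ Icc 2 N, w⁻¹ * ε m * ((N + 2 - m : ℕ) * T ^ (N + 2 - m - 1))) < 1 := by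
      refine v.map_sum_lt one_ne_zero fun m _ => ?_
      rw [map_mul, map_mul, map_mul, map_pow, hT1, one_pow, mul_one, hwi1, one_mul]
      exact (mul_le_of_le_one_right' (v_nat_le v _)).trans_lt (hε m)
    rw [v.map_sub_eq_of_lt_left (by rw [h1]; exact h2), h1]

/-- simple roots are algebraic -/
theorem SR.isAlgebraic {L : Subfield Ω} {c : Ω} (hc : SR v L c) : IsAlgebraic L c := by
  obtain ⟨h1, f, hm, hL, hO, h0, hd⟩ := hc
  have hne : f.derivative.eval c ≠ 0 := (v.ne_zero_iff).1 (by rw [hd]; exact one_ne_zero)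
  exact (isSeparable_of_root L hL h0 hne).isIntegral.isAlgebraic

theorem isAlgebraic_of_mem_HC {L : Subfield Ω} {x : Ω} (hx : x ∈ HC v L) : IsAlgebraic L x := by
  have h1 : HC v L ≤ (algebraicClosure L Ω).toSubfield := by
    refine HC_le (fun y hy => ?_) fun c hc => ?_
    · exact (mem_algebraicClosure_iff).2 (isAlgebraic_algebraMap (⟨y, hy⟩ : L))
    · have h2 : IsAlgebraic (algebraicClosure L Ω) c := hc.isAlgebraic
      exact (mem_algebraicClosure_iff).2 (isIntegral_trans c h2.isIntegral).isAlgebraic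
  exact (mem_algebraicClosure_iff).1 (h1 hx)

/-- transitivity of algebraicity for subfields -/
theorem isAlgebraic_of_le_HC {L E : Subfield Ω} [Algebra.IsAlgebraic E Ω] (h : E ≤ HC v L) :
    Algebra.IsAlgebraic L Ω := by
  have h1 : E ≤ (algebraicClosure L Ω).toSubfield := fun x hx =>
    (mem_algebraicClosure_iff).2 (isAlgebraic_of_mem_HC (h hx))
  refine ⟨fun x => ?_⟩
  have h3 : Algebra.IsAlgebraic (algebraicClosure L Ω).toSubfield Ω := isAlgebraic_mono h1
  have h2 : IsAlgebraic (algebraicClosure L Ω) x := h3.isAlgebraic x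
  exact (isIntegral_trans x h2.isIntegral).isAlgebraic

section Step

variable [IsAlgClosed Ω] (p : ℕ) [hp : Fact p.Prime] [CharP Ω p]
  (M : Subfield Ω) [IsAlgClosed M]

/-- `Ω` is immediate over `M` -/
def Imm (v : Valuation Ω Γ) (M : Subfield Ω) : Prop := ∀ x : Ω, x ≠ 0 → ∃ a ∈ M, v (x - a) < v x

variable {M}

omit [IsAlgClosed Ω] [IsAlgClosed M] in
theorem Imm.lim (himm : Imm v M) {z : Ω} (hz : z ∉ M) : Lim v M z := by
  intro a
  have hne : z - a ≠ 0 := fun h => hz (by rw [sub_eq_zero.1 h]; exact a.2)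
  obtain ⟨b, hb, h1⟩ := himm _ hne
  refine ⟨a + ⟨b, hb⟩, ?_⟩
  have e : z - algebraMap M Ω (a + ⟨b, hb⟩) = z - a - b := by
    rw [map_add]
    show z - ((a : Ω) + b) = _
    ring
  rw [e]
  exact h1

omit [IsAlgClosed Ω] [IsAlgClosed M] in
theorem Imm.res (himm : Imm v M) {c : Ω} (hc : v c ≤ 1) : ∃ a ∈ M, v (c - a) < 1 := by
  rcases eq_or_ne c 0 with rfl | hne
  · exact ⟨0, M.zero_mem, by simp⟩
  · obtain ⟨a, ha, h1⟩ := himm c hne
    exact ⟨a, ha, h1.trans_le hc⟩

omit [CharP Ω p] in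
/-- an integral Artin-Schreier root is a simple root -/
theorem as_sr [CharP Ω p] {F : Subfield Ω} {y : Ω} (hy : y ^ p - y ∈ F) (h1 : v (y ^ p - y) ≤ 1) :
    SR v F y := by
  have hy1 : v y ≤ 1 := by
    by_contra hcon
    rw [not_le] at hcon
    have h2 : v y < v (y ^ p) := by
      rw [map_pow]; exact lt_self_pow₀ hcon hp.out.one_lt
    rw [v.map_sub_eq_of_lt_left h2] at h1
    exact absurd (hcon.trans h2) (not_lt.2 h1)
  set f := y ^ p - y with hf
  have hdeg : (X + C f : Polynomial Ω).degree < p := by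
    rw [degree_X_add_C]; exact_mod_cast hp.out.one_lt
  have hc : ∀ n, (X ^ p - (X + C f) : Polynomial Ω).coeff n =
      (if n = p then 1 else 0) - ((if 1 = n then 1 else 0) + (if n = 0 then f else 0)) := by
    intro n
    rw [coeff_sub, coeff_X_pow, coeff_add, coeff_X, coeff_C]
  refine ⟨hy1, X ^ p - (X + C f), monic_X_pow_sub hdeg, ?_, ?_, ?_, ?_⟩
  · intro n
    rw [hc]
    refine F.sub_mem (by split_ifs; exacts [F.one_mem, F.zero_mem])
      (F.add_mem (by split_ifs; exacts [F.one_mem, F.zero_mem]) (by split_ifs; exacts [hy, F.zero_mem]))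
  · intro n
    rw [hc]
    refine v.map_sub_le (by split_ifs <;> simp) (v.map_add_le (by split_ifs <;> simp) ?_)
    split_ifs
    · exact h1
    · simp
  · simp [hf]
  · rw [derivative_sub, derivative_X_pow, derivative_add, derivative_X, derivative_C]
    simp

theorem exists_as_root (g : Ω) : ∃ y : Ω, y ^ p - y = g := by
  have hdeg : (X ^ p - (X + C g) : Polynomial Ω).degree ≠ 0 := by
    have h2 : (X + C g : Polynomial Ω).degree < p := by
      rw [degree_X_add_C]; exact_mod_cast hp.out.one_lt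
    rw [degree_sub_eq_left_of_degree_lt (by rw [degree_X_pow]; exact h2), degree_X_pow]
    exact_mod_cast hp.out.ne_zero
  obtain ⟨s, hs⟩ := IsAlgClosed.exists_root _ hdeg
  refine ⟨s, ?_⟩
  have h3 : s ^ p - (s + g) = 0 := by simpa [IsRoot] using hs
  linear_combination h3

omit [IsAlgClosed Ω] in
theorem aeval_mem_of_le {M F : Subfield Ω} (h : M ≤ F) {z : Ω} (hz : z ∈ F) (P : Polynomial M) :
    aeval z P ∈ F := by
  rw [← eval_map_algebraMap]
  refine eval_mem F (fun n => ?_) hz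
  rw [coeff_map]
  exact h (P.coeff n).2

/-- one Artin-Schreier step -/
theorem as_step (hr : R1 v) (himm : Imm v M)
    (hB2 : ∀ L : Subfield Ω, M ≤ L → SCl v L → Algebra.IsAlgebraic L Ω → VInv v L)
    {z : Ω} (hz : z ∉ M) [halg : Algebra.IsAlgebraic (adj M {z}) Ω] {y : Ω}
    (hy : y ∉ HC v (adj M {z})) (hyf : y ^ p - y ∈ HC v (adj M {z})) :
    ∃ z' : Ω, z' ∉ M ∧ Algebra.IsAlgebraic (adj M {z'}) Ω ∧
      HC v (adj M {z'}) = adj (HC v (adj M {z})) {y} := by
  have hCM : CharP M p := (algebraMap M Ω).charP (algebraMap M Ω).injective p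
  set F := HC v (adj M {z}) with hF
  have hlim : Lim v M z := himm.lim hz
  have hMF : M ≤ F := (le_adj M {z}).trans (le_HC v _)
  have hzF : z ∈ F := le_HC v _ (self_mem_adj M z)
  have hPF : ∀ P : Polynomial M, aeval z P ∈ F := fun P => aeval_mem_of_le hMF hzF P
  have hFC : F ≤ closF hr hlim := by
    refine HC_le (adj_le (fun x hx => ?_) ?_) (closF_scl hr hlim fun c hc => ?_)
    · exact (mem_closF hr hlim x).2 (InC.base (⟨x, hx⟩ : M))
    · rintro x rfl
      exact (mem_closF hr hlim x).2 InC.self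
    · obtain ⟨a, ha, h1⟩ := himm.res hc
      exact ⟨⟨a, ha⟩, h1⟩
  -- replace the right side by a polynomial
  obtain ⟨Q, hQ⟩ := (mem_closF hr hlim _).1 (hFC hyf) 1 one_ne_zero
  rw [map_one] at hQ
  obtain ⟨y₁, hy₁⟩ := exists_as_root p (y ^ p - y - aeval z Q)
  have hy₁F : y₁ ∈ F := by
    refine HC_scl v _ _ (as_sr p ?_ ?_)
    · rw [hy₁]; exact F.sub_mem hyf (hPF Q)
    · rw [hy₁]; exact hQ.le
  set y' := y - y₁ with hy'
  have hy'F : y' ∉ F := fun h => hy (by
    have e : y = y' + y₁ := by rw [hy']; ring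
    rw [e]; exact F.add_mem h hy₁F)
  have hy'Q : y' ^ p - y' = aeval z Q := by
    rw [hy', sub_pow_char]
    linear_combination -hy₁
  have hsub : ∀ u : Polynomial M, (y' - aeval z u) ^ p - (y' - aeval z u) =
      aeval z (Q - (u ^ p - u)) := by
    intro u
    rw [sub_pow_char, map_sub, map_sub, map_pow]
    linear_combination hy'Q
  have hbig : ∀ u : Polynomial M, 1 < v (aeval z (Q - (u ^ p - u))) := by
    intro u
    by_contra hcon
    rw [not_lt] at hcon
    have h1 : y' - aeval z u ∈ F := by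
      refine HC_scl v _ _ (as_sr p ?_ ?_)
      · rw [hsub]; exact hPF _
      · rw [hsub]; exact hcon
    apply hy'F
    have e : y' = (y' - aeval z u) + aeval z u := by ring
    rw [e]; exact F.add_mem h1 (hPF u)
  obtain ⟨a, u, h0, h1, h2⟩ := stepA p v hlim Q hbig
  set P := taylor a (Q - (u ^ p - u)) with hP
  set z' := y' - aeval z u with hz'
  have hpos := hlim.pos a
  -- the scaling element
  obtain ⟨b', hb'⟩ := hlim a
  set b : Ω := algebraMap M Ω (b' - a) with hb
  have hbe : b = (z - algebraMap M Ω a) - (z - algebraMap M Ω b') := by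
    rw [hb, map_sub]; ring
  have hvb : v b = v (z - algebraMap M Ω a) := by rw [hbe]; exact v.map_sub_eq_of_lt_left hb'
  have hb0 : b ≠ 0 := (v.ne_zero_iff).1 (by rw [hvb]; exact hpos.ne')
  set g : ℕ → Ω := fun m => algebraMap M Ω (P.coeff m) with hg
  have hg1 : g 1 ≠ 0 := by
    intro h
    have h3 : v (g 1) = 0 := by rw [h, map_zero]
    rw [show v (algebraMap M Ω (P.coeff 1)) = 0 from h3, zero_mul] at h1
    exact absurd h1 (not_lt.2 zero_le)
  have hzz : z' ^ p - z' = g 1 * (z - algebraMap M Ω a) +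
      ∑ m ∈ Icc 2 P.natDegree, g m * (z - algebraMap M Ω a) ^ m := by
    have e1 : z' ^ p - z' = aeval (z - algebraMap M Ω a) P := by
      rw [hz', hsub, hP, taylor_apply, aeval_comp]
      simp
    have e2 : aeval (z - algebraMap M Ω a) P =
        ∑ m ∈ range (P.natDegree + 2), g m * (z - algebraMap M Ω a) ^ m := by
      rw [aeval_eq_sum_range' (n := P.natDegree + 2) (by lia)]
      exact sum_congr rfl fun m _ => by rw [Algebra.smul_def]
    have hg0 : g 0 = 0 := by
      show algebraMap M Ω (P.coeff 0) = 0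
      rw [h0, map_zero]
    rw [e1, e2, ← Finset.sum_range_add_sum_Ico _ (by lia : 2 ≤ P.natDegree + 2)]
    rw [Finset.sum_range_succ, Finset.sum_range_succ, Finset.sum_range_zero, hg0]
    have e3 : ∑ m ∈ Finset.Ico 2 (P.natDegree + 2), g m * (z - algebraMap M Ω a) ^ m =
        ∑ m ∈ Icc 2 P.natDegree, g m * (z - algebraMap M Ω a) ^ m := by
      have hsub2 : Icc 2 P.natDegree ⊆ Finset.Ico 2 (P.natDegree + 2) := by
        intro m hm
        rw [mem_Icc] at hm; rw [Finset.mem_Ico]; lia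
      refine (sum_subset hsub2 fun m hm hm2 => ?_).symm
      rw [Finset.mem_Ico] at hm
      rw [mem_Icc] at hm2
      have h5 : P.coeff m = 0 := coeff_eq_zero_of_natDegree_lt (by lia)
      show algebraMap M Ω (P.coeff m) * _ = 0
      rw [h5, map_zero, zero_mul]
    rw [e3]; ring
  set L := adj M {z'} with hL
  have hML : M ≤ L := le_adj M _
  have hz'L : z' ∈ L := self_mem_adj M z'
  have hgL : ∀ m, g m ∈ L := fun m => hML (P.coeff m).2
  have hbL : b ∈ L := hML (b' - a).2
  set U : Ω := (z - algebraMap M Ω a) / b with hU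
  set ε : ℕ → Ω := fun m => if 2 ≤ m then g m * b ^ (m - 1) / g 1 else 0 with hε
  set w : Ω := (z' ^ p - z') / (g 1 * b) with hw
  have hvU : v U = 1 := by rw [hU, map_div₀, hvb, div_self hpos.ne']
  have hvg1 : 0 < v (g 1) := zero_lt_iff.2 ((v.ne_zero_iff).2 hg1)
  have hvε : ∀ m, v (ε m) < 1 := by
    intro m
    show v (if 2 ≤ m then g m * b ^ (m - 1) / g 1 else 0) < 1
    split_ifs with hm
    · rw [map_div₀, map_mul, map_pow, div_lt_one₀ hvg1, hvb]
      have h3 := h2 m hm
      obtain ⟨k, rfl⟩ : ∃ k, m = k + 1 := ⟨m - 1, by lia⟩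
      rw [pow_succ, ← mul_assoc] at h3
      exact lt_of_mul_lt_mul_right h3 zero_le
    · simp
  have he : w = U + ∑ m ∈ Icc 2 P.natDegree, ε m * U ^ m := by
    rw [hw, hzz, add_div]
    congr 1
    · rw [hU]; field_simp
    · rw [sum_div]
      refine sum_congr rfl fun m hm => ?_
      rw [mem_Icc] at hm
      have e4 : ε m = g m * b ^ (m - 1) / g 1 := if_pos hm.1
      rw [e4, hU, div_pow]
      have e5 : b ^ m = b ^ (m - 1) * b := by rw [← pow_succ]; congr 1; lia
      rw [e5]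
      field_simp
  have hvw : v w = 1 := by
    rw [he, v.map_add_eq_of_lt_left, hvU]
    rw [hvU]
    refine v.map_sum_lt one_ne_zero fun m _ => ?_
    rw [map_mul, map_pow, hvU, one_pow, mul_one]; exact hvε m
  have hwL : w ∈ L := L.div_mem (L.sub_mem (L.pow_mem hz'L p) hz'L) (L.mul_mem (hgL 1) hbL)
  have hεL : ∀ m, ε m ∈ L := by
    intro m
    show (if 2 ≤ m then g m * b ^ (m - 1) / g 1 else 0) ∈ L
    split_ifs
    · exact L.div_mem (L.mul_mem (hgL m) (L.pow_mem hbL _)) (hgL 1)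
    · exact L.zero_mem
  have hUinv : U⁻¹ ∈ HC v L :=
    HC_scl v L _ ((linear_dominance hwL hvw hvU P.natDegree ε hεL hvε he).mono (le_HC v L))
  have hzHC : z ∈ HC v L := by
    have hU2 : U ∈ HC v L := by
      have := (HC v L).inv_mem hUinv
      rwa [inv_inv] at this
    have e6 : z = U * b + algebraMap M Ω a := by
      rw [hU, div_mul_cancel₀ _ hb0]; ring
    rw [e6]
    exact (HC v L).add_mem ((HC v L).mul_mem hU2 (le_HC v L hbL)) (le_HC v L (hML a.2))
  have hFle : F ≤ HC v L := by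
    refine HC_le (adj_le (hML.trans (le_HC v L)) ?_) (HC_scl v L)
    rintro x rfl
    exact hzHC
  have halg' : Algebra.IsAlgebraic L Ω :=
    isAlgebraic_of_le_HC (v := v) (E := adj M {z}) ((le_HC v _).trans hFle)
  refine ⟨z', ?_, halg', le_antisymm ?_ ?_⟩
  · intro hz'M
    have h3 : L ≤ M := adj_le le_rfl (by rintro x rfl; exact hz'M)
    exact hz (HC_le h3 (scl_of_algClosed M) hzHC)
  · have hFalg : Algebra.IsAlgebraic F Ω := isAlgebraic_mono (le_HC v (adj M {z}))
    have hEalg : Algebra.IsAlgebraic (adj F {y}) Ω := isAlgebraic_mono (le_adj F {y})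
    refine HC_le (adj_le (hMF.trans (le_adj F _)) ?_) ?_
    · rintro x rfl
      rw [hz', hy']
      exact (adj F {y}).sub_mem ((adj F {y}).sub_mem (self_mem_adj F y) (le_adj F _ hy₁F))
        (le_adj F _ (hPF u))
    · refine scl_of_residues ((hB2 F hMF (HC_scl v _) hFalg).mono (le_adj F _)) fun c hc => ?_
      obtain ⟨a, ha, h3⟩ := himm.res hc
      exact ⟨a, le_adj F _ (hMF ha), h3⟩
  · refine adj_le hFle ?_
    rintro x rfl
    have e7 : x = z' + aeval z u + y₁ := by rw [hz', hy']; ring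
    rw [e7]
    exact (HC v L).add_mem ((HC v L).add_mem (le_HC v L hz'L) (hFle (hPF u))) (hFle hy₁F)

end Step

end Pool.Agent.H58.Tilt
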