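import Pool.Agent.H58.Tilt.AS
import Pool.Agent.H58.Tilt.Near

/-! The dominance argument for Artin-Schreier polynomials at a pseudo-limit (module D3 of
MP_db217e_lc). -/

set_option autoImplicit false

open Polynomial Finset

namespace Pool.Agent.H58.Tilt

section Gm

variable {M : Type*} [Field M] (p : ℕ) [hp : Fact p.Prime] [CharP M p] [PerfectRing M p]

/-- the reduced coefficients at `a` -/
noncomputable def gm (Q : M[X]) (m : ℕ) (a : M) : M := (red p (taylor a Q)).coeff m

theorem gm_of_lt (Q : M[X]) {m : ℕ} (hm : Q.natDegree < m) (a : M) : gm p Q m a = 0 := by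
  apply coeff_eq_zero_of_natDegree_lt
  exact (natDegree_red_le p _).trans_lt (by rwa [natDegree_taylor])

theorem gm_of_dvd (Q : M[X]) {m : ℕ} (hm : p ∣ m) (a : M) : gm p Q m a = 0 :=
  red_coeff_of_dvd p _ hm

theorem gm_pow (Q : M[X]) (m : ℕ) :
    ∃ (E : ℕ) (P : M[X]), ∀ a, gm p Q m a ^ p ^ E = P.eval a := by
  refine ⟨Q.natDegree, ∑ j ∈ (Icc 1 Q.natDegree).filter (fun j => m = j / p ^ padicValNat p j),
    (hasseDeriv j Q) ^ p ^ (Q.natDegree - padicValNat p j), fun a => ?_⟩
  rw [gm, red_coeff, natDegree_taylor, sum_pow_char_pow, eval_finsetSum]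
  refine sum_congr rfl fun j hj => ?_
  rw [mem_filter, mem_Icc] at hj
  have h1 : padicValNat p j ≤ Q.natDegree := by
    have h2 : p ^ padicValNat p j ≤ j := Nat.le_of_dvd (by lia) pow_padicValNat_dvd
    have h3 : padicValNat p j < p ^ padicValNat p j := Nat.lt_pow_self hp.out.one_lt
    lia
  have h2 : p ^ Q.natDegree = p ^ padicValNat p j * p ^ (Q.natDegree - padicValNat p j) := by
    rw [← pow_add]; congr 1; lia
  rw [h2, pow_mul, rt_pow, taylor_coeff, eval_pow]

/-- moving the base point of a reduced form -/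
theorem gm_move [IsAlgClosed M] (Q : M[X]) (a b : M) (m : ℕ) :
    gm p Q m b = (red p (taylor (b - a) (red p (taylor a Q)))).coeff m := by
  rw [gm]
  congr 1
  apply red_eq_of_sub
  obtain ⟨u, hu⟩ := exists_red p (taylor a Q)
  refine ⟨taylor (b - a) u, ?_⟩
  have h1 : taylor b Q = taylor (b - a) (taylor a Q) := by
    rw [taylor_taylor]; congr 2; ring
  rw [h1, ← map_sub, hu, map_sub, taylor_pow]

end Gm

theorem v_nat {Ω : Type*} [Field Ω] (p : ℕ) [hp : Fact p.Prime] [CharP Ω p]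
    {Γ : Type*} [LinearOrderedCommGroupWithZero Γ] (v : Valuation Ω Γ) {m : ℕ} (hm : ¬ p ∣ m) :
    v (m : Ω) = 1 := by
  have hO : (m : Ω) ^ (p - 1) = 1 := by
    have h1 : ((m : ZMod p)) ^ (p - 1) = 1 := by
      apply ZMod.pow_card_sub_one_eq_one
      intro h
      exact hm ((ZMod.natCast_eq_zero_iff m p).1 h)
    have h2 := congrArg (ZMod.castHom (dvd_refl p) Ω) h1
    simpa using h2
  have h3 : v (m : Ω) ^ (p - 1) = 1 := by rw [← map_pow, hO, map_one]
  have hp1 : p - 1 ≠ 0 := by have := hp.out.one_lt; lia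
  exact (pow_eq_one_iff_of_nonneg zero_le hp1).1 h3

theorem v_nat_le {Ω : Type*} [Field Ω]
    {Γ : Type*} [LinearOrderedCommGroupWithZero Γ] (v : Valuation Ω Γ) (m : ℕ) :
    v (m : Ω) ≤ 1 := by
  induction m with
  | zero => simp
  | succ m ih =>
    rw [Nat.cast_succ]
    exact v.map_add_le ih (by simp)

theorem taylor_coeff_sum {M : Type*} [Field M] (P : M[X]) (d : M) (j : ℕ) :
    (taylor d P).coeff j =
      ∑ m ∈ range (P.natDegree + 1), P.coeff m * (m.choose j : M) * d ^ (m - j) := by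
  rw [taylor_coeff, hasseDeriv_apply, sum_over_range]
  · rw [eval_finsetSum]
    refine sum_congr rfl fun m _ => ?_
    rw [eval_monomial]; ring
  · intro n; simp

section TwoScale

variable {M : Type*} [Field M] (p : ℕ) [hp : Fact p.Prime] [CharP M p] [PerfectRing M p]
  {Γ : Type*} [LinearOrderedCommGroupWithZero Γ] (w : Valuation M Γ)

theorem two_scale (P : M[X]) (hP : ∀ m, p ∣ m → P.coeff m = 0) (d : M) (hd : d ≠ 0) (m₀ : ℕ)
    (h1 : 1 < w (P.coeff m₀) * w d ^ m₀)
    (h2 : ∀ m, m ≠ m₀ → w (P.coeff m) * w d ^ m < w (P.coeff m₀) * w d ^ m₀) :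
    w ((red p (taylor d P)).coeff 1) = w (P.coeff m₀) * w d ^ (m₀ - 1) := by
  have hd0 : 0 < w d := by rw [zero_lt_iff, w.ne_zero_iff]; exact hd
  have hc0 : P.coeff m₀ ≠ 0 := by
    intro h
    rw [h, map_zero, zero_mul] at h1
    exact absurd h1 (not_lt.2 zero_le)
  have hpm : ¬ p ∣ m₀ := fun h => hc0 (hP m₀ h)
  have hm0 : 1 ≤ m₀ := Nat.one_le_iff_ne_zero.2 fun h => hpm (h ▸ dvd_zero p)
  set T := w (P.coeff m₀) * w d ^ (m₀ - 1) with hT
  have hTA : T * w d = w (P.coeff m₀) * w d ^ m₀ := by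
    rw [hT, mul_assoc, ← pow_succ]; congr 2; lia
  have hT0 : 0 < T := by
    rw [hT]
    exact mul_pos (by rw [zero_lt_iff, w.ne_zero_iff]; exact hc0) (pow_pos hd0 _)
  have hN : m₀ ≤ P.natDegree := le_natDegree_of_ne_zero hc0
  -- a general bound on one term
  have hterm : ∀ m j : ℕ, j ≤ m → w (P.coeff m * (m.choose j : M) * d ^ (m - j)) * w d ^ j ≤
      w (P.coeff m) * w d ^ m := by
    intro m j hjm
    have e : w d ^ m = w d ^ (m - j) * w d ^ j := by rw [← pow_add]; congr 1; lia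
    rw [map_mul, map_mul, map_pow, e, ← mul_assoc]
    refine mul_le_mul_left ?_ _
    refine mul_le_mul_left ?_ _
    exact mul_le_of_le_one_right' (v_nat_le w _)
  -- the linear coefficient
  have hlin : w ((taylor d P).coeff 1) = T := by
    rw [taylor_coeff_sum]
    have hmem : m₀ ∈ range (P.natDegree + 1) := by rw [mem_range]; lia
    rw [← add_sum_erase _ _ hmem]
    have hfirst : w (P.coeff m₀ * (m₀.choose 1 : M) * d ^ (m₀ - 1)) = T := by
      rw [Nat.choose_one_right, map_mul, map_mul, v_nat p w hpm, mul_one, map_pow]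
    have hrest : w (∑ m ∈ (range (P.natDegree + 1)).erase m₀,
        P.coeff m * (m.choose 1 : M) * d ^ (m - 1)) < T := by
      refine w.map_sum_lt hT0.ne' fun m hm => ?_
      rw [mem_erase] at hm
      rcases Nat.eq_zero_or_pos m with rfl | hmp
      · simpa using hT0
      · have h3 := (hterm m 1 hmp).trans_lt (h2 m hm.1)
        rw [pow_one, ← hTA] at h3
        exact lt_of_mul_lt_mul_right h3 zero_le
    rw [w.map_add_eq_of_lt_left (by rw [hfirst]; exact hrest), hfirst]
  rw [red_coeff]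
  have hmem : 1 ∈ (Icc 1 (taylor d P).natDegree).filter (fun j => 1 = j / p ^ padicValNat p j) := by
    rw [mem_filter, mem_Icc, natDegree_taylor]
    refine ⟨⟨le_rfl, by lia⟩, by simp⟩
  rw [← add_sum_erase _ _ hmem]
  have hfirst : w (rt p (padicValNat p 1) ((taylor d P).coeff 1)) = T := by
    have e : ∀ x : M, rt p 0 x = x := fun x => by simpa using rt_pow p 0 x
    rw [padicValNat_one_right, e, hlin]
  have hrest : w (∑ j ∈ ((Icc 1 (taylor d P).natDegree).filter
      (fun j => 1 = j / p ^ padicValNat p j)).erase 1,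
        rt p (padicValNat p j) ((taylor d P).coeff j)) < T := by
    refine w.map_sum_lt hT0.ne' fun j hj => ?_
    rw [mem_erase, mem_filter, mem_Icc] at hj
    obtain ⟨hj1, ⟨hj2, _⟩, hj3⟩ := hj
    set e := padicValNat p j with he
    have hje : j = p ^ e := by
      have h4 : p ^ e * (j / p ^ e) = j := Nat.mul_div_cancel' pow_padicValNat_dvd
      rw [← hj3, mul_one] at h4
      exact h4.symm
    have hj22 : 2 ≤ j := by lia
    have hcoef : w ((taylor d P).coeff j) * w d ^ j ≤ w (P.coeff m₀) * w d ^ m₀ := by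
      have hdj : 0 < w d ^ j := pow_pos hd0 _
      rw [← le_div_iff₀ hdj, taylor_coeff_sum]
      refine w.map_sum_le fun m _ => ?_
      rw [le_div_iff₀ hdj]
      rcases lt_or_ge m j with hmj | hmj
      · rw [Nat.choose_eq_zero_of_lt hmj]; simp
      · refine (hterm m j hmj).trans ?_
        rcases eq_or_ne m m₀ with rfl | hne
        · exact le_rfl
        · exact (h2 m hne).le
    have hp1 : w (rt p e ((taylor d P).coeff j)) ^ j * w d ^ j < T ^ j * w d ^ j := by
      have h5 : w (rt p e ((taylor d P).coeff j)) ^ j = w ((taylor d P).coeff j) := by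
        rw [← map_pow]
        conv_lhs => rw [hje]
        conv_rhs => rw [hje]
        rw [rt_pow]
      rw [h5]
      refine hcoef.trans_lt ?_
      rw [← mul_pow, hTA]
      exact lt_self_pow₀ h1 (by lia)
    exact lt_of_pow_lt_pow_left₀ j zero_le (lt_of_mul_lt_mul_right hp1 zero_le)
  rw [w.map_add_eq_of_lt_left (by rw [hfirst]; exact hrest), hfirst]

end TwoScale

variable {M Ω : Type*} [Field M] [IsAlgClosed M] [Field Ω] [Algebra M Ω]
  (p : ℕ) [hp : Fact p.Prime] [CharP M p]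
  {Γ : Type*} [LinearOrderedCommGroupWithZero Γ] (v : Valuation Ω Γ) {z : Ω}

theorem gm_eventually (hz : Lim v M z) (Q : M[X]) (m : ℕ) :
    ∃ a₀ : M, ∀ a : M, v (z - algebraMap M Ω a) ≤ v (z - algebraMap M Ω a₀) →
      v (algebraMap M Ω (gm p Q m a)) = v (algebraMap M Ω (gm p Q m a₀)) := by
  obtain ⟨E, P, hP⟩ := gm_pow p Q m
  obtain ⟨a₀, h0⟩ := hz.eventually v P
  refine ⟨a₀, fun a ha => ?_⟩
  have h1 := h0 a ha
  have h2 := h0 a₀ le_rfl
  rw [← hP a, map_pow, map_pow] at h1
  rw [← hP a₀, map_pow, map_pow] at h2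
  exact (pow_left_inj₀ zero_le zero_le (pow_ne_zero _ hp.out.ne_zero)).1 (h1.trans h2.symm)

omit [IsAlgClosed M] in
theorem Lim.pos {v : Valuation Ω Γ} (hz : Lim v M z) (a : M) : 0 < v (z - algebraMap M Ω a) := by
  obtain ⟨b, hb⟩ := hz a
  exact lt_of_le_of_lt zero_le hb

omit [IsAlgClosed M] in
/-- two monomials are eventually different -/
theorem Lim.sep (hz : Lim v M z) (c c' : Γ) {m m' : ℕ} (hmm : m < m') (a₀ : M) :
    ∃ a₁ : M, v (z - algebraMap M Ω a₁) ≤ v (z - algebraMap M Ω a₀) ∧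
      ∀ a : M, v (z - algebraMap M Ω a) ≤ v (z - algebraMap M Ω a₁) →
        c * v (z - algebraMap M Ω a) ^ m ≠ c' * v (z - algebraMap M Ω a) ^ m' ∨
          (c = 0 ∧ c' = 0) := by
  rcases eq_or_ne c' 0 with rfl | hc'
  · refine ⟨a₀, le_rfl, fun a _ => ?_⟩
    rcases eq_or_ne c 0 with rfl | hc
    · exact Or.inr ⟨rfl, rfl⟩
    · left
      rw [zero_mul]
      exact mul_ne_zero hc (pow_ne_zero _ (hz.pos a).ne')
  · by_cases h : ∀ a : M, v (z - algebraMap M Ω a) ≤ v (z - algebraMap M Ω a₀) →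
        c * v (z - algebraMap M Ω a) ^ m ≠ c' * v (z - algebraMap M Ω a) ^ m'
    · exact ⟨a₀, le_rfl, fun a ha => Or.inl (h a ha)⟩
    · push Not at h
      obtain ⟨b, hb, hbe⟩ := h
      obtain ⟨a₁, ha₁⟩ := hz b
      refine ⟨a₁, ha₁.le.trans hb, fun a ha => Or.inl (ne_of_gt ?_)⟩
      have hlt : v (z - algebraMap M Ω a) < v (z - algebraMap M Ω b) := ha.trans_lt ha₁
      have hb0 := hz.pos b
      have ha0 := hz.pos a
      obtain ⟨k, rfl⟩ : ∃ k, m' = m + k := ⟨m' - m, by lia⟩
      have hk : k ≠ 0 := by lia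
      have hcb : c = c' * v (z - algebraMap M Ω b) ^ k := by
        have h3 : c * v (z - algebraMap M Ω b) ^ m =
            (c' * v (z - algebraMap M Ω b) ^ k) * v (z - algebraMap M Ω b) ^ m := by
          rw [hbe, pow_add]; ac_rfl
        exact mul_right_cancel₀ (pow_ne_zero _ hb0.ne') h3
      have h4 : c' * v (z - algebraMap M Ω a) ^ k < c' * v (z - algebraMap M Ω b) ^ k :=
        mul_lt_mul_of_pos_left (pow_lt_pow_left₀ hlt zero_le hk) (zero_lt_iff.2 hc')
      rw [hcb, pow_add, mul_comm (v (z - algebraMap M Ω a) ^ m), ← mul_assoc]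
      exact mul_lt_mul_of_pos_right h4 (pow_pos ha0 _)

theorem stepA (hz : Lim v M z) (Q : M[X])
    (hQ : ∀ u : M[X], 1 < v (aeval z (Q - (u ^ p - u)))) :
    ∃ (a : M) (u : M[X]), (taylor a (Q - (u ^ p - u))).coeff 0 = 0 ∧
      1 < v (algebraMap M Ω ((taylor a (Q - (u ^ p - u))).coeff 1)) * v (z - algebraMap M Ω a) ∧
      ∀ m, 2 ≤ m →
        v (algebraMap M Ω ((taylor a (Q - (u ^ p - u))).coeff m)) * v (z - algebraMap M Ω a) ^ m <
        v (algebraMap M Ω ((taylor a (Q - (u ^ p - u))).coeff 1)) * v (z - algebraMap M Ω a) := by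
  classical
  -- the reduced form at `a`
  have hred : ∀ a : M, ∃ u : M[X], taylor a (Q - (u ^ p - u)) = red p (taylor a Q) := by
    intro a
    obtain ⟨u, hu⟩ := exists_red p (taylor a Q)
    refine ⟨taylor (-a) u, ?_⟩
    have e : taylor a (taylor (-a) u) = u := by
      rw [taylor_taylor]; simp
    rw [map_sub, map_sub, taylor_pow, e]
    linear_combination hu
  have haev : ∀ a : M, 1 < v (aeval (z - algebraMap M Ω a) (red p (taylor a Q))) := by
    intro a
    obtain ⟨u, hu⟩ := hred a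
    have h1 := hQ u
    have h2 : aeval z (Q - (u ^ p - u)) =
        aeval (z - algebraMap M Ω a) (taylor a (Q - (u ^ p - u))) := by
      rw [taylor_apply, aeval_comp]
      simp
    rwa [h2, hu] at h1
  set N := Q.natDegree with hN
  -- eventual constancy
  choose A hA using gm_eventually p v hz Q
  obtain ⟨a₁, ha₁⟩ := hz.closer v ((range (N + 1)).image A)
  set c : ℕ → Γ := fun m => v (algebraMap M Ω (gm p Q m a₁)) with hc
  have hconst : ∀ m, ∀ a : M, v (z - algebraMap M Ω a) ≤ v (z - algebraMap M Ω a₁) →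
      v (algebraMap M Ω (gm p Q m a)) = c m := by
    intro m a ha
    rcases le_or_gt m N with hm | hm
    · have h1 := ha₁ (A m) (mem_image_of_mem A (mem_range.2 (by lia)))
      rw [hc]
      show _ = v (algebraMap M Ω (gm p Q m a₁))
      rw [hA m a (ha.trans h1.le), hA m a₁ h1.le]
    · rw [hc]
      show _ = v (algebraMap M Ω (gm p Q m a₁))
      rw [gm_of_lt p Q hm, gm_of_lt p Q hm]
  -- separation
  have hsep : ∀ q : ℕ × ℕ, ∃ b : M, v (z - algebraMap M Ω b) ≤ v (z - algebraMap M Ω a₁) ∧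
      (q.1 < q.2 → ∀ a : M, v (z - algebraMap M Ω a) ≤ v (z - algebraMap M Ω b) →
        c q.1 * v (z - algebraMap M Ω a) ^ q.1 ≠ c q.2 * v (z - algebraMap M Ω a) ^ q.2 ∨
          (c q.1 = 0 ∧ c q.2 = 0)) := by
    intro q
    by_cases h : q.1 < q.2
    · obtain ⟨b, hb1, hb2⟩ := hz.sep v (c q.1) (c q.2) h a₁
      exact ⟨b, hb1, fun _ => hb2⟩
    · exact ⟨a₁, le_rfl, fun h' => absurd h' h⟩
  choose B hB1 hB2 using hsep
  obtain ⟨a₂, ha₂⟩ := hz.closer v ((range (N + 1) ×ˢ range (N + 1)).image B ∪ {a₁})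
  have ha21 : v (z - algebraMap M Ω a₂) < v (z - algebraMap M Ω a₁) :=
    ha₂ a₁ (mem_union_right _ (mem_singleton_self _))
  have hne : ∀ a : M, v (z - algebraMap M Ω a) ≤ v (z - algebraMap M Ω a₂) →
      ∀ m m' : ℕ, m ≤ N → m' ≤ N → m ≠ m' →
        c m * v (z - algebraMap M Ω a) ^ m = c m' * v (z - algebraMap M Ω a) ^ m' →
          c m = 0 ∧ c m' = 0 := by
    have aux : ∀ a : M, v (z - algebraMap M Ω a) ≤ v (z - algebraMap M Ω a₂) →
      ∀ m m' : ℕ, m ≤ N → m' ≤ N → m < m' →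
        c m * v (z - algebraMap M Ω a) ^ m = c m' * v (z - algebraMap M Ω a) ^ m' →
          c m = 0 ∧ c m' = 0 := by
      intro a ha m m' hm hm' hlt he
      have h1 := ha₂ (B (m, m')) (mem_union_left _ (mem_image_of_mem B
        (mem_product.2 ⟨mem_range.2 (by simp; lia), mem_range.2 (by simp; lia)⟩)))
      rcases hB2 (m, m') hlt a (ha.trans h1.le) with h2 | h2
      · exact absurd he h2
      · exact h2
    intro a ha m m' hm hm' hne he
    rcases lt_or_gt_of_ne hne with h | h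
    · exact aux a ha m m' hm hm' h he
    · exact (aux a ha m' m hm' hm h he.symm).symm
  -- dominance
  let Dom : M → ℕ → Prop := fun a m => 1 < c m * v (z - algebraMap M Ω a) ^ m ∧
    ∀ m', m' ≠ m → c m' * v (z - algebraMap M Ω a) ^ m' < c m * v (z - algebraMap M Ω a) ^ m
  have hDom : ∀ a : M, v (z - algebraMap M Ω a) ≤ v (z - algebraMap M Ω a₂) → ∃ m, Dom a m := by
    intro a ha
    obtain ⟨m, hm, hmax⟩ := (range (N + 1)).exists_max_image
      (fun m => c m * v (z - algebraMap M Ω a) ^ m) ⟨0, by simp⟩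
    rw [mem_range] at hm
    have h1 : 1 < c m * v (z - algebraMap M Ω a) ^ m := by
      by_contra hcon
      rw [not_lt] at hcon
      refine absurd (haev a) (not_lt.2 ?_)
      rw [aeval_eq_sum_range' (n := N + 1)
        (lt_of_le_of_lt (natDegree_red_le p _) (by rw [natDegree_taylor]; lia))]
      refine v.map_sum_le fun m' hm' => ?_
      rw [Algebra.smul_def, map_mul, map_pow]
      have h2 : v (algebraMap M Ω ((red p (taylor a Q)).coeff m')) = c m' :=
        hconst m' a (ha.trans ha21.le)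
      rw [h2]
      exact (hmax m' hm').trans hcon
    refine ⟨m, h1, fun m' hm' => ?_⟩
    rcases le_or_gt m' N with hmN | hmN
    · refine lt_of_le_of_ne (hmax m' (mem_range.2 (by lia))) fun he => ?_
      have h3 := (hne a ha m' m hmN (by lia) hm' he).2
      rw [h3, zero_mul] at h1
      exact absurd h1 (not_lt.2 zero_le)
    · have h4 : c m' = 0 := by
        rw [hc]
        show v (algebraMap M Ω (gm p Q m' a₁)) = 0
        rw [gm_of_lt p Q hmN]; simp
      rw [h4, zero_mul]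
      exact lt_of_le_of_lt zero_le h1
  have hex : ∃ m, ∃ a : M, v (z - algebraMap M Ω a) ≤ v (z - algebraMap M Ω a₂) ∧ Dom a m := by
    obtain ⟨m, hm⟩ := hDom a₂ le_rfl
    exact ⟨m, a₂, le_rfl, hm⟩
  set m₀ := Nat.find hex with hm₀
  obtain ⟨a₀, ha₀, hD₀⟩ := Nat.find_spec hex
  rw [← hm₀] at hD₀
  have hmin : ∀ m, ∀ a : M, v (z - algebraMap M Ω a) ≤ v (z - algebraMap M Ω a₂) → Dom a m →
      m₀ ≤ m := fun m a ha hD => Nat.find_min' hex ⟨a, ha, hD⟩
  have hall : ∀ a : M, v (z - algebraMap M Ω a) ≤ v (z - algebraMap M Ω a₀) → Dom a m₀ := by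
    intro a ha
    obtain ⟨m, hm⟩ := hDom a (ha.trans ha₀)
    have h1 := hmin m a (ha.trans ha₀) hm
    rcases eq_or_lt_of_le h1 with h2 | h2
    · rw [h2]; exact hm
    · exfalso
      have h3 := hD₀.2 m h2.ne'
      have h4 := hm.2 m₀ h2.ne
      obtain ⟨k, hk⟩ : ∃ k, m = m₀ + k := ⟨m - m₀, by lia⟩
      have hpos := hz.pos a
      have hpos₀ := hz.pos a₀
      rw [hk, pow_add, mul_comm (v (z - algebraMap M Ω a₀) ^ m₀), ← mul_assoc, ← hk] at h3
      rw [hk, pow_add, mul_comm (v (z - algebraMap M Ω a) ^ m₀), ← mul_assoc, ← hk] at h4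
      have h5 : c m * v (z - algebraMap M Ω a₀) ^ k < c m₀ := lt_of_mul_lt_mul_right h3 zero_le
      have h6 : c m₀ < c m * v (z - algebraMap M Ω a) ^ k := lt_of_mul_lt_mul_right h4 zero_le
      have h7 : c m * v (z - algebraMap M Ω a) ^ k ≤ c m * v (z - algebraMap M Ω a₀) ^ k :=
        mul_le_mul_right (pow_le_pow_left₀ zero_le ha k) _
      exact absurd (h6.trans_le h7) (not_lt.2 h5.le)
  -- the two scales
  let w : Valuation M Γ := v.comap (algebraMap M Ω)
  have hscale : ∀ a b : M, v (z - algebraMap M Ω a) ≤ v (z - algebraMap M Ω a₀) →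
      v (z - algebraMap M Ω b) < v (z - algebraMap M Ω a) →
      c 1 = c m₀ * v (z - algebraMap M Ω a) ^ (m₀ - 1) := by
    intro a b ha hb
    have hD := hall a ha
    have hwd : w (b - a) = v (z - algebraMap M Ω a) := by
      show v (algebraMap M Ω (b - a)) = _
      have e : algebraMap M Ω (b - a) = (z - algebraMap M Ω a) - (z - algebraMap M Ω b) := by
        rw [map_sub]; ring
      rw [e]
      exact v.map_sub_eq_of_lt_left hb
    have hnear : v (z - algebraMap M Ω a) ≤ v (z - algebraMap M Ω a₁) :=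
      (ha.trans ha₀).trans ha21.le
    have hwc : ∀ m, w ((red p (taylor a Q)).coeff m) = c m := fun m => hconst m a hnear
    have hba : b - a ≠ 0 := by
      intro h
      rw [h, map_zero] at hwd
      exact (hz.pos a).ne hwd
    have h1 := two_scale p w (red p (taylor a Q)) (fun m hm => red_coeff_of_dvd p _ hm) (b - a)
      hba m₀ (by rw [hwc, hwd]; exact hD.1) (fun m hm => by rw [hwc, hwc, hwd]; exact hD.2 m hm)
    rw [← gm_move p Q a b 1, hwc, hwd] at h1
    rw [← h1]
    exact (hconst 1 b (hb.le.trans hnear)).symm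
  obtain ⟨b₁, hb₁⟩ := hz a₀
  obtain ⟨b₂, hb₂⟩ := hz b₁
  have hcm0 : c m₀ ≠ 0 := by
    intro h
    have := hD₀.1
    rw [h, zero_mul] at this
    exact absurd this (not_lt.2 zero_le)
  have hm1 : m₀ = 1 := by
    have h1 := hscale a₀ b₁ le_rfl hb₁
    have h2 := hscale b₁ b₂ hb₁.le hb₂
    have h0 : m₀ ≠ 0 := by
      intro h
      apply hcm0
      rw [h, hc]
      show v (algebraMap M Ω (gm p Q 0 a₁)) = 0
      rw [gm_of_dvd p Q (dvd_zero p)]; simp
    by_contra hne1
    have h3 : v (z - algebraMap M Ω b₁) ^ (m₀ - 1) < v (z - algebraMap M Ω a₀) ^ (m₀ - 1) :=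
      pow_lt_pow_left₀ hb₁ zero_le (by lia)
    have h4 := mul_left_cancel₀ hcm0 (h1.symm.trans h2)
    exact h3.ne' h4
  obtain ⟨u, hu⟩ := hred a₀
  refine ⟨a₀, u, ?_, ?_, ?_⟩
  · rw [hu]; exact red_coeff_zero p _
  all_goals
    rw [hm1] at hD₀
    have hnear : v (z - algebraMap M Ω a₀) ≤ v (z - algebraMap M Ω a₁) := ha₀.trans ha21.le
    have hcc : ∀ m, v (algebraMap M Ω ((red p (taylor a₀ Q)).coeff m)) = c m :=
      fun m => hconst m a₀ hnear
    rw [hu]
  · rw [hcc]
    simpa using hD₀.1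
  · intro m hm
    rw [hcc, hcc]
    simpa using hD₀.2 m (by lia)

end Pool.Agent.H58.Tilt
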